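import Pool.Agent.MP_542436_nt.SZ.Spec

/-! The discriminant of a cubic field, by descent on binary cubic forms. -/

set_option autoImplicit false

namespace Pool.Agent.MP_542436_nt.SZ

open NumberField Polynomial

namespace D3

/-- discriminant of a binary cubic form -/
def ds {R : Type} [CommRing R] (a b c d : R) : R :=
  b ^ 2 * c ^ 2 - 4 * a * c ^ 3 - 4 * b ^ 3 * d - 27 * a ^ 2 * d ^ 2 + 18 * a * b * c * d

variable {L : Type} [Field L] [NumberField L]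

/-- the form has an irrational root in `L` -/
def Fm (L : Type) [Field L] [NumberField L] (a b c d : ℤ) : Prop :=
  ∃ t : L, (∀ q : ℚ, t ≠ q) ∧ a * t ^ 3 + b * t ^ 2 + c * t + d = 0

theorem li (hL : Module.finrank ℚ L = 3) {t : L} (ht : ∀ q : ℚ, t ≠ q) {p q r : ℚ}
    (h : (p : L) + q * t + r * t ^ 2 = 0) : p = 0 ∧ q = 0 ∧ r = 0 := by
  have hi : IsIntegral ℚ t := Algebra.IsIntegral.isIntegral t
  have h1 := minpoly.degree_dvd hi
  rw [hL] at h1
  have h3 : (minpoly ℚ t).natDegree = 3 := by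
    rcases (Nat.dvd_prime Nat.prime_three).1 h1 with h2 | h2
    · obtain ⟨u, hu⟩ := minpoly.natDegree_eq_one_iff.1 h2
      exact absurd hu.symm (ht u)
    · exact h2
  have h0 : (C r * X ^ 2 + C q * X + C p : ℚ[X]) = 0 := by
    by_contra hne
    have := natDegree_le_natDegree (minpoly.degree_le_of_ne_zero ℚ t hne (by
      simp only [map_add, map_mul, map_pow, aeval_X, aeval_C, eq_ratCast]
      linear_combination h))
    have h2 : (C r * X ^ 2 + C q * X + C p : ℚ[X]).natDegree ≤ 2 := natDegree_quadratic_le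
    omega
  have c0 := congrArg (fun f => coeff f 0) h0
  have c1 := congrArg (fun f => coeff f 1) h0
  have c2 := congrArg (fun f => coeff f 2) h0
  simp [coeff_X, coeff_C] at c0 c1 c2
  exact ⟨c0, c1, c2⟩

theorem tr_of (β : Module.Basis (Fin 3) ℚ L) (s : L) (m : Fin 3 → Fin 3 → ℚ)
    (h : ∀ j, s * β j = ∑ i, m j i • β i) : Algebra.trace ℚ L s = ∑ i, m i i := by
  rw [Algebra.trace_eq_matrix_trace β, Matrix.trace]
  refine Finset.sum_congr rfl fun i _ => ?_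
  rw [Matrix.diag_apply, Algebra.leftMulMatrix_eq_repr_mul, h, β.repr_sum_self]

theorem dvd_ds (hL : Module.finrank ℚ L = 3) {a b c d : ℤ} (hF : Fm L a b c d)
    (h0 : ds a b c d ≠ 0) : discr L ∣ ds a b c d := by
  obtain ⟨t, ht, hf⟩ := hF
  have ha : a ≠ 0 := by
    rintro rfl
    obtain ⟨h1, h2, h3⟩ := li hL ht (p := d) (q := c) (r := b) (by
      push_cast at hf ⊢; linear_combination hf)
    have h2' : c = 0 := by exact_mod_cast h2
    have h3' : b = 0 := by exact_mod_cast h3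
    exact h0 (by simp [ds, h2', h3'])
  have ha' : (a : ℚ) ≠ 0 := by exact_mod_cast ha
  obtain ⟨w, hw⟩ : ∃ w : L, w = a * t := ⟨_, rfl⟩
  obtain ⟨v, hv⟩ : ∃ v : L, v = a * t ^ 2 + b * t := ⟨_, rfl⟩
  have ww : w * w = a * v - b * w := by rw [hw, hv]; ring
  have wv : w * v = -(c * w) - a * d := by rw [hw, hv]; linear_combination (a : L) * hf
  have vv : v * v = -(c * v) - d * w - b * d := by
    rw [hw, hv]; linear_combination ((a : L) * t + b) * hf
  have hli : LinearIndependent ℚ ![(1 : L), w, v] := by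
    rw [Fintype.linearIndependent_iff]
    intro g hg
    rw [Fin.sum_univ_three] at hg
    simp only [Matrix.cons_val_zero, Matrix.cons_val_one, Matrix.cons_val, Algebra.smul_def,
      eq_ratCast] at hg
    obtain ⟨h1, h2, h3⟩ := li hL ht (p := g 0) (q := g 1 * a + g 2 * b) (r := g 2 * a) (by
      push_cast; rw [hw, hv] at hg; linear_combination hg)
    have g2 : g 2 = 0 := (mul_eq_zero.1 h3).resolve_right ha'
    rw [g2, zero_mul, add_zero] at h2
    have g1 : g 1 = 0 := (mul_eq_zero.1 h2).resolve_right ha'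
    intro i; fin_cases i <;> assumption
  let β : Module.Basis (Fin 3) ℚ L := basisOfLinearIndependentOfCardEqFinrank hli (by simp [hL])
  have hβ : ⇑β = ![(1 : L), w, v] := coe_basisOfLinearIndependentOfCardEqFinrank _ _
  have tw : Algebra.trace ℚ L w = -b := by
    rw [tr_of β w ![![0, 1, 0], ![0, -b, a], ![-(a * d), -c, 0]] (fun j => by
      rw [hβ, Fin.sum_univ_three]
      fin_cases j <;> simp [Algebra.smul_def, ww, wv] <;> ring)]
    simp [Fin.sum_univ_three]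
  have tv : Algebra.trace ℚ L v = -(2 * c) := by
    rw [tr_of β v ![![0, 0, 1], ![-(a * d), -c, 0], ![-(b * d), -d, -c]] (fun j => by
      rw [hβ, Fin.sum_univ_three]
      fin_cases j <;> simp [Algebra.smul_def, vv, mul_comm v w, wv] <;> ring)]
    simp [Fin.sum_univ_three]; ring
  have iw : IsIntegral ℤ w := by
    refine ⟨X ^ 3 + C b * X ^ 2 + C (a * c) * X + C (a ^ 2 * d), by monicity!, ?_⟩
    simp only [eval₂_add, eval₂_mul, eval₂_pow, eval₂_X, eval₂_C]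
    simp only [eq_intCast]
    push_cast
    rw [hw]; linear_combination (a : L) ^ 2 * hf
  have iv : IsIntegral ℤ v := by
    have : IsIntegral ℤ (v + c) := by
      refine ⟨X ^ 3 - C c * X ^ 2 + C (b * d) * X - C (a * d ^ 2), by monicity!, ?_⟩
      simp only [eval₂_add, eval₂_sub, eval₂_mul, eval₂_pow, eval₂_X, eval₂_C]
      simp only [eq_intCast]
      push_cast
      linear_combination (v + c) * vv - (d : L) * wv
    have h2 := this.sub (isIntegral_algebraMap (R := ℤ) (A := L) (x := c))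
    simpa using h2
  let W : 𝓞 L := ⟨w, iw⟩
  let V : 𝓞 L := ⟨v, iv⟩
  have hr : Module.finrank ℤ (𝓞 L) = 3 := by rw [RingOfIntegers.rank, hL]
  let B : Module.Basis (Fin 3) ℤ (𝓞 L) := Module.finBasisOfFinrankEq ℤ (𝓞 L) hr
  let u : Fin 3 → 𝓞 L := ![1, W, V]
  have h1 : Algebra.discr ℤ u = (B.toMatrix u).det ^ 2 * discr L := by
    rw [← discr_eq_discr L B, ← Algebra.discr_of_matrix_vecMul, Module.Basis.toMatrix_map_vecMul]
  have t1 : Algebra.trace ℤ (𝓞 L) 1 = 3 := by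
    have := Algebra.trace_algebraMap (R := ℤ) (S := 𝓞 L) 1
    rw [map_one, hr] at this
    simpa using this
  have tW : Algebra.trace ℤ (𝓞 L) W = -b := by
    have := Algebra.coe_trace_int W
    have e : ((W : 𝓞 L) : L) = w := rfl
    rw [e, tw] at this
    exact_mod_cast this
  have tV : Algebra.trace ℤ (𝓞 L) V = -(2 * c) := by
    have := Algebra.coe_trace_int V
    have e : ((V : 𝓞 L) : L) = v := rfl
    rw [e, tv] at this
    exact_mod_cast this
  have tr : ∀ (z : 𝓞 L) (p q r : ℤ), (z : L) = p + q * w + r * v →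
      Algebra.trace ℤ (𝓞 L) z = 3 * p - b * q - 2 * c * r := by
    intro z p q r hz
    have e : z = p • (1 : 𝓞 L) + q • W + r • V := by
      apply RingOfIntegers.ext
      simp only [zsmul_eq_mul, map_add, map_mul, map_intCast, map_one, mul_one]
      exact hz
    rw [e, map_add, map_add, map_zsmul, map_zsmul, map_zsmul, t1, tW, tV]
    simp only [smul_eq_mul]; ring
  have tWW := tr (W * W) 0 (-b) a (by
    change w * w = _
    rw [ww]; push_cast; ring)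
  have tWV := tr (W * V) (-(a * d)) (-c) 0 (by
    change w * v = _
    rw [wv]; push_cast; ring)
  have tVV := tr (V * V) (-(b * d)) (-d) (-c) (by
    change v * v = _
    rw [vv]; push_cast; ring)
  have h2 : Algebra.discr ℤ u = ds a b c d := by
    rw [Algebra.discr_def, Matrix.det_fin_three]
    simp only [Algebra.traceMatrix_apply, Algebra.traceForm_apply, u, Matrix.cons_val_zero,
      Matrix.cons_val_one, Matrix.cons_val, one_mul, mul_one, mul_comm V W, t1, tW, tV, tWW, tWV,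
      tVV, ds]
    ring
  exact ⟨_, by rw [← h2, h1, mul_comm]⟩

theorem shift {a b c d : ℤ} (h : Fm L a b c d) (s : ℤ) :
    Fm L a (b + 3 * a * s) (c + 2 * b * s + 3 * a * s ^ 2) (d + c * s + b * s ^ 2 + a * s ^ 3) := by
  obtain ⟨t, ht, hf⟩ := h
  refine ⟨t - s, fun q hq => ht (q + s) (by push_cast; linear_combination hq), ?_⟩
  push_cast; linear_combination hf

theorem rev {a b c d : ℤ} (h : Fm L a b c d) : Fm L d c b a := by
  obtain ⟨t, ht, hf⟩ := h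
  have h0 : t ≠ 0 := by simpa using ht 0
  refine ⟨t⁻¹, fun q hq => ht q⁻¹ (by push_cast; rw [← hq, inv_inv]), ?_⟩
  field_simp
  linear_combination hf

theorem dv {p a b c d : ℤ} (hp : p ≠ 0) (h : Fm L (p * a) (p * b) (p * c) (p * d)) :
    Fm L a b c d := by
  obtain ⟨t, ht, hf⟩ := h
  have hp' : (p : L) ≠ 0 := by exact_mod_cast hp
  refine ⟨t, ht, mul_left_cancel₀ hp' ?_⟩
  push_cast at hf
  linear_combination hf

theorem step {p a b c d : ℤ} (hp : p ≠ 0) (h : Fm L a b (p * c) (p * (p * d))) :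
    Fm L (p * a) b c d := by
  obtain ⟨t, ht, hf⟩ := h
  have hp' : (p : L) ≠ 0 := by exact_mod_cast hp
  refine ⟨t / p, fun q hq => ht (q * p) (by push_cast; rw [← hq]; field_simp), ?_⟩
  push_cast at hf ⊢
  field_simp
  linear_combination hf

theorem root_field {F : Type} [Field F] (h2 : (2 : F) ≠ 0) (h3 : (3 : F) ≠ 0) (a b c d : F)
    (h : ds a b c d = 0) :
    (∃ s, c + 2 * b * s + 3 * a * s ^ 2 = 0 ∧ d + c * s + b * s ^ 2 + a * s ^ 3 = 0) ∨
      (a = 0 ∧ b = 0) := by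
  unfold ds at h
  by_cases hH : b ^ 2 - 3 * a * c = 0
  · by_cases ha : a = 0
    · right
      rw [ha] at hH
      exact ⟨ha, pow_eq_zero_iff (two_ne_zero) |>.1 (by linear_combination hH)⟩
    · left
      obtain ⟨s, hs⟩ : ∃ s, 3 * a * s = -b := ⟨-b / (3 * a), by field_simp⟩
      have hb : b = -(3 * a * s) := by linear_combination hs
      have hc : c = 3 * a * s ^ 2 := by
        apply mul_left_cancel₀ (mul_ne_zero h3 ha)
        rw [hb] at hH
        linear_combination -hH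
      refine ⟨s, by rw [hb, hc]; ring, ?_⟩
      have h4 : (3 * 3 * 3 * a ^ 2) * (d + a * s ^ 3) ^ 2 = 0 := by
        rw [hb, hc] at h
        linear_combination -h
      have h5 := (mul_eq_zero.1 h4).resolve_left
        (mul_ne_zero (mul_ne_zero (mul_ne_zero h3 h3) h3) (pow_ne_zero _ ha))
      have h6 := pow_eq_zero_iff (two_ne_zero) |>.1 h5
      rw [hb, hc]; linear_combination h6
  · left
    have hH2 := mul_ne_zero h2 hH
    obtain ⟨s, hs⟩ : ∃ s, 2 * (b ^ 2 - 3 * a * c) * s = 9 * a * d - b * c :=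
      ⟨(9 * a * d - b * c) / (2 * (b ^ 2 - 3 * a * c)), by field_simp⟩
    refine ⟨s, mul_left_cancel₀ (pow_ne_zero 2 hH2) ?_, mul_left_cancel₀ (pow_ne_zero 3 hH2) ?_⟩
    · have e : (2 * (b ^ 2 - 3 * a * c)) ^ 2 * (c + 2 * b * s + 3 * a * s ^ 2) =
          (2 * (b ^ 2 - 3 * a * c)) ^ 2 * c + 2 * b * (2 * (b ^ 2 - 3 * a * c)) *
            (2 * (b ^ 2 - 3 * a * c) * s) + 3 * a * (2 * (b ^ 2 - 3 * a * c) * s) ^ 2 := by ring
      rw [e, hs]
      linear_combination (-9 * a) * h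
    · have e : (2 * (b ^ 2 - 3 * a * c)) ^ 3 * (d + c * s + b * s ^ 2 + a * s ^ 3) =
          (2 * (b ^ 2 - 3 * a * c)) ^ 3 * d + c * (2 * (b ^ 2 - 3 * a * c)) ^ 2 *
            (2 * (b ^ 2 - 3 * a * c) * s) + b * (2 * (b ^ 2 - 3 * a * c)) *
            (2 * (b ^ 2 - 3 * a * c) * s) ^ 2 + a * (2 * (b ^ 2 - 3 * a * c) * s) ^ 3 := by ring
      rw [e, hs]
      linear_combination (-(2 * b ^ 3 - 9 * a * b * c + 27 * a ^ 2 * d)) * h

theorem root_zmod (p : ℕ) (hp : p.Prime) (a b c d : ZMod p) (h : ds a b c d = 0) :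
    (∃ s, c + 2 * b * s + 3 * a * s ^ 2 = 0 ∧ d + c * s + b * s ^ 2 + a * s ^ 3 = 0) ∨
      (a = 0 ∧ b = 0) := by
  by_cases h2 : p = 2
  · subst h2; unfold ds at h; revert a b c d; decide
  by_cases h3 : p = 3
  · subst h3; unfold ds at h; revert a b c d; decide
  have := Fact.mk hp
  refine root_field ?_ ?_ a b c d h
  · intro h
    exact h2 ((Nat.prime_dvd_prime_iff_eq hp Nat.prime_two).1
      ((ZMod.natCast_eq_zero_iff 2 p).1 (by exact_mod_cast h)))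
  · intro h
    exact h3 ((Nat.prime_dvd_prime_iff_eq hp Nat.prime_three).1
      ((ZMod.natCast_eq_zero_iff 3 p).1 (by exact_mod_cast h)))

theorem root_int (p : ℕ) (hp : p.Prime) (a b c d : ℤ) (h : (p : ℤ) ∣ ds a b c d) :
    (∃ s, (p : ℤ) ∣ c + 2 * b * s + 3 * a * s ^ 2 ∧ (p : ℤ) ∣ d + c * s + b * s ^ 2 + a * s ^ 3) ∨
      ((p : ℤ) ∣ a ∧ (p : ℤ) ∣ b) := by
  simp only [← ZMod.intCast_zmod_eq_zero_iff_dvd] at h ⊢
  rcases root_zmod p hp a b c d (by rw [← h]; unfold ds; push_cast; rfl) with ⟨s, h1, h2⟩ | h1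
  · obtain ⟨s, rfl⟩ := ZMod.intCast_surjective s
    exact Or.inl ⟨s, by push_cast; exact h1, by push_cast; exact h2⟩
  · exact Or.inr h1

theorem lt_of {p : ℕ} (hp : p.Prime) {D D' : ℤ} {k : ℕ} (hk : k ≠ 0) (h0 : D ≠ 0)
    (h : D = p ^ k * D') : D' ≠ 0 ∧ D'.natAbs < D.natAbs := by
  have h1 : D' ≠ 0 := fun h1 => h0 (by rw [h, h1, mul_zero])
  refine ⟨h1, ?_⟩
  rw [h, Int.natAbs_mul, Int.natAbs_pow, Int.natAbs_natCast]
  exact (Nat.lt_mul_iff_one_lt_left (Int.natAbs_pos.2 h1)).2 (Nat.one_lt_pow hk hp.one_lt)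

theorem desc (hL : Module.finrank ℚ L = 3) {p : ℕ} (hp : p.Prime) {m : ℕ} (hm : m ≠ 0)
    (h1 : ∀ a b c d : ℤ, ¬ (p : ℤ) ∣ d → ¬ ((p : ℤ) ∣ a ∧ (p : ℤ) ∣ b) →
      ¬ (p : ℤ) ^ m ∣ ds a b (p * c) (p * d)) (n : ℕ) :
    ∀ a b c d : ℤ, (ds a b c d).natAbs = n → ds a b c d ≠ 0 → Fm L a b c d →
      ¬ (p : ℤ) ^ m ∣ discr L := by
  induction n using Nat.strong_induction_on with
  | _ n ih =>
  intro a b c d hn h0 hF hd
  have hp0 : (p : ℤ) ≠ 0 := by exact_mod_cast hp.ne_zero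
  have hpd : (p : ℤ) ∣ ds a b c d := ((dvd_pow_self _ hm).trans hd).trans (dvd_ds hL hF h0)
  obtain ⟨a', b', c', d', hF', e⟩ : ∃ a' b' c' d' : ℤ, Fm L a' b' (p * c') (p * d') ∧
      ds a b c d = ds a' b' (p * c') (p * d') := by
    rcases root_int p hp a b c d hpd with ⟨s, ⟨c', hc⟩, ⟨d', hd'⟩⟩ | ⟨⟨a', ha⟩, ⟨b', hb⟩⟩
    · refine ⟨a, b + 3 * a * s, c', d', ?_, ?_⟩
      · rw [← hc, ← hd']; exact shift hF s
      · rw [← hc, ← hd']; unfold ds; ring
    · refine ⟨d, c, b', a', ?_, ?_⟩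
      · rw [← ha, ← hb]; exact rev hF
      · rw [← ha, ← hb]; unfold ds; ring
  by_cases q1 : (p : ℤ) ∣ d'
  · obtain ⟨d'', rfl⟩ := q1
    obtain ⟨k1, k2⟩ := lt_of hp (k := 2) (D' := ds (p * a') b' c' d'') two_ne_zero h0
      (by rw [e]; unfold ds; ring)
    exact ih _ (hn ▸ k2) _ _ _ _ rfl k1 (step hp0 hF') hd
  by_cases q2 : (p : ℤ) ∣ a' ∧ (p : ℤ) ∣ b'
  · obtain ⟨⟨a'', rfl⟩, ⟨b'', rfl⟩⟩ := q2
    obtain ⟨k1, k2⟩ := lt_of hp (k := 4) (D' := ds a'' b'' c' d') four_ne_zero h0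
      (by rw [e]; unfold ds; ring)
    exact ih _ (hn ▸ k2) _ _ _ _ rfl k1 (dv hp0 hF') hd
  exact h1 a' b' c' d' q1 q2 (e ▸ hd.trans (dvd_ds hL hF h0))

theorem val1 {p : ℤ} (hp : Prime p) (h2 : ¬ p ∣ 2) {a b c d : ℤ} (hd : ¬ p ∣ d) (hb : ¬ p ∣ b) :
    ¬ p ^ 2 ∣ ds a b (p * c) (p * d) := by
  intro h
  have e : ds a b (p * c) (p * d) = p * (p * (b ^ 2 * c ^ 2 - 4 * a * p * c ^ 3 - 27 * a ^ 2 * d ^ 2 +
      18 * a * b * c * d) - 2 ^ 2 * b ^ 3 * d) := by unfold ds; ring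
  rw [e, pow_two, mul_dvd_mul_iff_left hp.ne_zero] at h
  have h3 := (dvd_sub_right (dvd_mul_right p _)).1 h
  rcases hp.dvd_or_dvd h3 with h4 | h4
  · rcases hp.dvd_or_dvd h4 with h5 | h5
    · exact h2 (hp.dvd_of_dvd_pow h5)
    · exact hb (hp.dvd_of_dvd_pow h5)
  · exact hd h4

theorem val2 {p : ℤ} (hp : Prime p) (h3 : ¬ p ∣ 3) {a b c d : ℤ} (hd : ¬ p ∣ d) (ha : ¬ p ∣ a) :
    ¬ p ^ 3 ∣ ds a (p * b) (p * c) (p * d) := by
  intro h
  have e : ds a (p * b) (p * c) (p * d) = p ^ 2 * (p * (p * b ^ 2 * c ^ 2 - 4 * a * c ^ 3 -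
      4 * p * b ^ 3 * d + 18 * a * b * c * d) - 3 ^ 3 * (a * d) ^ 2) := by unfold ds; ring
  rw [e, pow_succ, mul_dvd_mul_iff_left (pow_ne_zero _ hp.ne_zero)] at h
  have h4 := (dvd_sub_right (dvd_mul_right p _)).1 h
  rcases hp.dvd_or_dvd h4 with h5 | h5
  · exact h3 (hp.dvd_of_dvd_pow h5)
  · exact (hp.dvd_or_dvd (hp.dvd_of_dvd_pow h5)).elim ha hd

theorem val_two (a b c d : ℤ) (hd : ¬ (2 : ℤ) ∣ d) (hab : ¬ ((2 : ℤ) ∣ a ∧ (2 : ℤ) ∣ b)) :
    ¬ (2 : ℤ) ^ 6 ∣ ds a b (2 * c) (2 * d) := by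
  intro h
  by_cases hb : (2 : ℤ) ∣ b
  · obtain ⟨b, rfl⟩ := hb
    exact val2 Int.prime_two (by norm_num) hd (fun ha => hab ⟨ha, dvd_mul_right _ _⟩)
      ((pow_dvd_pow _ (by norm_num)).trans h)
  · obtain ⟨b, rfl⟩ : ∃ u, b = 2 * u + 1 := ⟨b / 2, by omega⟩
    obtain ⟨d, rfl⟩ : ∃ u, d = 2 * u + 1 := ⟨d / 2, by omega⟩
    obtain ⟨z, hz⟩ := h
    unfold ds at hz
    have h4 : (a + c) ^ 2 + 2 = 4 * (4 * z - ((b ^ 2 + b) * c ^ 2 - 2 * a * c ^ 3 -
        (8 * b ^ 3 * d + 12 * b ^ 2 * d + 6 * b * d + d + 4 * b ^ 3 + 6 * b ^ 2 + 3 * b + 1) -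
        (27 * (d ^ 2 + d) + 7) * a ^ 2 + (18 * b * d + 9 * b + 9 * d + 4) * a * c)) := by
      have : (4 : ℤ) ≠ 0 := by norm_num
      apply mul_left_cancel₀ this
      linear_combination hz
    rcases Int.even_or_odd' (a + c) with ⟨u, hu | hu⟩
    · rw [hu] at h4
      have : (2 * u) ^ 2 = 4 * u ^ 2 := by ring
      omega
    · rw [hu] at h4
      have : (2 * u + 1) ^ 2 = 4 * (u ^ 2 + u) + 1 := by ring
      omega

theorem val_three (a b c d : ℤ) (hd : ¬ (3 : ℤ) ∣ d) (hab : ¬ ((3 : ℤ) ∣ a ∧ (3 : ℤ) ∣ b)) :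
    ¬ (3 : ℤ) ^ 6 ∣ ds a b (3 * c) (3 * d) := by
  intro h
  have hp := Int.prime_three
  by_cases hb : (3 : ℤ) ∣ b
  · obtain ⟨b, rfl⟩ := hb
    have ha : ¬ (3 : ℤ) ∣ a := fun ha => hab ⟨ha, dvd_mul_right _ _⟩
    obtain ⟨z, hz⟩ := h
    unfold ds at hz
    have h1 : (3 : ℤ) ∣ a * c ^ 3 :=
      ⟨b ^ 2 * c ^ 2 - a * c ^ 3 - 4 * b ^ 3 * d - 3 * a ^ 2 * d ^ 2 + 6 * a * b * c * d - 9 * z,
        mul_left_cancel₀ (show (27 : ℤ) ≠ 0 by norm_num) (by linear_combination -hz)⟩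
    obtain ⟨c, rfl⟩ := hp.dvd_of_dvd_pow ((hp.dvd_or_dvd h1).resolve_left ha)
    have h2 : (3 : ℤ) ∣ b ^ 3 * d :=
      ⟨3 * b ^ 2 * c ^ 2 - 12 * a * c ^ 3 - b ^ 3 * d - a ^ 2 * d ^ 2 + 6 * a * b * c * d - 3 * z,
        mul_left_cancel₀ (show (81 : ℤ) ≠ 0 by norm_num) (by linear_combination -hz)⟩
    obtain ⟨b, rfl⟩ := hp.dvd_of_dvd_pow ((hp.dvd_or_dvd h2).resolve_right hd)
    have h3 : (3 : ℤ) ∣ (a * d) ^ 2 :=
      ⟨9 * b ^ 2 * c ^ 2 - 4 * a * c ^ 3 - 12 * b ^ 3 * d + 6 * a * b * c * d - z,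
        mul_left_cancel₀ (show (243 : ℤ) ≠ 0 by norm_num) (by linear_combination -hz)⟩
    exact (hp.dvd_or_dvd (hp.dvd_of_dvd_pow h3)).elim ha hd
  · exact val1 hp (by norm_num) hd hb ((pow_dvd_pow _ (by norm_num)).trans h)

theorem desc2 (hL : Module.finrank ℚ L = 3) {p : ℕ} (hp : p.Prime) (h2 : ¬ (p : ℤ) ∣ 2) (n : ℕ) :
    ∀ a b c d : ℤ, (ds a b c d).natAbs = n → ds a b c d ≠ 0 → Fm L a b c d →
      ¬ (p : ℤ) ∣ b ^ 2 - 3 * a * c → ¬ (p : ℤ) ^ 2 ∣ discr L := by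
  induction n using Nat.strong_induction_on with
  | _ n ih =>
  intro a b c d hn h0 hF hH hd
  have hp' : Prime (p : ℤ) := Nat.prime_iff_prime_int.1 hp
  have hpd : (p : ℤ) ∣ ds a b c d :=
    ((dvd_pow_self _ two_ne_zero).trans hd).trans (dvd_ds hL hF h0)
  rcases root_int p hp a b c d hpd with ⟨s, ⟨c', hc⟩, ⟨d', hd'⟩⟩ | ⟨⟨a', ha⟩, ⟨b', hb⟩⟩
  · have hF' := shift hF s
    have e : ds a b c d = ds a (b + 3 * a * s) (p * c') (p * d') := by
      rw [← hc, ← hd']; unfold ds; ring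
    have eH : b ^ 2 - 3 * a * c = (b + 3 * a * s) ^ 2 - 3 * (p * a) * c' := by
      linear_combination (-3 * a) * hc
    rw [hc, hd'] at hF'
    by_cases q1 : (p : ℤ) ∣ d'
    · obtain ⟨d'', rfl⟩ := q1
      obtain ⟨k1, k2⟩ := lt_of hp (k := 2) (D' := ds (p * a) (b + 3 * a * s) c' d'') two_ne_zero h0
        (by rw [e]; unfold ds; ring)
      exact ih _ (hn ▸ k2) _ _ _ _ rfl k1 (step hp'.ne_zero hF') (eH ▸ hH) hd
    · refine val1 hp' h2 q1 (a := a) (b := b + 3 * a * s) (c := c') ?_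
        (e ▸ hd.trans (dvd_ds hL hF h0))
      rintro ⟨u, hu⟩
      exact hH ⟨p * u ^ 2 - 3 * a * c', by rw [eH, hu]; ring⟩
  · exact hH ⟨p * b' ^ 2 - 3 * a' * c, by rw [ha, hb]; ring⟩

theorem dvd_rd {p n : ℕ} (hp : p.Prime) (h : p ∣ n) (hn : n ≠ 0) : p ∣ rd n :=
  Finset.dvd_prod_of_mem _ (Nat.mem_primeFactors.2 ⟨hp, h, hn⟩)

theorem rd_pos (n : ℕ) : 0 < rd n :=
  Finset.prod_pos (fun _ hp => (Nat.prime_of_mem_primeFactors hp).pos)

end D3

open D3 in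
theorem rowD3 : RowD3 := by
  refine ⟨6 ^ 5, fun L _ _ e x y hL he hq hk => ?_⟩
  have hF : Fm L 1 0 (-3 * x) (2 * y) := ⟨e, hq, by push_cast; linear_combination he⟩
  have eD : ds 1 0 (-3 * x) (2 * y) = 108 * (x ^ 3 - y ^ 2) := by unfold ds; ring
  have hk0 : x ^ 3 - y ^ 2 ≠ 0 := sub_ne_zero.2 hk
  have h0 : ds 1 0 (-3 * x) (2 * y) ≠ 0 := by rw [eD]; exact mul_ne_zero (by norm_num) hk0
  refine Nat.le_of_dvd (Nat.mul_pos (by norm_num) (Nat.mul_pos (rd_pos _) (rd_pos _))) ?_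
  rw [Nat.dvd_iff_prime_pow_dvd_dvd]
  intro p j hp hj
  have hj' : ∀ i, i ≤ j → (p : ℤ) ^ i ∣ discr L := fun i hi => by
    have := (pow_dvd_pow p hi).trans hj
    rw [← Int.natCast_dvd] at this
    exact_mod_cast this
  by_cases h2 : p = 2
  · subst h2
    have : j ≤ 5 := by
      by_contra h
      exact desc hL hp (m := 6) (by norm_num) val_two _ _ _ _ _ rfl h0 hF (hj' 6 (by omega))
    exact ((pow_dvd_pow 2 this).trans (by norm_num)).mul_right _
  by_cases h3 : p = 3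
  · subst h3
    have : j ≤ 5 := by
      by_contra h
      exact desc hL hp (m := 6) (by norm_num) val_three _ _ _ _ _ rfl h0 hF (hj' 6 (by omega))
    exact ((pow_dvd_pow 3 this).trans (by norm_num)).mul_right _
  have hp' : Prime (p : ℤ) := Nat.prime_iff_prime_int.1 hp
  have n2 : ¬ (p : ℤ) ∣ 2 := fun h =>
    h2 ((Nat.prime_dvd_prime_iff_eq hp Nat.prime_two).1 (by exact_mod_cast h))
  have n3 : ¬ (p : ℤ) ∣ 3 := fun h =>
    h3 ((Nat.prime_dvd_prime_iff_eq hp Nat.prime_three).1 (by exact_mod_cast h))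
  have hj2 : j ≤ 2 := by
    by_contra h
    refine desc hL hp (m := 3) (by norm_num) (fun a b c d hd hab => ?_) _ _ _ _ _ rfl h0 hF
      (hj' 3 (by omega))
    by_cases hb : (p : ℤ) ∣ b
    · obtain ⟨b, rfl⟩ := hb
      exact val2 hp' n3 hd fun ha => hab ⟨ha, dvd_mul_right _ _⟩
    · exact fun h => val1 hp' n2 hd hb ((pow_dvd_pow _ (by norm_num)).trans h)
  refine Dvd.dvd.mul_left ?_ _
  rcases Nat.eq_zero_or_pos j with rfl | hj0
  · simp
  have hpk : (p : ℤ) ∣ x ^ 3 - y ^ 2 := by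
    have h1 := (hj' 1 hj0).trans (dvd_ds hL hF h0)
    rw [eD, pow_one] at h1
    refine (hp'.dvd_or_dvd h1).resolve_left fun h => ?_
    have h4 : (p : ℤ) ∣ 2 ^ 2 * 3 ^ 3 := by simpa using h
    exact (hp'.dvd_or_dvd h4).elim (fun h => n2 (hp'.dvd_of_dvd_pow h))
      fun h => n3 (hp'.dvd_of_dvd_pow h)
  have r1 : p ∣ rd (x ^ 3 - y ^ 2).natAbs :=
    dvd_rd hp (Int.natCast_dvd.1 hpk) (Int.natAbs_ne_zero.2 hk0)
  rcases Nat.lt_or_ge j 2 with hj1 | hj1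
  · obtain rfl : j = 1 := by omega
    rw [pow_one]; exact r1.mul_right _
  obtain rfl : j = 2 := by omega
  have hx : (p : ℤ) ∣ x := by
    by_contra hx
    refine desc2 hL hp n2 _ _ _ _ _ rfl h0 hF (fun h => ?_) (hj' 2 le_rfl)
    have h4 : (p : ℤ) ∣ 3 ^ 2 * x := by convert h using 1; ring
    exact (hp'.dvd_or_dvd h4).elim (fun h => n3 (hp'.dvd_of_dvd_pow h)) hx
  have hy : (p : ℤ) ∣ y :=
    hp'.dvd_of_dvd_pow ((dvd_sub_right (hx.trans (dvd_pow_self x three_ne_zero))).1 hpk)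
  have hg : Int.gcd x y ≠ 0 := fun h => by
    obtain ⟨rfl, rfl⟩ := Int.gcd_eq_zero_iff.1 h
    exact hk (by norm_num)
  rw [pow_two]
  exact Nat.mul_dvd_mul r1 (dvd_rd hp (Int.dvd_gcd hx hy) hg)

end Pool.Agent.MP_542436_nt.SZ
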