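import Pool.Agent.MP_542436_nt.SZ.Spec

/-! The bound for pairs of integers, assembled from the unit equation. -/

set_option autoImplicit false

namespace Pool.Agent.MP_542436_nt.SZ

open NumberField IsDedekindDomain

namespace PAIR

theorem un_div {F : Type} [Field F] [NumberField F] {r : ℕ} {z w : F} (hz : Un r z)
    (hw : Un r w) : Un r (z / w) := by
  intro p hp
  rw [map_div₀, hz p hp, hw p hp, div_one]

theorem rd_pos (n : ℕ) : 1 ≤ rd n :=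
  Finset.prod_pos fun _ hp => (Nat.prime_of_mem_primeFactors hp).pos

theorem rt_swap {M : Type} [Field M] {x y : ℤ} {a b c : M} (h : Rt x y a b c) :
    Rt x y a c b := by
  obtain ⟨h1, h2, h3⟩ := h
  exact ⟨by linear_combination h1, by linear_combination h2, by linear_combination h3⟩

theorem rt_rot {M : Type} [Field M] {x y : ℤ} {a b c : M} (h : Rt x y a b c) :
    Rt x y b c a := by
  obtain ⟨h1, h2, h3⟩ := h
  exact ⟨by linear_combination h1, by linear_combination h2, by linear_combination h3⟩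

theorem fin (CU K ε D R ρ h : ℝ) (hε : 0 < ε) (hC : 0 ≤ CU) (hK : 0 ≤ K) (hD0 : 0 ≤ D)
    (hD : D ≤ K * R) (hρ0 : 0 ≤ ρ) (hρ : ρ ≤ R) (hR : 1 ≤ R)
    (hh : h ≤ CU * D ^ (1 / 2 + ε / 2) * (6 * ρ) ^ (ε / 2)) :
    1 + h ≤ (1 + CU * K ^ (1 / 2 + ε / 2) * 6 ^ (ε / 2)) * R ^ (1 / 2 + ε) := by
  have hR0 : 0 < R := by linarith
  have h1 : D ^ (1 / 2 + ε / 2) ≤ K ^ (1 / 2 + ε / 2) * R ^ (1 / 2 + ε / 2) := by
    rw [← Real.mul_rpow hK hR0.le]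
    exact Real.rpow_le_rpow hD0 hD (by linarith)
  have h2 : (6 * ρ) ^ (ε / 2) ≤ 6 ^ (ε / 2) * R ^ (ε / 2) := by
    rw [← Real.mul_rpow (by norm_num) hR0.le]
    exact Real.rpow_le_rpow (by linarith) (by linarith) (by linarith)
  have h3 : R ^ (1 / 2 + ε) = R ^ (1 / 2 + ε / 2) * R ^ (ε / 2) := by
    rw [← Real.rpow_add hR0]; congr 1; ring
  have h4 : 1 ≤ R ^ (1 / 2 + ε) := Real.one_le_rpow hR (by linarith)
  have h5 : CU * D ^ (1 / 2 + ε / 2) * (6 * ρ) ^ (ε / 2) ≤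
      CU * (K ^ (1 / 2 + ε / 2) * R ^ (1 / 2 + ε / 2)) * (6 ^ (ε / 2) * R ^ (ε / 2)) :=
    mul_le_mul (mul_le_mul_of_nonneg_left h1 hC) h2 (by positivity) (by positivity)
  have h6 : CU * (K ^ (1 / 2 + ε / 2) * R ^ (1 / 2 + ε / 2)) * (6 ^ (ε / 2) * R ^ (ε / 2)) =
      CU * K ^ (1 / 2 + ε / 2) * 6 ^ (ε / 2) * R ^ (1 / 2 + ε) := by
    rw [h3]; ring
  rw [add_mul, one_mul]
  linarith

theorem lam {M : Type} [Field M] [NumberField M] (hUN : RowUN) {x y : ℤ} {a b c : M}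
    (h : Rt x y a b c) (hk : x ^ 3 ≠ y ^ 2) :
    (a - c) / (b - c) ≠ 0 ∧ Un (6 * rd (x ^ 3 - y ^ 2).natAbs) ((a - c) / (b - c)) ∧
      (a - c) / (b - c) ≠ 1 ∧ Un (6 * rd (x ^ 3 - y ^ 2).natAbs) ((a - c) / (b - c) - 1) := by
  obtain ⟨hab, uab⟩ := hUN.dif M x y a b c h hk
  obtain ⟨hac, uac⟩ := hUN.dif M x y a c b (rt_swap h) hk
  obtain ⟨hbc, ubc⟩ := hUN.dif M x y b c a (rt_rot h) hk
  have hbc' : b - c ≠ 0 := sub_ne_zero.2 hbc
  have e : (a - c) / (b - c) - 1 = (a - b) / (b - c) := by field_simp; ring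
  refine ⟨div_ne_zero (sub_ne_zero.2 hac) hbc', un_div uac ubc, ?_, e ▸ un_div uab ubc⟩
  intro h1
  rw [h1, sub_self] at e
  exact div_ne_zero (sub_ne_zero.2 hab) hbc' e.symm

theorem ratio {M : Type} [Field M] [NumberField M] {x y : ℤ} {a b c : M}
    (h : Rt x y a b c) (hab : a ≠ b) (hbc : b ≠ c) :
    ((a - c) / (b - c)) ^ 2 = ((a ^ 2 - x) * (b ^ 2 - x) ^ (-1 : ℤ)) ^ 2 := by
  obtain ⟨h1, h2, -⟩ := h
  have e1 : a ^ 2 - x = (a - b) * (a - c) / 3 := by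
    linear_combination (2 / 3 * a) * h1 - (1 / 3) * h2
  have e2 : b ^ 2 - x = (b - a) * (b - c) / 3 := by
    linear_combination (2 / 3 * b) * h1 - (1 / 3) * h2
  have h3 : b - a ≠ 0 := sub_ne_zero.2 hab.symm
  have h4 : b - c ≠ 0 := sub_ne_zero.2 hbc
  rw [e1, e2, zpow_neg_one]
  field_simp
  ring

end PAIR

open PAIR in
theorem rowPAIR : RowUNIF → RowD3 → RowD2 → RowF3 → RowHT → RowUN → RowPAIR := by
  intro hU hD3 hD2 hF3 hHT hUN ε hε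
  obtain ⟨CU, hCU, hU⟩ := hU 9 (ε / 2) (by linarith)
  obtain ⟨C3, hD3⟩ := hD3
  obtain ⟨CH, hCH, hHT⟩ := hHT 9
  refine ⟨CH * (1 + CU * ((C3 : ℝ) + 24) ^ (1 / 2 + ε / 2) * 6 ^ (ε / 2)), by positivity, ?_⟩
  intro x y hk
  have hρ1 : 1 ≤ rd (x ^ 3 - y ^ 2).natAbs := rd_pos _
  have hg1 : 1 ≤ rd (Int.gcd x y) := rd_pos _
  have hρR : rd (x ^ 3 - y ^ 2).natAbs ≤ rd (x ^ 3 - y ^ 2).natAbs * rd (Int.gcd x y) :=
    Nat.le_mul_of_pos_right _ hg1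
  have hr : 6 * rd (x ^ 3 - y ^ 2).natAbs ≠ 0 := by omega
  have key : ∀ (L : Type) [Field L] [NumberField L] (h : ℝ),
      (discr L).natAbs ≤ (C3 + 24) * (rd (x ^ 3 - y ^ 2).natAbs * rd (Int.gcd x y)) →
      h ≤ CU * |(discr L : ℝ)| ^ (1 / 2 + ε / 2) *
        ((6 * rd (x ^ 3 - y ^ 2).natAbs : ℕ) : ℝ) ^ (ε / 2) →
      CH * (1 + h) ≤ CH * (1 + CU * ((C3 : ℝ) + 24) ^ (1 / 2 + ε / 2) * 6 ^ (ε / 2)) *
        ((rd (x ^ 3 - y ^ 2).natAbs * rd (Int.gcd x y) : ℕ) : ℝ) ^ (1 / 2 + ε) := by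
    intro L _ _ h hd hh
    rw [mul_assoc]
    refine mul_le_mul_of_nonneg_left ?_ hCH
    refine fin CU _ ε |(discr L : ℝ)| _ (rd (x ^ 3 - y ^ 2).natAbs : ℝ) h hε hCU (by positivity)
      (abs_nonneg _) ?_ (by positivity) (by exact_mod_cast hρR)
      (by exact_mod_cast hρ1.trans hρR) (by exact_mod_cast hh)
    have e : |(discr L : ℝ)| = ((discr L).natAbs : ℝ) := by
      rw [Nat.cast_natAbs, Int.cast_abs]
    rw [e]
    exact_mod_cast hd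
  by_cases hq : ∀ q : ℚ, q ^ 3 - 3 * x * q + 2 * y ≠ 0
  · obtain ⟨L, M, _, _, _, _, σ₁, σ₂, e, c, hL, hM, he, hrt⟩ := hF3 x y hq
    obtain ⟨-, -, h1, u1⟩ := lam hUN hrt hk
    obtain ⟨hδ, uδ⟩ := hUN.der L x y e he hk
    have hirr : ∀ q : ℚ, e ≠ q := by
      intro q hq'
      apply hq q
      rw [hq'] at he
      exact_mod_cast he
    have hsq := ratio hrt (hUN.dif M x y _ _ _ hrt hk).1 (hUN.dif M x y _ _ _ (rt_rot hrt) hk).1
    have hh := hU L M σ₁ σ₂ (-1) (e ^ 2 - x) _ _ (by omega) hM (by norm_num) hr hδ uδ h1 u1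
      (by rw [hsq]; simp)
    have hd := (hD3 L e x y hL he hirr hk).trans
      (Nat.mul_le_mul_right _ (Nat.le_add_right C3 24))
    have := key L _ hd hh
    have := hHT M x y _ _ _ hM hrt hk
    linarith
  · push Not at hq
    obtain ⟨q, hq⟩ := hq
    obtain ⟨M, _, _, a, b, c, hrt, hM, hd⟩ := hD2 x y q hq hk
    obtain ⟨h0, u0, h1, u1⟩ := lam hUN hrt hk
    have hh := hU M M (RingHom.id M) (RingHom.id M) 0 _ _ _ (by omega) (by omega) (by norm_num) hr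
      h0 u0 h1 u1 (by simp)
    have hd' : (discr M).natAbs ≤
        (C3 + 24) * (rd (x ^ 3 - y ^ 2).natAbs * rd (Int.gcd x y)) :=
      hd.trans (Nat.mul_le_mul (Nat.le_add_left 24 C3) hρR)
    have := key M _ hd' hh
    have := hHT M x y _ _ _ (by omega) hrt hk
    linarith

end Pool.Agent.MP_542436_nt.SZ
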