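import Mathlib

/-! Statements of the pieces: a unit equation uniform in the field, and elliptic curves. -/

set_option autoImplicit false

namespace Pool.Agent.MP_542436_nt.SZ

open NumberField IsDedekindDomain

/-- a unit away from the primes of `r` -/
def Un {F : Type} [Field F] [NumberField F] (r : ℕ) (z : F) : Prop :=
  ∀ p : HeightOneSpectrum (𝓞 F), FinitePlace.mk p (r : F) = 1 → FinitePlace.mk p z = 1

/-- the product of the primes -/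
def rd (n : ℕ) : ℕ := ∏ p ∈ n.primeFactors, p

/-- the three roots of `X ^ 3 - 3 x X + 2 y` -/
def Rt {M : Type} [Field M] (x y : ℤ) (a b c : M) : Prop :=
  a + b + c = 0 ∧ a * b + a * c + b * c = -3 * x ∧ a * b * c = -2 * y

/-- the unit equation, uniformly in fields of bounded degree -/
def RowUNIF : Prop :=
  ∀ (d : ℕ) (ε : ℝ), 0 < ε → ∃ C : ℝ, 0 ≤ C ∧ ∀ (L M : Type) [Field L] [NumberField L] [Field M]
    [NumberField M] (σ₁ σ₂ : L →+* M) (c : ℤ) (δ : L) (x : M) (r : ℕ),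
    Module.finrank ℚ L ≤ d → Module.finrank ℚ M ≤ d → |c| ≤ 1 → r ≠ 0 → δ ≠ 0 → Un r δ →
    x ≠ 1 → Un r (x - 1) → x ^ 2 = (σ₁ δ * σ₂ δ ^ c) ^ 2 →
    Height.logHeight₁ x ≤ C * |(discr L : ℝ)| ^ (1 / 2 + ε) * (r : ℝ) ^ ε

/-- the discriminant of the cubic field -/
def RowD3 : Prop :=
  ∃ C : ℕ, ∀ (L : Type) [Field L] [NumberField L] (e : L) (x y : ℤ), Module.finrank ℚ L = 3 →
    e ^ 3 - 3 * x * e + 2 * y = 0 → (∀ q : ℚ, e ≠ q) → x ^ 3 ≠ y ^ 2 →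
    (discr L).natAbs ≤ C * (rd (x ^ 3 - y ^ 2).natAbs * rd (Int.gcd x y))

/-- a small field that contains the roots, when one root is rational -/
def RowD2 : Prop :=
  ∀ (x y : ℤ) (q : ℚ), q ^ 3 - 3 * x * q + 2 * y = 0 → x ^ 3 ≠ y ^ 2 →
    ∃ (M : Type) (_ : Field M) (_ : NumberField M) (a b c : M), Rt x y a b c ∧
      Module.finrank ℚ M ≤ 2 ∧ (discr M).natAbs ≤ 24 * rd (x ^ 3 - y ^ 2).natAbs

/-- the fields, when no root is rational -/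
def RowF3 : Prop :=
  ∀ x y : ℤ, (∀ q : ℚ, q ^ 3 - 3 * x * q + 2 * y ≠ 0) →
    ∃ (L M : Type) (_ : Field L) (_ : NumberField L) (_ : Field M) (_ : NumberField M)
      (σ₁ σ₂ : L →+* M) (e : L) (c : M), Module.finrank ℚ L = 3 ∧ Module.finrank ℚ M ≤ 9 ∧
      e ^ 3 - 3 * x * e + 2 * y = 0 ∧ Rt x y (σ₁ e) (σ₂ e) c

/-- the height of the invariant in terms of the cross ratio -/
def RowHT : Prop :=
  ∀ d : ℕ, ∃ C : ℝ, 0 ≤ C ∧ ∀ (M : Type) [Field M] [NumberField M] (x y : ℤ) (a b c : M),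
    Module.finrank ℚ M ≤ d → Rt x y a b c → x ^ 3 ≠ y ^ 2 →
    Real.log ((max (|x| ^ 3) (y ^ 2) : ℤ) : ℝ) ≤ Real.log (Int.gcd (x ^ 3) (y ^ 2) : ℝ) +
      C * (1 + Height.logHeight₁ ((a - c) / (b - c)))

/-- the differences of the roots are units -/
structure RowUN : Prop where
  dif : ∀ (M : Type) [Field M] [NumberField M] (x y : ℤ) (a b c : M), Rt x y a b c →
    x ^ 3 ≠ y ^ 2 → a ≠ b ∧ Un (6 * rd (x ^ 3 - y ^ 2).natAbs) (a - b)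
  der : ∀ (L : Type) [Field L] [NumberField L] (x y : ℤ) (e : L),
    e ^ 3 - 3 * x * e + 2 * y = 0 → x ^ 3 ≠ y ^ 2 →
    e ^ 2 - x ≠ 0 ∧ Un (6 * rd (x ^ 3 - y ^ 2).natAbs) (e ^ 2 - x)

/-- the bound for pairs of integers -/
def RowPAIR : Prop :=
  ∀ ε : ℝ, 0 < ε → ∃ C : ℝ, 0 ≤ C ∧ ∀ x y : ℤ, x ^ 3 ≠ y ^ 2 →
    Real.log ((max (|x| ^ 3) (y ^ 2) : ℤ) : ℝ) ≤ Real.log (Int.gcd (x ^ 3) (y ^ 2) : ℝ) +
      C * ((rd (x ^ 3 - y ^ 2).natAbs * rd (Int.gcd x y) : ℕ) : ℝ) ^ (1 / 2 + ε)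

/-- the theorem -/
def RowSZ : Prop :=
  ∀ ε : ℝ, 0 < ε → ∃ C : ℝ, ∀ W : WeierstrassCurve ℤ, W.Δ ≠ 0 →
    (∀ (W' : WeierstrassCurve ℤ) (T : WeierstrassCurve.VariableChange ℚ),
      W'.map (Int.castRingHom ℚ) = T • W.map (Int.castRingHom ℚ) → |W.Δ| ≤ |W'.Δ|) →
    Real.log ((max (|W.c₄| ^ 3) (W.c₆ ^ 2) : ℤ) : ℝ) ≤
      C * (∏ p ∈ W.Δ.natAbs.primeFactors,
        if (p : ℤ) ∣ W.c₄ then (p : ℝ) ^ 2 else (p : ℝ)) ^ (1 / 2 + ε)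

end Pool.Agent.MP_542436_nt.SZ
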