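import Mathlib
import Pool.Agent.MP_542436_nt.SZ.Spec

/-! From pairs of integers to minimal models. -/

set_option autoImplicit false
set_option linter.dupNamespace false

namespace Pool.Agent.MP_542436_nt.SZ.SZ

open Finset

/-- a minimal model has no `u > 6` with `u ^ 4 ∣ c₄` and `u ^ 6 ∣ c₆` -/
theorem min_le (W : WeierstrassCurve ℤ) (hΔ : W.Δ ≠ 0)
    (hmin : ∀ (W' : WeierstrassCurve ℤ) (T : WeierstrassCurve.VariableChange ℚ),
      W'.map (Int.castRingHom ℚ) = T • W.map (Int.castRingHom ℚ) → |W.Δ| ≤ |W'.Δ|)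
    (u X Y : ℤ) (hu : 0 < u) (h4 : W.c₄ = u ^ 4 * X) (h6 : W.c₆ = u ^ 6 * Y) : u ≤ 6 := by
  have hu0 : ((u : ℚ) / 6) ≠ 0 := by
    have : (u : ℚ) ≠ 0 := by exact_mod_cast hu.ne'
    positivity
  have huq : (u : ℚ) ≠ 0 := by exact_mod_cast hu.ne'
  let W' : WeierstrassCurve ℤ := ⟨0, 0, 0, -27 * X, -54 * Y⟩
  let r : ℚ := -((W.a₁ : ℚ) ^ 2 + 4 * W.a₂) / 12
  let T : WeierstrassCurve.VariableChange ℚ :=
    ⟨Units.mk0 _ hu0, r, -(W.a₁ : ℚ) / 2, -((W.a₃ : ℚ) + W.a₁ * r) / 2⟩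
  have h4q : (X : ℚ) = (W.c₄ : ℚ) / (u : ℚ) ^ 4 := by
    rw [h4]; push_cast; field_simp
  have h6q : (Y : ℚ) = (W.c₆ : ℚ) / (u : ℚ) ^ 6 := by
    rw [h6]; push_cast; field_simp
  have hT : W'.map (Int.castRingHom ℚ) = T • W.map (Int.castRingHom ℚ) := by
    ext
    · simp [W', T, WeierstrassCurve.variableChange_a₁]
      ring_nf
      simp
    · simp [W', T, r, WeierstrassCurve.variableChange_a₂]
      ring_nf
      simp
    · simp [W', T, WeierstrassCurve.variableChange_a₃]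
      ring_nf
      simp
    · simp only [W', T, r, WeierstrassCurve.variableChange_a₄, WeierstrassCurve.map_a₁,
        WeierstrassCurve.map_a₂, WeierstrassCurve.map_a₃, WeierstrassCurve.map_a₄,
        eq_intCast, Units.val_inv_eq_inv_val, Units.val_mk0]
      push_cast
      rw [h4q]
      simp only [WeierstrassCurve.c₄, WeierstrassCurve.b₂, WeierstrassCurve.b₄]
      push_cast
      field_simp
      ring
    · simp only [W', T, r, WeierstrassCurve.variableChange_a₆, WeierstrassCurve.map_a₁,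
        WeierstrassCurve.map_a₂, WeierstrassCurve.map_a₃, WeierstrassCurve.map_a₄,
        WeierstrassCurve.map_a₆, eq_intCast, Units.val_inv_eq_inv_val, Units.val_mk0]
      push_cast
      rw [h6q]
      simp only [WeierstrassCurve.c₆, WeierstrassCurve.b₂, WeierstrassCurve.b₄,
        WeierstrassCurve.b₆]
      push_cast
      field_simp
      ring
  have hle := hmin W' T hT
  have hΔ' : W'.Δ = 1259712 * (X ^ 3 - Y ^ 2) := by
    simp only [W', WeierstrassCurve.Δ, WeierstrassCurve.b₂, WeierstrassCurve.b₄,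
      WeierstrassCurve.b₆, WeierstrassCurve.b₈]
    ring
  have hc := W.c_relation
  have hk : 1728 * W.Δ = u ^ 12 * (X ^ 3 - Y ^ 2) := by
    rw [hc, h4, h6]; ring
  have hK : 0 < |X ^ 3 - Y ^ 2| := by
    rw [abs_pos]
    intro h0
    rw [h0] at hk
    omega
  have h1 : 1728 * |W.Δ| = u ^ 12 * |X ^ 3 - Y ^ 2| := by
    have := congrArg abs hk
    rwa [abs_mul, abs_mul, abs_of_pos (pow_pos hu 12), abs_of_pos (by norm_num : (0 : ℤ) < 1728)]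
      at this
  rw [hΔ', abs_mul, abs_of_pos (by norm_num : (0 : ℤ) < 1259712)] at hle
  have h2 : u ^ 12 * |X ^ 3 - Y ^ 2| ≤ 6 ^ 12 * |X ^ 3 - Y ^ 2| := by
    rw [← h1]; linarith
  have h3 : u ^ 12 ≤ 6 ^ 12 := le_of_mul_le_mul_right h2 hK
  exact le_of_pow_le_pow_left₀ (by norm_num : (12 : ℕ) ≠ 0) (by norm_num) h3

theorem prod_le_six (s t : Finset ℕ) (ht : ∀ p ∈ t, 0 < p) (h : s ⊆ {2, 3} ∪ t) :
    ∏ p ∈ s, p ≤ 6 * ∏ p ∈ t, p := by
  have h1 : (∏ p ∈ s, p) ∣ ∏ p ∈ ({2, 3} ∪ t : Finset ℕ), p :=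
    Finset.prod_dvd_prod_of_subset _ _ _ h
  have h2 : (∏ p ∈ ({2, 3} ∪ t : Finset ℕ), p) ∣ 6 * ∏ p ∈ t, p := by
    have := Finset.prod_union_inter (s₁ := ({2, 3} : Finset ℕ)) (s₂ := t) (f := fun p => p)
    have h6 : ∏ p ∈ ({2, 3} : Finset ℕ), p = 6 := by decide
    rw [h6] at this
    exact Dvd.intro _ this
  exact Nat.le_of_dvd (Nat.mul_pos (by norm_num) (Finset.prod_pos ht)) (h1.trans h2)

theorem prime_dvd_1728 {p : ℕ} (hp : p.Prime) (h : p ∣ 1728) : p = 2 ∨ p = 3 := by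
  have h' : p ∣ 2 ^ 6 * 3 ^ 3 := by norm_num; exact h
  rcases (Nat.Prime.dvd_mul hp).1 h' with h2 | h3
  · exact Or.inl ((Nat.prime_dvd_prime_iff_eq hp Nat.prime_two).1 (hp.dvd_of_dvd_pow h2))
  · exact Or.inr ((Nat.prime_dvd_prime_iff_eq hp Nat.prime_three).1 (hp.dvd_of_dvd_pow h3))

theorem rd_pos (n : ℕ) : 0 < rd n :=
  Finset.prod_pos fun _ hp => (Nat.prime_of_mem_primeFactors hp).pos

/-- the two radicals against the product of the statement -/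
theorem rd_le (x y D : ℤ) (hD : D ≠ 0) (h : 1728 * D = x ^ 3 - y ^ 2) :
    rd (x ^ 3 - y ^ 2).natAbs * rd (Int.gcd x y) ≤
      36 * ∏ p ∈ D.natAbs.primeFactors, (if (p : ℤ) ∣ x then p ^ 2 else p) := by
  have hD' : D.natAbs ≠ 0 := Int.natAbs_ne_zero.2 hD
  have key : ∀ p : ℕ, p.Prime → (p : ℤ) ∣ x ^ 3 - y ^ 2 → p = 2 ∨ p = 3 ∨ p ∣ D.natAbs := by
    intro p hp hd
    rw [← h] at hd
    have h1 : p ∣ 1728 * D.natAbs := by
      have := Int.natAbs_dvd_natAbs.2 hd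
      simpa [Int.natAbs_mul] using this
    rcases (Nat.Prime.dvd_mul hp).1 h1 with h2 | h2
    · rcases prime_dvd_1728 hp h2 with h3 | h3
      · exact Or.inl h3
      · exact Or.inr (Or.inl h3)
    · exact Or.inr (Or.inr h2)
  have h1 : rd (x ^ 3 - y ^ 2).natAbs ≤ 6 * ∏ p ∈ D.natAbs.primeFactors, p := by
    refine prod_le_six _ _ (fun p hp => (Nat.prime_of_mem_primeFactors hp).pos) ?_
    intro p hp
    have hpp := Nat.prime_of_mem_primeFactors hp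
    have hd : (p : ℤ) ∣ x ^ 3 - y ^ 2 := Int.natCast_dvd.2 (Nat.dvd_of_mem_primeFactors hp)
    rcases key p hpp hd with h2 | h2 | h2
    · simp [h2]
    · simp [h2]
    · exact Finset.mem_union_right _ (Nat.mem_primeFactors.2 ⟨hpp, h2, hD'⟩)
  have h2 : rd (Int.gcd x y) ≤
      6 * ∏ p ∈ D.natAbs.primeFactors.filter (fun p : ℕ => (p : ℤ) ∣ x), p := by
    refine prod_le_six _ _
      (fun p hp => (Nat.prime_of_mem_primeFactors (Finset.mem_filter.1 hp).1).pos) ?_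
    intro p hp
    have hpp := Nat.prime_of_mem_primeFactors hp
    have hg : (p : ℤ) ∣ (Int.gcd x y : ℤ) :=
      Int.natCast_dvd_natCast.2 (Nat.dvd_of_mem_primeFactors hp)
    have hx : (p : ℤ) ∣ x := hg.trans (Int.gcd_dvd_left x y)
    have hy : (p : ℤ) ∣ y := hg.trans (Int.gcd_dvd_right x y)
    have hd : (p : ℤ) ∣ x ^ 3 - y ^ 2 :=
      dvd_sub (dvd_pow hx (by norm_num)) (dvd_pow hy (by norm_num))
    rcases key p hpp hd with h2 | h2 | h2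
    · simp [h2]
    · simp [h2]
    · exact Finset.mem_union_right _
        (Finset.mem_filter.2 ⟨Nat.mem_primeFactors.2 ⟨hpp, h2, hD'⟩, hx⟩)
  have h3 : ∏ p ∈ D.natAbs.primeFactors, (if (p : ℤ) ∣ x then p ^ 2 else p) =
      (∏ p ∈ D.natAbs.primeFactors, p) *
        ∏ p ∈ D.natAbs.primeFactors.filter (fun p : ℕ => (p : ℤ) ∣ x), p := by
    rw [Finset.prod_filter, ← Finset.prod_mul_distrib]
    refine Finset.prod_congr rfl fun p _ => ?_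
    split_ifs
    · ring
    · ring
  rw [h3]
  calc _ ≤ (6 * ∏ p ∈ D.natAbs.primeFactors, p) *
        (6 * ∏ p ∈ D.natAbs.primeFactors.filter (fun p : ℕ => (p : ℤ) ∣ x), p) :=
        Nat.mul_le_mul h1 h2
    _ = _ := by ring

/-- the common divisor is bounded by a power of the radical -/
theorem gcd_le (x y : ℤ) (hxy : x ^ 3 ≠ y ^ 2)
    (h : ∀ p : ℕ, p.Prime → (p : ℤ) ^ 12 ∣ x → (p : ℤ) ^ 18 ∣ y → False) :
    Int.gcd (x ^ 3) (y ^ 2) ≤ rd (Int.gcd x y) ^ 35 := by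
  have hg0 : Int.gcd (x ^ 3) (y ^ 2) ≠ 0 := by
    intro h0
    obtain ⟨h1, h2⟩ := Int.gcd_eq_zero_iff.1 h0
    exact hxy (h1.trans h2.symm)
  have hg1 : Int.gcd x y ≠ 0 := by
    intro h0
    obtain ⟨h1, h2⟩ := Int.gcd_eq_zero_iff.1 h0
    apply hxy
    rw [h1, h2]; norm_num
  have hR := rd_pos (Int.gcd x y)
  refine Nat.le_of_dvd (pow_pos hR _) ?_
  rw [Nat.dvd_iff_prime_pow_dvd_dvd]
  intro p k hp hk
  have hkx : (p : ℤ) ^ k ∣ x ^ 3 := by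
    have : ((p ^ k : ℕ) : ℤ) ∣ (Int.gcd (x ^ 3) (y ^ 2) : ℤ) := Int.natCast_dvd_natCast.2 hk
    push_cast at this
    exact this.trans (Int.gcd_dvd_left _ _)
  have hky : (p : ℤ) ^ k ∣ y ^ 2 := by
    have : ((p ^ k : ℕ) : ℤ) ∣ (Int.gcd (x ^ 3) (y ^ 2) : ℤ) := Int.natCast_dvd_natCast.2 hk
    push_cast at this
    exact this.trans (Int.gcd_dvd_right _ _)
  have hk35 : k ≤ 35 := by
    by_contra hlt
    have hlt' : 36 ≤ k := by omega
    refine h p hp ?_ ?_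
    · have h1 : ((p : ℤ) ^ 12) ^ 3 ∣ x ^ 3 := by
        rw [← pow_mul]; exact (pow_dvd_pow _ hlt').trans hkx
      exact (Int.pow_dvd_pow_iff (by norm_num)).1 h1
    · have h1 : ((p : ℤ) ^ 18) ^ 2 ∣ y ^ 2 := by
        rw [← pow_mul]; exact (pow_dvd_pow _ hlt').trans hky
      exact (Int.pow_dvd_pow_iff (by norm_num)).1 h1
  rcases Nat.eq_zero_or_pos k with rfl | hk0
  · simp
  have hpi : Prime (p : ℤ) := Nat.prime_iff_prime_int.1 hp
  have hx : (p : ℤ) ∣ x := hpi.dvd_of_dvd_pow ((dvd_pow_self _ hk0.ne').trans hkx)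
  have hy : (p : ℤ) ∣ y := hpi.dvd_of_dvd_pow ((dvd_pow_self _ hk0.ne').trans hky)
  have hg : p ∣ Int.gcd x y := Int.natCast_dvd_natCast.1 (Int.dvd_coe_gcd hx hy)
  have hr : p ∣ rd (Int.gcd x y) :=
    Finset.dvd_prod_of_mem (fun q : ℕ => q) (Nat.mem_primeFactors.2 ⟨hp, hg, hg1⟩)
  exact (pow_dvd_pow p hk35).trans (pow_dvd_pow_of_dvd hr 35)

end Pool.Agent.MP_542436_nt.SZ.SZ

namespace Pool.Agent.MP_542436_nt.SZ

theorem rowSZ : RowPAIR → RowSZ := by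
  intro hP ε hε
  obtain ⟨C, hC0, hC⟩ := hP ε hε
  refine ⟨(70 + C) * (36 : ℝ) ^ (1 / 2 + ε), fun W hΔ hmin => ?_⟩
  have hc := W.c_relation
  have hxy : W.c₄ ^ 3 ≠ W.c₆ ^ 2 := by
    intro h0
    rw [h0, sub_self] at hc
    omega
  have h1 := hC W.c₄ W.c₆ hxy
  have h2 := SZ.rd_le W.c₄ W.c₆ W.Δ hΔ hc
  have h3 := SZ.gcd_le W.c₄ W.c₆ hxy (by
    intro p hp h12 h18
    obtain ⟨X, hX⟩ := h12
    obtain ⟨Y, hY⟩ := h18
    have hp2 : (2 : ℤ) ≤ p := by exact_mod_cast hp.two_le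
    have := SZ.min_le W hΔ hmin ((p : ℤ) ^ 3) X Y (by positivity)
      (by rw [hX]; ring) (by rw [hY]; ring)
    have h8 : (2 : ℤ) ^ 3 ≤ (p : ℤ) ^ 3 := pow_le_pow_left₀ (by norm_num) hp2 3
    omega)
  have hs : (0 : ℝ) < 1 / 2 + ε := by linarith
  set R : ℕ := rd (Int.gcd W.c₄ W.c₆) with hRdef
  set K : ℕ := rd (W.c₄ ^ 3 - W.c₆ ^ 2).natAbs with hKdef
  have hR : 0 < R := SZ.rd_pos _
  have hK : 0 < K := SZ.rd_pos _
  have hcast : ((∏ p ∈ W.Δ.natAbs.primeFactors, (if (p : ℤ) ∣ W.c₄ then p ^ 2 else p) : ℕ) : ℝ) =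
      ∏ p ∈ W.Δ.natAbs.primeFactors, (if (p : ℤ) ∣ W.c₄ then (p : ℝ) ^ 2 else (p : ℝ)) := by
    rw [Nat.cast_prod]
    refine Finset.prod_congr rfl fun p _ => ?_
    split_ifs
    · push_cast; rfl
    · rfl
  rw [← hcast]
  set N : ℕ := ∏ p ∈ W.Δ.natAbs.primeFactors, (if (p : ℤ) ∣ W.c₄ then p ^ 2 else p) with hN
  have h4 : ((K * R : ℕ) : ℝ) ≤ 36 * (N : ℝ) := by exact_mod_cast h2
  have h5 : ((K * R : ℕ) : ℝ) ^ (1 / 2 + ε) ≤ (36 : ℝ) ^ (1 / 2 + ε) * (N : ℝ) ^ (1 / 2 + ε) := by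
    rw [← Real.mul_rpow (by norm_num) (Nat.cast_nonneg _)]
    exact Real.rpow_le_rpow (Nat.cast_nonneg _) h4 hs.le
  have h6 : (R : ℝ) ≤ ((K * R : ℕ) : ℝ) := by
    exact_mod_cast Nat.le_mul_of_pos_left R hK
  have h7 : (R : ℝ) ^ (1 / 2 + ε) ≤ ((K * R : ℕ) : ℝ) ^ (1 / 2 + ε) :=
    Real.rpow_le_rpow (Nat.cast_nonneg _) h6 hs.le
  have h8 : Real.log (R : ℝ) ≤ 2 * (R : ℝ) ^ (1 / 2 + ε) := by
    have h9 := Real.log_le_rpow_div (Nat.cast_nonneg R) hs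
    have h10 : (0 : ℝ) ≤ (R : ℝ) ^ (1 / 2 + ε) := Real.rpow_nonneg (Nat.cast_nonneg _) _
    refine h9.trans ?_
    rw [div_le_iff₀ hs]
    nlinarith
  have hg0 : 0 < Int.gcd (W.c₄ ^ 3) (W.c₆ ^ 2) := by
    refine Nat.pos_of_ne_zero fun h0 => ?_
    obtain ⟨a1, a2⟩ := Int.gcd_eq_zero_iff.1 h0
    exact hxy (a1.trans a2.symm)
  have h11 : Real.log (Int.gcd (W.c₄ ^ 3) (W.c₆ ^ 2) : ℝ) ≤ 35 * Real.log (R : ℝ) := by
    have a1 : ((Int.gcd (W.c₄ ^ 3) (W.c₆ ^ 2) : ℕ) : ℝ) ≤ (R : ℝ) ^ 35 := by exact_mod_cast h3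
    have a2 : (0 : ℝ) < ((Int.gcd (W.c₄ ^ 3) (W.c₆ ^ 2) : ℕ) : ℝ) := by exact_mod_cast hg0
    have a3 := Real.log_le_log a2 a1
    rw [Real.log_pow] at a3
    exact_mod_cast a3
  have h12 : (70 + C) * ((K * R : ℕ) : ℝ) ^ (1 / 2 + ε) ≤
      (70 + C) * ((36 : ℝ) ^ (1 / 2 + ε) * (N : ℝ) ^ (1 / 2 + ε)) :=
    mul_le_mul_of_nonneg_left h5 (by linarith)
  rw [mul_assoc]
  linarith

end Pool.Agent.MP_542436_nt.SZ
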