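import Pool.Agent.MP_542436_nt.SZ.Spec

set_option autoImplicit false

namespace Pool.Agent.MP_542436_nt.SZ

open NumberField Polynomial

namespace D2

theorem int_root (x y : ℤ) (q : ℚ) (h : q ^ 3 - 3 * x * q + 2 * y = 0) : ∃ r : ℤ, (r : ℚ) = q := by
  have hi : IsIntegral ℤ q := by
    refine ⟨X ^ 3 - C (3 * x) * X + C (2 * y), ?_, ?_⟩
    · monicity!
    · simp only [eval₂_add, eval₂_sub, eval₂_mul, eval₂_pow, eval₂_X, eval₂_C]
      simpa using h
  obtain ⟨r, hr⟩ := IsIntegrallyClosed.isIntegral_iff.mp hi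
  exact ⟨r, hr⟩

theorem rd_pos (n : ℕ) : 1 ≤ rd n :=
  Finset.prod_pos (fun _ hp => (Nat.prime_of_mem_primeFactors hp).pos)

theorem sqf_le (s k : ℕ) (hs : Squarefree s) (hk : k ≠ 0) (h : s ∣ 12 * k) : s ≤ 6 * rd k := by
  have h1 : s.primeFactors ⊆ ({2, 3} : Finset ℕ) ∪ k.primeFactors := by
    intro p hp
    have hpp := Nat.prime_of_mem_primeFactors hp
    have hd : p ∣ 12 * k := (Nat.dvd_of_mem_primeFactors hp).trans h
    rcases (Nat.Prime.dvd_mul hpp).1 hd with h12 | hpk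
    · have h4 : p ∣ 2 ^ 2 * 3 := by simpa using h12
      rcases (Nat.Prime.dvd_mul hpp).1 h4 with h2 | h3
      · have := (Nat.prime_dvd_prime_iff_eq hpp Nat.prime_two).1 (hpp.dvd_of_dvd_pow h2)
        simp [this]
      · have := (Nat.prime_dvd_prime_iff_eq hpp Nat.prime_three).1 h3
        simp [this]
    · exact Finset.mem_union_right _ (Nat.mem_primeFactors.2 ⟨hpp, hpk, hk⟩)
  have h2 : s ∣ ∏ p ∈ ({2, 3} : Finset ℕ) ∪ k.primeFactors, p := by
    conv_lhs => rw [← Nat.prod_primeFactors_of_squarefree hs]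
    exact Finset.prod_dvd_prod_of_subset _ _ _ h1
  have h3 : (∏ p ∈ ({2, 3} : Finset ℕ) ∪ k.primeFactors, p) ∣ 6 * rd k := by
    have := Finset.prod_union_inter (s₁ := ({2, 3} : Finset ℕ)) (s₂ := k.primeFactors)
      (f := fun p => p)
    have e : (∏ p ∈ ({2, 3} : Finset ℕ), p) = 6 := by decide
    rw [e] at this
    exact ⟨_, this.symm⟩
  exact Nat.le_of_dvd (by have := rd_pos k; omega) (h2.trans h3)

theorem discr_le (M : Type) [Field M] [NumberField M] (hM : Module.finrank ℚ M = 2) (s : ℤ)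
    (hs0 : s ≠ 0) (θ : M) (hθ : θ ^ 2 = s) (htr : Algebra.trace ℚ M θ = 0) :
    (discr M).natAbs ≤ 4 * s.natAbs := by
  have hi : IsIntegral ℤ θ := by
    refine ⟨X ^ 2 - C s, ?_, ?_⟩
    · monicity!
    · simp only [eval₂_sub, eval₂_pow, eval₂_X, eval₂_C]
      simp [hθ]
  let t : 𝓞 M := ⟨θ, hi⟩
  have hr : Module.finrank ℤ (𝓞 M) = 2 := by rw [RingOfIntegers.rank, hM]
  let b : Module.Basis (Fin 2) ℤ (𝓞 M) := Module.finBasisOfFinrankEq ℤ (𝓞 M) hr
  let v : Fin 2 → 𝓞 M := ![1, t]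
  have h1 : Algebra.discr ℤ v = (b.toMatrix v).det ^ 2 * discr M := by
    rw [← discr_eq_discr M b, ← Algebra.discr_of_matrix_vecMul, Module.Basis.toMatrix_map_vecMul]
  have t1 : Algebra.trace ℤ (𝓞 M) 1 = 2 := by
    have := Algebra.trace_algebraMap (R := ℤ) (S := 𝓞 M) 1
    rw [map_one, hr] at this
    simpa using this
  have t2 : Algebra.trace ℤ (𝓞 M) t = 0 := by
    have := Algebra.coe_trace_int t
    have e : ((t : 𝓞 M) : M) = θ := rfl
    rw [e, htr] at this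
    exact_mod_cast this
  have t3 : Algebra.trace ℤ (𝓞 M) (t * t) = 2 * s := by
    have e : t * t = algebraMap ℤ (𝓞 M) s := by
      apply RingOfIntegers.ext
      have e' : ((t : 𝓞 M) : M) = θ := rfl
      simp only [map_mul, eq_intCast, map_intCast]
      change θ * θ = _
      rw [← hθ]; ring
    rw [e, Algebra.trace_algebraMap, hr]
    simp
  have h2 : Algebra.discr ℤ v = 4 * s := by
    rw [Algebra.discr_def, Matrix.det_fin_two]
    simp only [Algebra.traceMatrix_apply, Algebra.traceForm_apply, v, Matrix.cons_val_zero,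
      Matrix.cons_val_one, one_mul, mul_one, t1, t2, t3]
    ring
  have h3 : discr M ∣ 4 * s := ⟨(b.toMatrix v).det ^ 2, by rw [← h2, h1, mul_comm]⟩
  have h4 : (discr M).natAbs ∣ (4 * s).natAbs := Int.natAbs_dvd_natAbs.2 h3
  have h5 : (4 * s).natAbs = 4 * s.natAbs := by rw [Int.natAbs_mul]; rfl
  rw [h5] at h4
  exact Nat.le_of_dvd (by have := Int.natAbs_pos.2 hs0; omega) h4

theorem tr_zero (M : Type) [Field M] [NumberField M] (s : ℤ)
    (hirr : Irreducible (X ^ 2 - C (s : ℚ))) (θ : M) (hθ : θ ^ 2 = s) :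
    Algebra.trace ℚ M θ = 0 := by
  have hmon : (X ^ 2 - C (s : ℚ)).Monic := monic_X_pow_sub_C _ (by norm_num)
  have hdeg : (X ^ 2 - C (s : ℚ)).natDegree = 2 := natDegree_X_pow_sub_C
  have hev : aeval θ (X ^ 2 - C (s : ℚ)) = 0 := by
    rw [map_sub, map_pow, aeval_X, aeval_C, hθ]
    simp
  have hmin : minpoly ℚ θ = X ^ 2 - C (s : ℚ) :=
    (minpoly.eq_of_irreducible_of_monic hirr hev hmon).symm
  rw [trace_eq_finrank_mul_minpoly_nextCoeff, hmin]
  have : (X ^ 2 - C (s : ℚ)).nextCoeff = 0 := by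
    rw [nextCoeff_of_natDegree_pos (by rw [hdeg]; norm_num), hdeg, coeff_sub, coeff_X_pow, coeff_C]
    simp
  rw [this]
  simp

theorem rt_of {M : Type} [Field M] [CharZero M] (x y r : ℤ) (h : r ^ 3 - 3 * x * r + 2 * y = 0)
    (w : M) (hw : w ^ 2 = ((12 * x - 3 * r ^ 2 : ℤ) : M)) :
    Rt x y ((-r + w) / 2) ((-r - w) / 2) (r : M) := by
  have h' : (r : M) ^ 3 - 3 * x * r + 2 * y = 0 := by exact_mod_cast h
  push_cast at hw
  refine ⟨by ring, ?_, ?_⟩
  · linear_combination (-1 / 4 : M) * hw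
  · linear_combination (-(r : M) / 4) * hw + h'

end D2

open D2 in
theorem rowD2 : RowD2 := by
  intro x y q hq hk
  obtain ⟨r, rfl⟩ := int_root x y q hq
  have hr : r ^ 3 - 3 * x * r + 2 * y = 0 := by exact_mod_cast hq
  set g : ℤ := 12 * x - 3 * r ^ 2 with hg
  have hk0 : x ^ 3 - y ^ 2 ≠ 0 := sub_ne_zero.2 hk
  have hgk : g * (r ^ 2 - x) ^ 2 = 12 * (x ^ 3 - y ^ 2) := by
    rw [hg]
    linear_combination (-3 * (r ^ 3 - 3 * x * r - 2 * y)) * hr
  have hg0 : g ≠ 0 := by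
    intro h0
    rw [h0, zero_mul] at hgk
    exact hk0 (by linarith)
  obtain ⟨s₀, m, hm, hsq⟩ := Nat.sq_mul_squarefree g.natAbs
  have hs₀ : s₀ ≤ 6 * rd (x ^ 3 - y ^ 2).natAbs := by
    refine sqf_le s₀ _ hsq (Int.natAbs_ne_zero.2 hk0) ?_
    have h1 : g.natAbs ∣ 12 * (x ^ 3 - y ^ 2).natAbs := by
      have : g.natAbs ∣ (12 * (x ^ 3 - y ^ 2)).natAbs :=
        Int.natAbs_dvd_natAbs.2 ⟨_, hgk.symm⟩
      rwa [Int.natAbs_mul] at this
    exact (Dvd.intro_left _ hm).trans h1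
  obtain ⟨s, hs, hsm⟩ : ∃ s : ℤ, s.natAbs = s₀ ∧ (m : ℤ) ^ 2 * s = g := by
    have hm' : ((m : ℤ)) ^ 2 * (s₀ : ℤ) = (g.natAbs : ℤ) := by exact_mod_cast hm
    rcases Int.natAbs_eq g with h | h
    · exact ⟨s₀, by simp, by rw [hm', ← h]⟩
    · exact ⟨-s₀, by simp, by rw [mul_neg, hm', ← h]⟩
  have hs0 : s ≠ 0 := by
    intro h0
    rw [h0, mul_zero] at hsm
    exact hg0 hsm.symm
  by_cases hsqr : ∃ t : ℚ, t ^ 2 = (s : ℚ)
  · obtain ⟨t, ht⟩ := hsqr
    refine ⟨ℚ, inferInstance, inferInstance, _, _, _, rt_of x y r hr ((m : ℚ) * t) ?_, ?_, ?_⟩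
    · rw [← hg, ← hsm, mul_pow, ht]; push_cast; ring
    · simp
    · rw [discr_rat]
      have := rd_pos (x ^ 3 - y ^ 2).natAbs
      simp only [Int.natAbs_one]
      omega
  · have hirr : Irreducible (X ^ 2 - C (s : ℚ)) :=
      X_pow_sub_C_irreducible_of_prime Nat.prime_two (fun b hb => hsqr ⟨b, hb⟩)
    have : Fact (Irreducible (X ^ 2 - C (s : ℚ))) := ⟨hirr⟩
    have hdeg : (X ^ 2 - C (s : ℚ)).natDegree = 2 := natDegree_X_pow_sub_C
    have hfr : Module.finrank ℚ (AdjoinRoot (X ^ 2 - C (s : ℚ))) = 2 := by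
      rw [(AdjoinRoot.powerBasis hirr.ne_zero).finrank, AdjoinRoot.powerBasis_dim, hdeg]
    have hθ : (AdjoinRoot.root (X ^ 2 - C (s : ℚ))) ^ 2 =
        ((s : ℤ) : AdjoinRoot (X ^ 2 - C (s : ℚ))) := by
      have := AdjoinRoot.eval₂_root (X ^ 2 - C (s : ℚ))
      rw [eval₂_sub, eval₂_pow, eval₂_X, eval₂_C, sub_eq_zero] at this
      rw [this]
      simp
    have htr := tr_zero _ s hirr _ hθ
    refine ⟨AdjoinRoot (X ^ 2 - C (s : ℚ)), inferInstance, inferInstance, _, _, _,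
      rt_of x y r hr ((m : AdjoinRoot (X ^ 2 - C (s : ℚ))) * AdjoinRoot.root _) ?_, hfr.le, ?_⟩
    · rw [← hg, ← hsm, mul_pow, hθ]; push_cast; ring
    · have := discr_le _ hfr s hs0 _ hθ htr
      omega

end Pool.Agent.MP_542436_nt.SZ
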