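import Pool.Agent.MP_542436_nt.SZ.Spec

/-! The cubic field of an irreducible cubic and two of its embeddings. -/

set_option autoImplicit false

namespace Pool.Agent.MP_542436_nt.SZ

open Polynomial NumberField

namespace F3

/-- the cubic -/
noncomputable def ff (x y : ℤ) : ℚ[X] := X ^ 3 - C (3 * x : ℚ) * X + C (2 * y : ℚ)

theorem ff_natDegree (x y : ℤ) : (ff x y).natDegree = 3 := by
  unfold ff; compute_degree!

theorem ff_ne_zero (x y : ℤ) : ff x y ≠ 0 := fun h => by
  have := ff_natDegree x y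
  rw [h, natDegree_zero] at this
  omega

theorem ff_irreducible {x y : ℤ} (h : ∀ q : ℚ, q ^ 3 - 3 * x * q + 2 * y ≠ 0) :
    Irreducible (ff x y) := by
  rw [irreducible_iff_roots_eq_zero_of_degree_le_three (by rw [ff_natDegree]; norm_num)
    (by rw [ff_natDegree]), Multiset.eq_zero_iff_forall_notMem]
  intro q hq
  rw [mem_roots (ff_ne_zero x y), IsRoot.def] at hq
  refine h q ?_
  simpa [ff] using hq

theorem rt_of_two {M : Type} [Field M] {x y : ℤ} {a b : M} (ha : a ^ 3 - 3 * x * a + 2 * y = 0)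
    (hb : b ^ 3 - 3 * x * b + 2 * y = 0) (hab : a ≠ b) : Rt x y a b (-(a + b)) := by
  have h : a ^ 2 + a * b + b ^ 2 = 3 * x := by
    apply mul_left_cancel₀ (sub_ne_zero.2 hab)
    linear_combination ha - hb
  refine ⟨by ring, by linear_combination -h, by linear_combination -a * h + ha⟩

end F3

open F3 in
theorem rowF3 : RowF3 := by
  intro x y h
  have : Fact (Irreducible (ff x y)) := ⟨ff_irreducible h⟩
  have h3 : Module.finrank ℚ (AdjoinRoot (ff x y)) = 3 := by
    rw [(AdjoinRoot.powerBasis (ff_ne_zero x y)).finrank, AdjoinRoot.powerBasis_dim, ff_natDegree]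
  have he : AdjoinRoot.root (ff x y) ^ 3 - 3 * x * AdjoinRoot.root (ff x y) + 2 * y = 0 := by
    have h0 : aeval (AdjoinRoot.root (ff x y)) (X ^ 3 - C (3 * x : ℚ) * X + C (2 * y : ℚ)) = 0 :=
      (AdjoinRoot.aeval_eq _).trans AdjoinRoot.mk_self
    simp only [map_add, map_sub, map_mul, map_pow, aeval_X, map_ofNat, map_intCast] at h0
    exact h0
  have hc : 1 < Fintype.card (AdjoinRoot (ff x y) →+* ℂ) := by
    rw [Embeddings.card, h3]; norm_num
  obtain ⟨φ, ψ, hne⟩ := Fintype.exists_pair_of_one_lt_card hc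
  have hab : φ (AdjoinRoot.root _) ≠ ψ (AdjoinRoot.root _) := fun e => hne <| by
    have : φ.toRatAlgHom = ψ.toRatAlgHom := AdjoinRoot.algHom_ext e
    exact RingHom.ext fun z => DFunLike.congr_fun this z
  let A : IntermediateField ℚ ℂ := φ.toRatAlgHom.fieldRange
  let B : IntermediateField ℚ ℂ := ψ.toRatAlgHom.fieldRange
  have eA : AdjoinRoot (ff x y) ≃ₐ[ℚ] A := AlgEquiv.ofInjectiveField φ.toRatAlgHom
  have eB : AdjoinRoot (ff x y) ≃ₐ[ℚ] B := AlgEquiv.ofInjectiveField ψ.toRatAlgHom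
  have : FiniteDimensional ℚ A := eA.toLinearEquiv.finiteDimensional
  have : FiniteDimensional ℚ B := eB.toLinearEquiv.finiteDimensional
  have : NumberField (A ⊔ B : IntermediateField ℚ ℂ) := {}
  have h9 : Module.finrank ℚ (A ⊔ B : IntermediateField ℚ ℂ) ≤ 9 := by
    have := IntermediateField.finrank_sup_le A B
    rwa [← eA.toLinearEquiv.finrank_eq, ← eB.toLinearEquiv.finrank_eq, h3] at this
  let σ₁ : AdjoinRoot (ff x y) →+* (A ⊔ B : IntermediateField ℚ ℂ) :=
    φ.codRestrict (A ⊔ B : IntermediateField ℚ ℂ) fun z => (le_sup_left : A ≤ A ⊔ B) ⟨z, rfl⟩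
  let σ₂ : AdjoinRoot (ff x y) →+* (A ⊔ B : IntermediateField ℚ ℂ) :=
    ψ.codRestrict (A ⊔ B : IntermediateField ℚ ℂ) fun z => (le_sup_right : B ≤ A ⊔ B) ⟨z, rfl⟩
  refine ⟨AdjoinRoot (ff x y), (A ⊔ B : IntermediateField ℚ ℂ), inferInstance, inferInstance,
    inferInstance, inferInstance, σ₁, σ₂, AdjoinRoot.root _, _, h3, h9, he,
    rt_of_two ?_ ?_ fun e => hab (congrArg Subtype.val e)⟩
  · have := congrArg σ₁ he
    simpa only [map_add, map_sub, map_mul, map_pow, map_ofNat, map_intCast, map_zero] using this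
  · have := congrArg σ₂ he
    simpa only [map_add, map_sub, map_mul, map_pow, map_ofNat, map_intCast, map_zero] using this

end Pool.Agent.MP_542436_nt.SZ
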