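import Pool.Agent.MP_542436_nt.SZ.Spec
import Pool.Agent.MP_542436_nt.H40.BC
import Pool.Agent.MP_542436_nt.H40.BCH

/-! The height of the invariant in terms of the cross ratio. -/

set_option autoImplicit false

namespace Pool.Agent.MP_542436_nt.SZ

open NumberField Height

namespace HT

theorem rat {M : Type} [Field M] [NumberField M] {u v : ℤ} (h : u ≠ v) :
    Real.log ((max |u| |v| : ℤ) : ℝ) ≤
      Real.log (Int.gcd u v : ℝ) + logHeight₁ ((u : M) / (v : M)) := by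
  have hg : 0 < Int.gcd u v := Int.gcd_pos_iff.2 (by omega)
  obtain ⟨A, B, hc, hA, hB⟩ := Int.exists_gcd_one hg
  generalize Int.gcd u v = g at hg hA hB
  have h1 : (Finset.univ : Finset (Fin 2)).gcd ![A, B] = 1 := by
    have : GCDMonoid.gcd A B = 1 := by rw [← Int.coe_gcd, hc, Nat.cast_one]
    rw [← this, Finset.univ_fin2, Finset.gcd_insert, Finset.gcd_singleton]
    exact (normalize_associated B).gcd_eq_right A
  have h2 := Rat.logHeight_eq_max_abs_of_gcd_eq_one h1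
  have h3 := H40.rowBCH H40.rowBC ℚ M (((↑) : ℤ → ℚ) ∘ ![A, B])
  have h4 : (fun i => algebraMap ℚ M ((((↑) : ℤ → ℚ) ∘ ![A, B]) i)) = ![(A : M), (B : M)] := by
    funext i
    fin_cases i <;> simp
  have h5 : (⨆ i, |(![A, B] : Fin 2 → ℤ) i|) = max |A| |B| := by
    refine le_antisymm (ciSup_le fun i => ?_) (max_le ?_ ?_)
    · fin_cases i <;> simp
    · exact Finite.le_ciSup_of_le 0 (by simp)
    · exact Finite.le_ciSup_of_le 1 (by simp)
  have hg' : (g : M) ≠ 0 := Nat.cast_ne_zero.2 hg.ne'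
  have h6 : (u : M) / (v : M) = (A : M) / (B : M) := by
    rw [hA, hB]
    push_cast
    exact mul_div_mul_right _ _ hg'
  rw [h4, h2, h5, ← logHeight₁_div_eq_logHeight, ← h6] at h3
  have h7 : max |u| |v| = g * max |A| |B| := by
    rw [hA, hB, abs_mul, abs_mul, Nat.abs_cast, ← max_mul_of_nonneg _ _ (Int.natCast_nonneg g),
      mul_comm]
  have h8 : max |A| |B| ≠ 0 := by
    intro h0
    have a0 : A = 0 := abs_eq_zero.1 (le_antisymm (h0 ▸ le_max_left _ _) (abs_nonneg _))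
    have b0 : B = 0 := abs_eq_zero.1 (le_antisymm (h0 ▸ le_max_right _ _) (abs_nonneg _))
    exact h (by rw [hA, hB, a0, b0])
  rw [h7, Int.cast_mul, Int.cast_natCast,
    Real.log_mul (Nat.cast_ne_zero.2 hg.ne') (Int.cast_ne_zero.2 h8)]
  linarith

theorem inv {M : Type} [Field M] [NumberField M] (l : M) :
    logHeight₁ (2 ^ 2 * (3 ^ 3)⁻¹ * (l * (l - 1) + 1) ^ 3 * ((l * (l - 1)) ^ 2)⁻¹) ≤
      16 * (totalWeight M * Real.log 2) + 10 * logHeight₁ l := by
  have h2 := logHeight₁_add_le (1 : M) 1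
  have h3 := logHeight₁_add_le (2 : M) 1
  have h4 := logHeight₁_sub_le l 1
  have h5 := logHeight₁_mul_le l (l - 1)
  have h6 := logHeight₁_add_le (l * (l - 1)) 1
  have h7 := logHeight₁_mul_le ((2 : M) ^ 2) (3 ^ 3)⁻¹
  have h8 := logHeight₁_mul_le ((2 : M) ^ 2 * (3 ^ 3)⁻¹) ((l * (l - 1) + 1) ^ 3)
  have h9 := logHeight₁_mul_le ((2 : M) ^ 2 * (3 ^ 3)⁻¹ * (l * (l - 1) + 1) ^ 3)
    ((l * (l - 1)) ^ 2)⁻¹
  rw [one_add_one_eq_two] at h2
  rw [two_add_one_eq_three] at h3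
  simp only [logHeight₁_inv, logHeight₁_pow, logHeight₁_one, Nat.cast_ofNat] at *
  linarith

end HT

theorem rowHT : RowHT := by
  intro d
  refine ⟨33 * d + 20, by positivity, fun M _ _ x y a b c hd ⟨h1, h2, h3⟩ hk => ?_⟩
  have hk' : (x : M) ^ 3 - (y : M) ^ 2 ≠ 0 := by exact_mod_cast sub_ne_zero.2 hk
  have hc : c = -a - b := by linear_combination h1
  have hx : (x : M) = (a ^ 2 + a * b + b ^ 2) / 3 := by
    subst hc
    linear_combination h2 / 3
  have hy : (y : M) = a * b * (a + b) / 2 := by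
    subst hc
    linear_combination h3 / 2
  have hD : 108 * ((x : M) ^ 3 - (y : M) ^ 2) = ((a - b) * (a - c) * (b - c)) ^ 2 := by
    rw [hx, hy, hc]
    ring
  have hD' : (a - b) * (a - c) * (b - c) ≠ 0 := fun h0 => by
    rw [h0] at hD
    exact hk' (by linear_combination hD / 108)
  have hbc := right_ne_zero_of_mul hD'
  have hab := left_ne_zero_of_mul (left_ne_zero_of_mul hD')
  have hac := right_ne_zero_of_mul (left_ne_zero_of_mul hD')
  have e1 : (a - c) / (b - c) * ((a - c) / (b - c) - 1) = (a - b) * (a - c) / (b - c) ^ 2 := by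
    field_simp
    ring
  have e2 : (a - b) * (a - c) / (b - c) ^ 2 + 1 = 9 * x / (b - c) ^ 2 := by
    field_simp
    rw [hx, hc]
    ring
  have e3 : (x : M) ^ 3 - (y : M) ^ 2 = ((a - b) * (a - c) * (b - c)) ^ 2 / 108 := by
    linear_combination hD / 108
  have h4 := HT.inv ((a - c) / (b - c))
  have e4 : (2 : M) ^ 2 * (3 ^ 3)⁻¹ * (9 * x / (b - c) ^ 2) ^ 3 *
      (((a - b) * (a - c) / (b - c) ^ 2) ^ 2)⁻¹ = x ^ 3 / ((x : M) ^ 3 - (y : M) ^ 2) := by
    rw [e3]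
    field_simp
    ring
  rw [e1, e2, e4] at h4
  have h5 := HT.rat (M := M) hk
  have e5 : ((x ^ 3 : ℤ) : M) / ((y ^ 2 : ℤ) : M) = x ^ 3 / ((x : M) ^ 3 - (y : M) ^ 2) *
      (x ^ 3 / ((x : M) ^ 3 - (y : M) ^ 2) - 1)⁻¹ := by
    rw [div_sub_one hk', sub_sub_cancel, ← div_eq_mul_inv, div_div_div_cancel_right₀ hk']
    push_cast
    rfl
  have h6 := logHeight₁_mul_le (x ^ 3 / ((x : M) ^ 3 - (y : M) ^ 2))
    (x ^ 3 / ((x : M) ^ 3 - (y : M) ^ 2) - 1)⁻¹
  have h7 := logHeight₁_sub_le (x ^ 3 / ((x : M) ^ 3 - (y : M) ^ 2)) 1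
  rw [logHeight₁_one] at h7
  rw [logHeight₁_inv, ← e5] at h6
  rw [abs_pow, abs_pow, sq_abs] at h5
  have h8 : (totalWeight M : ℝ) * Real.log 2 ≤ d := by
    have k1 : (totalWeight M : ℝ) ≤ d := by
      rw [totalWeight_eq_finrank]
      exact_mod_cast hd
    have k2 : Real.log 2 ≤ 1 := by linarith [Real.log_two_lt_d9]
    exact (mul_le_of_le_one_right (Nat.cast_nonneg _) k2).trans k1
  have h9 := zero_le_logHeight₁ ((a - c) / (b - c))
  have h10 := mul_nonneg (Nat.cast_nonneg (α := ℝ) d) h9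
  nlinarith

end Pool.Agent.MP_542436_nt.SZ
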