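import Pool.Agent.MP_542436_nt.SZ.Spec

/-! Row UN: the differences of the roots are units away from `6 rd k`. -/

set_option autoImplicit false

namespace Pool.Agent.MP_542436_nt.SZ

open NumberField IsDedekindDomain Polynomial

namespace UN

variable {M : Type} [Field M] [NumberField M]

theorem le_one (p : HeightOneSpectrum (𝓞 M)) {z : M} (hz : IsIntegral ℤ z) :
    FinitePlace.mk p z ≤ 1 := FinitePlace.norm_le_one M p (⟨z, hz⟩ : 𝓞 M)

omit [NumberField M] in
theorem int_root {x y : ℤ} {e : M} (h : e ^ 3 - 3 * x * e + 2 * y = 0) : IsIntegral ℤ e := by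
  refine ⟨X ^ 3 - C (3 * x) * X + C (2 * y), by monicity!, ?_⟩
  rw [eval₂_add, eval₂_sub, eval₂_mul, eval₂_X_pow, eval₂_X, eval₂_C, eval₂_C, eq_intCast,
    eq_intCast]
  push_cast
  exact h

omit [NumberField M] in
theorem int_int (n : ℤ) : IsIntegral ℤ (n : M) := by
  simpa using isIntegral_algebraMap (R := ℤ) (A := M) (x := n)

theorem key {z w : M} {n k : ℤ} (hz : IsIntegral ℤ z) (hw : IsIntegral ℤ w) (hk : k ≠ 0)
    (hn : n ∣ 216 * k) (h : z * w = n) : z ≠ 0 ∧ Un (6 * rd k.natAbs) z := by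
  have h0 : n ≠ 0 := by
    rintro rfl
    have := zero_dvd_iff.1 hn
    omega
  refine ⟨fun hz0 => h0 (by rw [hz0, zero_mul] at h; exact_mod_cast h.symm), fun p hp => ?_⟩
  have h1 : k.natAbs ∣ rd k.natAbs ^ k.natAbs :=
    Nat.dvd_prod_primeFactors_pow_self (Int.natAbs_ne_zero.2 hk)
  have h2 : 216 * k.natAbs ∣ (6 * rd k.natAbs) ^ (k.natAbs + 3) := by
    rw [mul_pow]
    refine mul_dvd_mul ?_ (h1.trans (pow_dvd_pow _ (by omega)))
    exact (pow_dvd_pow 6 (by omega : 3 ≤ k.natAbs + 3))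
  have h3 : n ∣ (((6 * rd k.natAbs) ^ (k.natAbs + 3) : ℕ) : ℤ) := by
    refine hn.trans ?_
    rw [← Int.natAbs_dvd, Int.natAbs_mul]
    exact_mod_cast h2
  obtain ⟨t, ht⟩ := h3
  have h4 : z * (w * t) = ((6 * rd k.natAbs : ℕ) : M) ^ (k.natAbs + 3) := by
    rw [← mul_assoc, h, ← Int.cast_mul, ← ht]; push_cast; rfl
  have h5 := congrArg (FinitePlace.mk p) h4
  rw [map_mul, map_pow, hp, one_pow] at h5
  have h6 := le_one p hz
  have h7 := le_one p (hw.mul (int_int t))
  have h8 : 0 ≤ FinitePlace.mk p z := apply_nonneg _ _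
  nlinarith

end UN

theorem rowUN : RowUN where
  dif := by
    intro M _ _ x y a b c ⟨h1, h2, h3⟩ hk
    have hc : c = -a - b := by linear_combination h1
    subst hc
    have ha : IsIntegral ℤ a := UN.int_root (x := x) (y := y) (by linear_combination (-a) * h2 + h3)
    have hb : IsIntegral ℤ b := UN.int_root (x := x) (y := y) (by linear_combination (-b) * h2 + h3)
    have hc : IsIntegral ℤ (-a - b) := ha.neg.sub hb
    have hx : (x : M) = -(a * b + a * (-a - b) + b * (-a - b)) / 3 := by linear_combination h2 / 3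
    have hy : (y : M) = -(a * b * (-a - b)) / 2 := by linear_combination h3 / 2
    have := UN.key (z := a - b) (w := (a - b) * ((a - (-a - b)) * (b - (-a - b))) ^ 2)
      (n := 108 * (x ^ 3 - y ^ 2)) (k := x ^ 3 - y ^ 2) (ha.sub hb)
      ((ha.sub hb).mul (((ha.sub hc).mul (hb.sub hc)).pow 2)) (sub_ne_zero.2 hk) ⟨2, by ring⟩
      (by push_cast; rw [hx, hy]; ring)
    exact ⟨sub_ne_zero.1 this.1, this.2⟩
  der := by
    intro L _ _ x y e h hk
    have he : IsIntegral ℤ e := UN.int_root h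
    have hx : IsIntegral ℤ (x : L) := UN.int_int x
    have h4 : IsIntegral ℤ (4 * (x : L)) := by simpa using UN.int_int (M := L) (4 * x)
    have hy : (y : L) = -(e ^ 3 - 3 * x * e) / 2 := by linear_combination h / 2
    exact UN.key (z := e ^ 2 - x) (w := (e ^ 2 - x) * (e ^ 2 - 4 * x))
      (n := -4 * (x ^ 3 - y ^ 2)) (k := x ^ 3 - y ^ 2) ((he.pow 2).sub hx)
      (((he.pow 2).sub hx).mul ((he.pow 2).sub h4)) (sub_ne_zero.2 hk) ⟨-54, by ring⟩
      (by push_cast; rw [hy]; ring)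

end Pool.Agent.MP_542436_nt.SZ
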