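import Pool.Agent.MP_542436_nt.H96N.All

/-! Approximation to one at several places, for a group of units without a chosen basis. -/

set_option autoImplicit false

namespace Pool.Agent.MP_542436_nt.SZ

open MvPolynomial Finset
open Pool.Agent.MP_542436_nt.H39 (bx ZP mem_bx card_bx)
open Pool.Agent.MP_542436_nt.H96N (av_int)

/-- places, a ring of integers with a product formula, and a group of units with coordinates -/
structure Dat (K V G I : Type) [Field K] [Fintype V] [AddCommGroup G] where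
  av : V → AbsoluteValue K ℝ
  A : Subring K
  pf : ∀ z ∈ A, z ≠ 0 → 0 ≤ ∑ v, Real.log (av v z)
  pw : G → K
  pw_ne : ∀ g, pw g ≠ 0
  pw_add : ∀ f g, pw (f + g) = pw f * pw g
  pw_mem : ∀ g, pw g ∈ A
  co : G →+ (I → ℝ)
  lam : V → ℝ
  lam_nonneg : ∀ v, 0 ≤ lam v
  nr : ∀ (f x : G) (σ ε : ℝ), 0 ≤ ε → (∀ i, |co f i - σ * co x i| ≤ ε) → ∀ v,
    |Real.log (av v (pw f)) - σ * Real.log (av v (pw x))| ≤ ε * lam v
  sep : ∀ g, (∀ i, |co g i| < 1) → pw g = 1

namespace Dat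

variable {K V G I : Type} [Field K] [Fintype V] [AddCommGroup G] (D : Dat K V G I)

/-- logarithm of an absolute value -/
noncomputable def lg (v : V) (z : K) : ℝ := Real.log (D.av v z)

/-- total size of the unit box -/
noncomputable def Lam : ℝ := ∑ v, D.lam v

/-- height -/
noncomputable def Ht (x : G) : ℝ := ∑ v, max (D.lg v (D.pw x)) 0

theorem pw_zero : D.pw 0 = 1 := by
  have h := D.pw_add 0 0
  rw [add_zero] at h
  exact (mul_eq_left₀ (D.pw_ne 0)).1 h.symm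

theorem pw_neg (f : G) : D.pw (-f) = (D.pw f)⁻¹ :=
  eq_inv_of_mul_eq_one_left (by rw [← D.pw_add, neg_add_cancel, pw_zero])

theorem pw_nsmul (n : ℕ) (f : G) : D.pw (n • f) = D.pw f ^ n := by
  induction n with
  | zero => simp [pw_zero]
  | succ n ih => rw [succ_nsmul, D.pw_add, ih, pow_succ]

theorem pw_zsmul (n : ℤ) (f : G) : D.pw (n • f) = D.pw f ^ n := by
  obtain ⟨m, rfl | rfl⟩ := n.eq_nat_or_neg
  · rw [natCast_zsmul, pw_nsmul, zpow_natCast]
  · rw [neg_smul, pw_neg, natCast_zsmul, pw_nsmul, zpow_neg, zpow_natCast]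

theorem pw_sum {ι : Type} (t : Finset ι) (f : ι → G) :
    D.pw (∑ j ∈ t, f j) = ∏ j ∈ t, D.pw (f j) := by
  classical
  induction t using Finset.induction_on with
  | empty => simp [pw_zero]
  | insert a s ha ih => rw [sum_insert ha, prod_insert ha, D.pw_add, ih]

theorem pw_comb {ρ : ℕ} (z : Fin ρ → ℕ) (e : Fin ρ → G) (s : ℕ) (x : G) :
    D.pw (∑ j, z j • e j + s • x) = D.pw x ^ s * ∏ j, D.pw (e j) ^ z j := by
  rw [D.pw_add, pw_sum, mul_comm]
  simp only [pw_nsmul]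

theorem exp_lg (v : V) {z : K} (h : z ≠ 0) : Real.exp (D.lg v z) = D.av v z :=
  Real.exp_log ((D.av v).pos h)

theorem sum_lg_pw (f : G) : ∑ v, D.lg v (D.pw f) = 0 := by
  have h1 := D.pf _ (D.pw_mem f) (D.pw_ne f)
  have h2 := D.pf _ (D.pw_mem (-f)) (D.pw_ne _)
  simp only [pw_neg, map_inv₀, Real.log_inv, Finset.sum_neg_distrib] at h2
  exact le_antisymm (by simpa [lg] using h2) h1

theorem lam_le (v : V) : D.lam v ≤ D.Lam :=
  Finset.single_le_sum (fun v _ => D.lam_nonneg v) (Finset.mem_univ v)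

theorem near {f x : G} {σ ε : ℝ} (h0 : 0 ≤ ε) (h : ∀ p, |D.co f p - σ * D.co x p| ≤ ε) (v : V) :
    |D.lg v (D.pw f) - σ * D.lg v (D.pw x)| ≤ ε * D.lam v := D.nr f x σ ε h0 h v

theorem co_z {n : ℕ} (a : Fin n → ℤ) (g : Fin n → G) (p : I) :
    D.co (∑ i, a i • g i) p = ∑ i, (a i : ℝ) * D.co (g i) p := by
  rw [map_sum, Finset.sum_apply]
  exact Finset.sum_congr rfl fun i _ => by rw [map_zsmul, Pi.smul_apply, zsmul_eq_mul]

theorem co_n {n : ℕ} (a : Fin n → ℕ) (g : Fin n → G) (s : ℕ) (x : G) (p : I) :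
    D.co (∑ i, a i • g i + s • x) p = ∑ i, (a i : ℝ) * D.co (g i) p + s * D.co x p := by
  rw [map_add, map_sum, Pi.add_apply, Finset.sum_apply, map_nsmul, Pi.smul_apply, nsmul_eq_mul]
  congr 1
  exact Finset.sum_congr rfl fun i _ => by rw [map_nsmul, Pi.smul_apply, nsmul_eq_mul]

/-- units near a small multiple of `x` -/
def Near (x : G) (γ : K) : Prop :=
  ∃ (g : G) (τ : ℝ), γ = D.pw g ∧ |τ| ≤ 1 ∧ ∀ p, |D.co g p - τ * D.co x p| ≤ 1

/-- a colouring with `q` colours such that sums of one colour are close -/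
def Col (x : G) (T : Finset V) (μ : V → ℝ) (k q : ℕ) : Prop :=
  ∃ col : K → Fin q, ∀ γ γ' : Fin k → K, (∀ i, D.Near x (γ i) ∧ D.Near x (γ' i)) →
    col (∑ i, γ i) = col (∑ i, γ' i) → ∀ v ∈ T, D.av v (∑ i, γ i - ∑ i, γ' i) ≤ Real.exp (-μ v)

/-- a colouring of the line of `x` such that two points of one colour differ nearly by a unit -/
def Cov (x : G) (Q n : ℕ) : Prop :=
  ∃ col : ℝ → Fin n, ∀ t t', col t = col t' →
    ∃ g : G, ∀ p, Q * |D.co g p - (t - t') * D.co x p| ≤ 1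

/-- the number that is close to one -/
structure Apx (x : G) (T : Finset V) (μ : V → ℝ) (Y : ℕ) : Prop where
  pos : ∀ v ∈ T, 0 ≤ μ v
  apx : ∀ v ∈ T, D.av v (D.pw x - 1) ≤ Real.exp (-(Y * μ v))
  unit : ∀ v ∈ T, |D.lg v (D.pw x)| ≤ 1

/-- the terms of a sum -/
structure Trm {ι : Type} (t : Finset ι) (x : G) (c : ι → ℤ) (f : ι → G) (σ : ι → ℝ)
    (w ε : ℝ) : Prop where
  hw : 0 ≤ w
  sc : ∑ i ∈ t, |(c i : ℝ)| ≤ Real.exp w
  he : 0 ≤ ε
  near : ∀ i ∈ t, ∀ p, |D.co (f i) p - σ i * D.co x p| ≤ ε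

end Dat

variable {K V G I : Type} [Field K] [Fintype V] [AddCommGroup G]

/-- two sums of one colour -/
theorem pig (D : Dat K V G I) (x : G) (T : Finset V) (μ : V → ℝ) (k Q M N q n : ℕ) (hQ : 1 ≤ Q)
    (hN : 1 ≤ N) (hC : D.Col x T μ k q) (hV : D.Cov x Q n) (hM : q < M ^ k)
    (hh : k * M * n ≤ N) :
    ∃ (t : Fin (2 * k) → ℤ) (g : Fin (2 * k) → G) (c : Fin (2 * k) → ℤ) (i₀ : Fin (2 * k)),
      (∀ i, c i = 1 ∨ c i = -1) ∧ (∀ i, i ≠ i₀ → t i ≠ t i₀) ∧
      (∀ i, |t i| ≤ k * M * n) ∧ (∀ i p, Q * |D.co (g i) p - t i / N * D.co x p| ≤ 1) ∧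
      ∀ v ∈ T, D.av v (∑ i, c i * D.pw (g i)) ≤ Real.exp (-μ v) := by
  classical
  obtain ⟨col, hc⟩ := hC
  obtain ⟨cv, hv⟩ := hV
  have N0 : (0 : ℝ) < N := by exact_mod_cast hN
  obtain ⟨y, -, hU⟩ := exists_le_card_fiber_of_mul_le_card_of_maps_to
    (s := range (k * M * n)) (t := (univ : Finset (Fin n))) (f := fun j : ℕ => cv (j / N))
    (n := k * M) (fun _ _ => mem_univ _) ⟨cv 0, mem_univ _⟩ (by simp [mul_comm])
  set U := (range (k * M * n)).filter fun j : ℕ => cv (j / N) = y with hUd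
  have hlt : ∀ j ∈ U, j < k * M * n := fun j hj => mem_range.1 (mem_filter.1 hj).1
  obtain ⟨φ⟩ : Nonempty (Fin k × Fin M ↪ U) :=
    Function.Embedding.nonempty_of_card_le (by simpa using hU)
  have hU0 : U.Nonempty := by
    rw [← card_pos]
    refine lt_of_lt_of_le (Nat.pos_of_ne_zero fun h => ?_) hU
    have h2 := (col 0).pos
    rcases Nat.mul_eq_zero.1 h with rfl | rfl
    · simp at hM; omega
    · have : 0 ^ k ≤ 1 := by cases k <;> simp
      omega
  obtain ⟨j₀, hj₀⟩ := hU0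
  have ex : ∀ j : ℕ, ∃ g : G, j ∈ U →
      ∀ p, Q * |D.co g p - (((j : ℤ) - j₀ : ℤ) : ℝ) / N * D.co x p| ≤ 1 := fun j => by
    by_cases hj : j ∈ U
    · obtain ⟨g, hg⟩ := hv (j / N) (j₀ / N)
        ((mem_filter.1 hj).2.trans (mem_filter.1 hj₀).2.symm)
      refine ⟨g, fun _ p => ?_⟩
      push_cast
      rw [sub_div]
      exact hg p
    · exact ⟨0, fun h => absurd h hj⟩
  choose F hg using ex
  have ht : ∀ j ∈ U, |(j : ℤ) - j₀| ≤ k * M * n := fun j hj => by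
    have a1 : (j : ℤ) < k * M * n := by exact_mod_cast hlt _ hj
    have a2 : (j₀ : ℤ) < k * M * n := by exact_mod_cast hlt _ hj₀
    have a3 : (0 : ℤ) ≤ j := Int.natCast_nonneg _
    have a4 : (0 : ℤ) ≤ j₀ := Int.natCast_nonneg _
    rw [abs_le]
    constructor <;> linarith
  have hn : ∀ j ∈ U, D.Near x (D.pw (F j)) := fun j hj => by
    refine ⟨_, (((j : ℤ) - j₀ : ℤ) : ℝ) / N, rfl, ?_, fun p => ?_⟩
    · rw [abs_div, abs_of_pos N0, div_le_one N0]
      have a : |(j : ℤ) - j₀| ≤ N := (ht j hj).trans (by exact_mod_cast hh)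
      exact_mod_cast a
    · exact (le_mul_of_one_le_left (abs_nonneg _) (by exact_mod_cast hQ)).trans (hg j hj p)
  obtain ⟨f, f', hne, he⟩ := Fintype.exists_ne_map_eq_of_card_lt
    (fun f : Fin k → Fin M => col (∑ i, D.pw (F (φ (i, f i))))) (by simpa using hM)
  obtain ⟨i₀, hi₀⟩ := Function.ne_iff.1 hne
  have h1 := hc _ _ (fun i => ⟨hn _ (φ (i, f i)).2, hn _ (φ (i, f' i)).2⟩) he
  let e : Fin (2 * k) ≃ Fin k ⊕ Fin k := (finCongr (two_mul k)).trans finSumFinEquiv.symm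
  let J : Fin k ⊕ Fin k → U := Sum.elim (fun i => φ (i, f i)) fun i => φ (i, f' i)
  let c : Fin k ⊕ Fin k → ℤ := Sum.elim (fun _ => 1) fun _ => -1
  refine ⟨fun i => ((J (e i) : ℕ) : ℤ) - j₀, fun i => F (J (e i)), fun i => c (e i),
    e.symm (Sum.inl i₀), fun i => ?_, fun i hi h => hi ?_, fun i => ht _ (J (e i)).2,
    fun i => hg _ (J (e i)).2, fun v hv => ?_⟩
  · change c (e i) = 1 ∨ c (e i) = -1
    cases e i
    · exact Or.inl rfl
    · exact Or.inr rfl
  · simp only [Equiv.apply_symm_apply, sub_left_inj, Nat.cast_inj] at h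
    rw [Equiv.eq_symm_apply]
    have h2 : J (e i) = φ (i₀, f i₀) := Subtype.ext h
    generalize e i = s at h2
    cases s with
    | inl i' => exact congrArg Sum.inl (Prod.ext_iff.1 (φ.injective h2)).1
    | inr i' =>
      obtain ⟨a, b⟩ := Prod.ext_iff.1 (φ.injective h2)
      subst a
      exact absurd b.symm hi₀
  · rw [e.sum_comp fun s => ((c s : ℤ) : K) * D.pw (F (J s)), Fintype.sum_sum_type]
    refine le_of_eq_of_le (congrArg _ ?_) (h1 v hv)
    simp [c, J, sub_eq_add_neg]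

theorem sum_bound {n : ℕ} {a : Fin n → ℤ} {y : Fin n → ℝ} {G : ℕ} {Q T : ℝ} (hQ : 0 ≤ Q)
    (ha : ∀ i, |a i| ≤ G) (hy : ∀ i, Q * |y i| ≤ T) :
    Q * |∑ i, a i * y i| ≤ n * (G * T) := by
  refine (mul_le_mul_of_nonneg_left (Finset.abs_sum_le_sum_abs _ _) hQ).trans ?_
  rw [Finset.mul_sum]
  refine (Finset.sum_le_card_nsmul _ _ (G * T) fun i _ => ?_).trans (by simp)
  rw [abs_mul, mul_left_comm]
  exact mul_le_mul (by exact_mod_cast ha i) (hy i) (by positivity) (by positivity)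

/-- a small polynomial value between independent positions -/
def RowSTR : Prop :=
  ∀ (k : ℕ) (Φ : ℕ → ℕ), ∃ G₀ : ℕ, ∀ (K V G I : Type) [Field K] [Fintype V] [AddCommGroup G]
    (D : Dat K V G I) (x : G) (T : Finset V) (μ : V → ℝ) (Q M N q n : ℕ),
    G₀ < Q → 1 ≤ N → D.Col x T μ k q → D.Cov x Q n → q < M ^ k → k * M * n ≤ N →
    ∃ (ρ B : ℕ) (κ : Fin ρ → ℤ) (e : Fin ρ → G) (ω : MvPolynomial (Fin ρ) ℤ),
      ρ ≤ 2 * k ∧ B ≤ G₀ ∧ ω ≠ 0 ∧ (∀ z ∈ ω.support, ∀ i, z i ≤ B) ∧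
      ∑ z ∈ ω.support, |coeff z ω| ≤ 2 * k ∧ (∀ j, |κ j| ≤ G₀ * M * n) ∧
      (∀ j p, Q * |D.co (e j) p - κ j / N * D.co x p| ≤ G₀) ∧
      (∀ v : Fin ρ → ℤ, (∀ j, |v j| ≤ Φ B) → ∑ j, v j * κ j = 0 → v = 0) ∧
      ∀ v ∈ T, ∀ β : ℝ, 0 ≤ β → (∀ j, D.av v (D.pw (e j)) ≤ Real.exp β) →
        D.av v (aeval (fun j => D.pw (e j)) ω) ≤ Real.exp (ρ * B * β - μ v)

open H39.STR (l1) in
theorem rowSTR : RowSTR := by
  intro k Φ
  obtain ⟨G₁, hG⟩ := H39.rowREL (2 * k) fun G => Φ (2 * G)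
  refine ⟨4 * k ^ 2 * G₁ ^ 2 + 2 * k ^ 2 * G₁ + 2 * k * G₁ + 2 * G₁ + 1,
    fun K V Γ I _ _ _ D x T μ Q M N q n hQ hN hC hV hM hk => ?_⟩
  obtain ⟨t, g, c, i₀, c1, t1, t2, g1, g2⟩ := pig D x T μ k Q M N q n (by omega) hN hC hV hM hk
  obtain ⟨ρ, G, A, B, h1, h2, h3, h4, h5, h6⟩ := hG t
  have Q0 : (0 : ℝ) ≤ Q := Nat.cast_nonneg _
  have h2' : (G : ℝ) ≤ G₁ := by exact_mod_cast h2
  have h2z : (G : ℤ) ≤ G₁ := by exact_mod_cast h2
  have h1' : (ρ : ℝ) ≤ 2 * k := by exact_mod_cast h1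
  set κ : Fin ρ → ℤ := fun j => ∑ i, B j i * t i with hκ
  set e : Fin ρ → Γ := fun j => ∑ i, B j i • g i with he
  let z : Fin (2 * k) → Fin ρ →₀ ℕ := fun i =>
    Finsupp.equivFunOnFinite.symm fun j => (A i j + G).toNat
  have z1 : ∀ i j, (z i j : ℤ) = A i j + G := fun i j =>
    Int.toNat_of_nonneg (by linarith [(abs_le.1 (h3 i j)).1])
  have c2 : ∀ i, |c i| = 1 := fun i => by rcases c1 i with h | h <;> simp [h]
  have e1 : ∀ j p, Q * |D.co (e j) p - κ j / N * D.co x p| ≤ 2 * k * (G * 1) := fun j p => by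
    have := sum_bound Q0 (h4 j) fun i => g1 i p
    push_cast at this
    convert this using 3
    simp only [he, hκ, D.co_z]
    push_cast
    rw [Finset.sum_div, Finset.sum_mul, ← Finset.sum_sub_distrib]
    exact Finset.sum_congr rfl fun i _ => by ring
  have e2 : ∀ i, D.pw (g i) = D.pw (∑ j, A i j • e j) := fun i => by
    have : D.pw (g i - ∑ j, A i j • e j) = 1 := D.sep _ fun p => by
      have a1 := sum_bound Q0 (h3 i) fun j => e1 j p
      have a2 := g1 i p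
      have a0 : (t i : ℝ) = ∑ j, (A i j : ℝ) * κ j := by exact_mod_cast h5 i
      have a3 : D.co (g i - ∑ j, A i j • e j) p = (D.co (g i) p - t i / N * D.co x p) -
          ∑ j, A i j * (D.co (e j) p - κ j / N * D.co x p) := by
        rw [a0, map_sub, Pi.sub_apply, D.co_z]
        simp only [mul_sub, Finset.sum_sub_distrib, Finset.sum_div, Finset.sum_mul]
        rw [sub_sub_sub_comm]
        simp only [mul_div_assoc, mul_assoc, sub_self, sub_zero]
      have a4 := mul_le_mul_of_nonneg_left (abs_sub (D.co (g i) p - t i / N * D.co x p)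
        (∑ j, A i j * (D.co (e j) p - κ j / N * D.co x p))) Q0
      rw [← a3, mul_add] at a4
      have a5 : (ρ : ℝ) * (G * (2 * k * (G * 1))) ≤ 2 * k * (G₁ * (2 * k * (G₁ * 1))) := by gcongr
      have a6 : (4 * k ^ 2 * G₁ ^ 2 + 1 : ℝ) < Q := by
        have : 4 * k ^ 2 * G₁ ^ 2 + 1 < Q := by omega
        exact_mod_cast this
      by_contra q
      have a9 := mul_le_mul_of_nonneg_left (not_lt.1 q) Q0
      linarith
    rw [← sub_add_cancel (g i) (∑ j, A i j • e j), D.pw_add, this, one_mul]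
  refine ⟨ρ, 2 * G, κ, e, ∑ i, monomial (z i) (c i), h1, by omega, fun h0 => ?_,
    fun w hw j => ?_, by exact_mod_cast l1 z c c2 _, fun j => ?_, fun j p => ?_, h6,
    fun v hv β hβ hb => ?_⟩
  · have := congrArg (coeff (z i₀)) h0
    rw [coeff_sum, Finset.sum_eq_single i₀ (fun i _ hi => ?_) (by simp), coeff_monomial,
      if_pos rfl, coeff_zero] at this
    · simpa [this] using c2 i₀
    · rw [coeff_monomial, if_neg fun q => t1 i hi ?_]
      rw [h5 i, h5 i₀]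
      refine Finset.sum_congr rfl fun j _ => ?_
      have := z1 i j
      rw [q, z1] at this
      rw [add_right_cancel this]
  · obtain ⟨i, -, hi⟩ := Finset.mem_biUnion.1 (support_sum hw)
    obtain rfl := Finset.mem_singleton.1 (support_monomial_subset hi)
    have := z1 i j
    have := (abs_le.1 (h3 i j)).2
    omega
  · have := H39.STR.sum_bound (Q := 1) zero_le_one (h4 j) fun i => (one_mul _).trans_le (t2 i)
    rw [one_mul] at this
    refine this.trans ?_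
    push_cast
    calc (2 * k : ℤ) * (G * (k * M * n)) = 2 * k ^ 2 * G * M * n := by ring
      _ ≤ _ := by
        gcongr
        have : (2 * k ^ 2 * G : ℤ) ≤ 2 * k ^ 2 * G₁ := by gcongr
        have : (0 : ℤ) ≤ 4 * k ^ 2 * G₁ ^ 2 + 2 * k * G₁ + 2 * G₁ := by positivity
        linarith
  · refine (e1 j p).trans ?_
    push_cast
    have : (2 * k * G : ℝ) ≤ 2 * k * G₁ := by gcongr
    have : (0 : ℝ) ≤ 4 * k ^ 2 * G₁ ^ 2 + 2 * k ^ 2 * G₁ + 2 * G₁ := by positivity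
    linarith
  · have : aeval (fun j => D.pw (e j)) (∑ i, monomial (z i) (c i)) =
        (∏ j, D.pw (e j) ^ G) * ∑ i, c i * D.pw (g i) := by
      rw [map_sum, Finset.mul_sum]
      refine Finset.sum_congr rfl fun i _ => ?_
      rw [aeval_monomial, Finsupp.prod_fintype _ _ fun _ => pow_zero _, e2 i,
        D.pw_sum Finset.univ fun j => A i j • e j, mul_left_comm, ← Finset.prod_mul_distrib,
        eq_intCast]
      congr 1
      refine Finset.prod_congr rfl fun j _ => ?_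
      rw [D.pw_zsmul, ← zpow_natCast, z1, add_comm, zpow_add₀ (D.pw_ne _), zpow_natCast]
    have b1 : ∏ j, D.av v (D.pw (e j) ^ G) ≤ Real.exp (ρ * (2 * G : ℕ) * β) := by
      refine (Finset.prod_le_prod (g := fun _ => Real.exp ((2 * G : ℕ) * β))
        (fun j _ => (D.av v).nonneg _) fun j _ => ?_).trans_eq ?_
      · rw [map_pow]
        refine (pow_le_pow_left₀ ((D.av v).nonneg _) (hb j) G).trans ?_
        rw [← Real.exp_nat_mul]
        gcongr
        omega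
      · rw [Finset.prod_const, ← Real.exp_nat_mul, Finset.card_univ, Fintype.card_fin, mul_assoc]
    rw [this, map_mul, map_prod, sub_eq_add_neg, Real.exp_add]
    exact mul_le_mul b1 (g2 v hv) ((D.av v).nonneg _) (Real.exp_pos _).le

section SPL

variable {ι : Type} {D : Dat K V G I} {t : Finset ι} {x : G} {c : ι → ℤ} {f : ι → G} {σ : ι → ℝ}
  {w ε : ℝ}

theorem bound (H : D.Trm t x c f σ w ε) {u : Finset ι} (hu : u ⊆ t) (v : V) {m : ℝ}
    (hm : ∀ i ∈ u, σ i * D.lg v (D.pw x) ≤ m) :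
    D.av v (∑ i ∈ u, c i * D.pw (f i)) ≤ Real.exp (w + m + ε * D.lam v) := by
  refine ((D.av v).sum_le _ _).trans ?_
  have h1 : ∀ i ∈ u, D.av v (c i * D.pw (f i)) ≤ |(c i : ℝ)| * Real.exp (m + ε * D.lam v) := by
    intro i hi
    have h2 : D.av v (D.pw (f i)) ≤ Real.exp (m + ε * D.lam v) := by
      rw [← D.exp_lg v (D.pw_ne _), Real.exp_le_exp]
      linarith [hm i hi, (abs_le.1 (D.near H.he (H.near i (hu hi)) v)).2]
    rw [map_mul]
    exact mul_le_mul (av_int _ _) h2 ((D.av v).nonneg _) (abs_nonneg _)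
  refine (Finset.sum_le_sum h1).trans ?_
  rw [← Finset.sum_mul, add_assoc w, Real.exp_add w]
  refine mul_le_mul_of_nonneg_right (le_trans ?_ H.sc) (Real.exp_pos _).le
  exact Finset.sum_le_sum_of_subset_of_nonneg hu fun _ _ _ => abs_nonneg _

theorem zero (u : Finset ι) (g : V → ℝ)
    (hg : ∀ v, D.av v (∑ i ∈ u, c i * D.pw (f i)) ≤ Real.exp (g v))
    (hs : ∑ v, g v < 0) : ∑ i ∈ u, c i * D.pw (f i) = 0 := by
  by_contra h1
  have h2 : ∑ i ∈ u, c i * D.pw (f i) ∈ D.A :=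
    sum_mem fun i _ => mul_mem (intCast_mem _ _) (D.pw_mem _)
  refine absurd ((D.pf _ h2 h1).trans (Finset.sum_le_sum fun v _ => ?_)) (not_le.2 hs)
  exact (Real.log_le_iff_le_exp ((D.av v).pos h1)).2 (hg v)

theorem total (r : ℝ) :
    ∑ v, (w + r * D.lg v (D.pw x) + ε * D.lam v) = Fintype.card V * w + ε * D.Lam := by
  simp only [Finset.sum_add_distrib, ← Finset.mul_sum, D.sum_lg_pw, Finset.sum_const,
    Finset.card_univ, nsmul_eq_mul, Dat.Lam, mul_zero, add_zero]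

theorem van (H : D.Trm t x c f σ w ε) {σ₀ n : ℝ} (T : Finset V) (B : V → ℝ) (hn : 0 ≤ n)
    (hσ : ∀ i ∈ t, σ₀ ≤ σ i ∧ σ i ≤ σ₀ + n)
    (hB : ∀ v ∈ T, D.av v (∑ i ∈ t, c i * D.pw (f i)) ≤ Real.exp (B v))
    (hlt : Fintype.card V * w + n * D.Ht x + ε * D.Lam +
      ∑ v ∈ T, (|σ₀| * |D.lg v (D.pw x)| + B v) < 0) :
    ∑ i ∈ t, c i * D.pw (f i) = 0 := by
  classical
  refine zero t (fun v => w + σ₀ * D.lg v (D.pw x) + ε * D.lam v +
    (n * max (D.lg v (D.pw x)) 0 +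
      if v ∈ T then |σ₀| * |D.lg v (D.pw x)| + B v else 0)) (fun v => ?_) ?_
  · split_ifs with hv
    · refine (hB v hv).trans ?_
      rw [Real.exp_le_exp, ← abs_mul]
      linarith [H.hw, mul_nonneg H.he (D.lam_nonneg v), neg_abs_le (σ₀ * D.lg v (D.pw x)),
        mul_nonneg hn (le_max_right (D.lg v (D.pw x)) 0)]
    · refine (bound H subset_rfl v (m := σ₀ * D.lg v (D.pw x) + n * max (D.lg v (D.pw x)) 0)
        fun i hi => ?_).trans (le_of_eq (by ring_nf))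
      obtain ⟨h1, h2⟩ := hσ i hi
      rcases le_total (D.lg v (D.pw x)) 0 with h3 | h3
      · rw [max_eq_right h3]
        nlinarith
      · rw [max_eq_left h3]
        nlinarith
  · rw [Finset.sum_add_distrib, Finset.sum_add_distrib (f := fun v => n * _), ← Finset.mul_sum,
      Finset.sum_ite_mem, Finset.univ_inter, total]
    rw [Dat.Ht] at hlt
    linarith

theorem spl (H : D.Trm t x c f σ w ε) {σ₁ γ : ℝ} (hσ : ∀ i ∈ t, σ i ≤ σ₁ ∨ σ₁ + γ ≤ σ i)
    (h0 : ∑ i ∈ t, c i * D.pw (f i) = 0)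
    (hlt : Fintype.card V * w + ε * D.Lam < γ * D.Ht x) :
    ∑ i ∈ t with σ i ≤ σ₁, c i * D.pw (f i) = 0 := by
  refine zero _ (fun v => w + (σ₁ + γ) * D.lg v (D.pw x) + ε * D.lam v -
      γ * max (D.lg v (D.pw x)) 0) (fun v => ?_) ?_
  · rcases le_total (D.lg v (D.pw x)) 0 with h3 | h3
    · rw [← Finset.sum_filter_add_sum_filter_not t fun i => σ i ≤ σ₁] at h0
      rw [eq_neg_of_add_eq_zero_left h0, AbsoluteValue.map_neg, max_eq_right h3,
        mul_zero, sub_zero]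
      refine bound H (Finset.filter_subset _ _) v fun i hi => ?_
      obtain ⟨h1, h2⟩ := Finset.mem_filter.1 hi
      exact mul_le_mul_of_nonpos_right ((hσ i h1).resolve_left h2) h3
    · rw [max_eq_left h3]
      refine (bound H (Finset.filter_subset _ _) v (m := σ₁ * D.lg v (D.pw x))
        fun i hi => ?_).trans (le_of_eq (by ring_nf))
      exact mul_le_mul_of_nonneg_right (Finset.mem_filter.1 hi).2 h3
  · rw [Finset.sum_sub_distrib, ← Finset.mul_sum, total]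
    rw [Dat.Ht] at hlt
    linarith

end SPL

end Pool.Agent.MP_542436_nt.SZ
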