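import Pool.Agent.MP_542436_nt.SZ.A

/-! The contradiction with free parameters and the choice of the parameters. -/

set_option autoImplicit false

namespace Pool.Agent.MP_542436_nt.SZ

open MvPolynomial Finset
open Pool.Agent.MP_542436_nt.H39 (bx ZP mem_bx card_bx)
open Pool.Agent.MP_542436_nt.H39.CORE (win size sum_bd)
open Pool.Agent.MP_542436_nt.H96N.CORE (size' zp)

theorem core {K V Γ I : Type} [Field K] [CharZero K] [Fintype V] [AddCommGroup Γ]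
    (D : Dat K V Γ I) (x : Γ) (T : Finset V) (μ : V → ℝ) (Y : ℕ)
    (ρ δ g E G m N d K' ν L L₀ S κ₀ : ℕ) (κ : Fin ρ → ℤ) (e : Fin ρ → Γ)
    (ω : MvPolynomial (Fin ρ) ℤ) (ε err Λ : ℝ) (A : D.Apx x T μ Y) (Z : ZP ρ δ g E)
    (ω0 : ω ≠ 0) (ωG : ∀ z ∈ ω.support, ∀ i, z i ≤ G) (ωm : ∑ z ∈ ω.support, |coeff z ω| ≤ m)
    (m1 : 1 ≤ m)
    (ωr : ∀ v ∈ T, ∀ β : ℝ, 0 ≤ β → (∀ j, D.av v (D.pw (e j)) ≤ Real.exp β) →
      D.av v (aeval (fun j => D.pw (e j)) ω) ≤ Real.exp (ρ * G * β - μ v))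
    (hκ : ∀ j, |κ j| ≤ κ₀) (he : ∀ j p, |D.co (e j) p - κ j / N * D.co x p| ≤ ε) (ε0 : 0 ≤ ε)
    (hrel : ∀ v : Fin ρ → ℤ, (∀ i, |v i| ≤ g) → (N : ℤ) ∣ ∑ i, v i * κ i → v = 0)
    (GY : G * Y < d) (dK : d ≤ δ * K') (KY : K' ≤ Y) (ν1 : 1 ≤ ν) (EN : E * ν ≤ N)
    (EK : E * ν ≤ K') (LN : 2 * L * ν ≤ N) (N1 : 1 ≤ N)
    (cnt : (L₀ + 1) * d ^ ρ * N ≤ L₀ * ((d - G * Y) ^ ρ * N + L * ν * d ^ ρ))
    (hS : ρ * d * κ₀ ≤ N * S)
    (herr : Fintype.card V * ((2 * L₀ + 9) * (ρ * d + Y * m) + 8 * S + 4) +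
      4 * (ρ * d * ε) * D.Lam ≤ err) (hΛ : Λ ≤ ∑ v ∈ T, μ v)
    (h1 : err + 2 * L * ν / N * D.Ht x < (Y - K') * Λ) (h2 : err < ν / N * D.Ht x) : False := by
  have d1 : 1 ≤ d := by omega
  have N0 : (0 : ℝ) < N := by exact_mod_cast N1
  have N0' : (0 : ℤ) < N := by exact_mod_cast N1
  obtain ⟨W, W1, W2⟩ := win L ν
  obtain ⟨h0, t, hN, ht, tc, tw⟩ := H39.rowWIN N _ (bx ρ d) (fun z => ∑ j, z j * κ j) W N1
    fun w hw => (W2 w hw).1.trans_le LN
  rw [W1, card_bx] at tc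
  obtain ⟨H, H0, H1, H2, H3, H4⟩ := H96N.rowAUX ρ G m Y d L₀ ω t m1 d1 ω0 ωG ωm ht
    (Nat.le_of_mul_le_mul_right (cnt.trans (by nlinarith [Nat.mul_le_mul_left L₀ tc])) N1) GY
  obtain ⟨w, s, hw⟩ : ∃ w s : (Fin ρ →₀ ℕ) → ℕ, ∀ z ∈ t, w z ∈ W ∧ s z ≤ 2 * S + 1 ∧
      ∑ j, (z j : ℤ) * κ j + N * s z = h0 + N * S + w z := by
    refine ⟨fun z => ((∑ j, z j * κ j - h0) % N).toNat,
      fun z => (S - (∑ j, z j * κ j - h0) / N).toNat, fun z hz => ⟨tw z hz, ?_⟩⟩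
    have b1 : |∑ j, (z j : ℤ) * κ j| ≤ N * S := by
      have := (sum_bd (ht hz) (u := fun j => κ j) (c := κ₀) fun j => by exact_mod_cast hκ j).trans
        (show (ρ : ℝ) * d * κ₀ ≤ N * S by exact_mod_cast hS)
      exact_mod_cast this
    beta_reduce
    generalize ∑ j, (z j : ℤ) * κ j = f at b1
    obtain ⟨b1, b2⟩ := abs_le.1 b1
    have hN' : (h0 : ℤ) < N := by exact_mod_cast hN
    have q1 : (f - h0) / N ≤ S := Int.ediv_le_of_le_mul N0' (by linarith [Int.natCast_nonneg h0])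
    have q2 : -(S + 1 : ℤ) ≤ (f - h0) / N := Int.le_ediv_of_mul_le N0' (by linarith)
    refine ⟨by omega, ?_⟩
    rw [Int.toNat_of_nonneg (sub_nonneg.2 q1), Int.toNat_of_nonneg (Int.emod_nonneg _ N0'.ne')]
    linear_combination -Int.mul_ediv_add_emod (f - h0) N
  set F : (Fin ρ →₀ ℕ) → Γ := fun z => ∑ j, z j • e j + s z • x with hF
  have Lm : 0 ≤ D.Lam := sum_nonneg fun v _ => D.lam_nonneg v
  obtain ⟨R, hR⟩ : ∃ R : ℝ, R = ρ * d + Y * m := ⟨_, rfl⟩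
  obtain ⟨η, hη⟩ : ∃ η : ℝ, η = ρ * d * ε := ⟨_, rfl⟩
  have R0 : 0 ≤ R := by rw [hR]; positivity
  have η0 : 0 ≤ η := by rw [hη]; positivity
  have KY' : (0 : ℝ) ≤ Y - K' := sub_nonneg.2 (by exact_mod_cast KY)
  rw [← hR, ← hη] at herr
  have e1 : (0 : ℝ) ≤ Fintype.card V * R := by positivity
  have e2 : (0 : ℝ) ≤ Fintype.card V * (L₀ * R) := by positivity
  have e3 : (0 : ℝ) ≤ Fintype.card V * S := by positivity
  have e5 : (0 : ℝ) ≤ η * D.Lam := by positivity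
  have e6 : (0 : ℝ) ≤ Fintype.card V := by positivity
  have key : ∀ α : Fin ρ → ℕ, ∑ j, α j < K' → ∀ i : ℕ,
      ∑ z ∈ t with w z ≤ (2 * i + 1) * ν,
        ((coeff z (ω ^ Y * H) * ∏ j, ((z j).choose (α j) : ℤ) : ℤ) : K) * D.pw (F z) = 0 :=
      fun α hα i => by
    have Tm : D.Trm t x (fun z => coeff z (ω ^ Y * H) * ∏ j, ((z j).choose (α j) : ℤ)) F
        (fun z => (h0 + N * S + w z) / N) ((L₀ + 3) * R) η :=
      ⟨by positivity, hR ▸ size' d1 m1 ht (by exact_mod_cast H2) α, η0, fun z hz p => by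
          have a1 : (∑ j, (z j : ℝ) * κ j + N * s z) = h0 + N * S + w z := by
            exact_mod_cast (hw z hz).2.2
          refine le_of_eq_of_le (congrArg _ ?_) (hη ▸ sum_bd (ht hz) fun j => he j p)
          simp only [hF, D.co_n, ← a1, mul_sub, sum_sub_distrib, div_mul_eq_mul_div,
            ← mul_div_assoc, ← mul_assoc, ← sum_div, ← sum_mul]
          field_simp
          ring⟩
    have V1 := van Tm (σ₀ := (h0 + N * S) / N) (n := 2 * L * ν / N) T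
      (fun v => -((Y - K') * μ v) + (L₀ + 5) * R + 6 * S + 3 + 2 * η * D.lam v)
      (by positivity) (fun z hz => by
        have : (w z : ℝ) ≤ 2 * L * ν := by exact_mod_cast (W2 _ (hw z hz).1).1.le
        rw [← add_div]
        constructor <;> gcongr ?_ / _ <;> linarith [Nat.cast_nonneg (α := ℝ) (w z)])
      (fun v hv => by
        have p2 := D.lam_nonneg v
        have p3 : ∀ j, D.av v (D.pw (e j)) ≤ Real.exp (κ₀ / N * 1 + ε * D.lam v) := fun j => by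
          rw [← D.exp_lg v (D.pw_ne _), Real.exp_le_exp]
          have q1 := (abs_le.1 (D.near ε0 (he j) v)).2
          have q2 : κ j / N * D.lg v (D.pw x) ≤ κ₀ / N * 1 := by
            refine (le_abs_self _).trans ?_
            rw [abs_mul, abs_div, Nat.abs_cast]
            have : |(κ j : ℝ)| ≤ κ₀ := by exact_mod_cast hκ j
            have := A.unit v hv
            gcongr
          linarith
        have p4 : 0 ≤ κ₀ / N * 1 + ε * D.lam v := by positivity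
        have R1 := H96N.rowRAD K (D.av v) ρ Y G m d (2 * S + 1) ω H _ (D.pw x) t s α _ (μ v)
          ((L₀ + 3) * R) p4 (A.pos v hv) p3 ωG ωm (ωr v hv _ p4 p3) (A.apx v hv) (by
            rw [← D.exp_lg v (D.pw_ne _), Real.exp_le_exp]
            exact (abs_le.1 (A.unit v hv)).2) GY.le H1 ht H3
          (by simpa [hR] using size' d1 m1 H3 (by exact_mod_cast H4) 0)
          (by simpa [hR] using size' d1 m1 ht (by exact_mod_cast H2) 0) fun z hz => (hw z hz).2.1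
        refine le_of_eq_of_le (congrArg _ (by
          simp only [hF, D.pw_comb])) (R1.trans (Real.exp_le_exp.2 ?_))
        have q1 : (Y - K' : ℝ) * μ v ≤ (Y - ∑ j, (α j : ℝ)) * μ v :=
          mul_le_mul_of_nonneg_right (sub_le_sub_left (by exact_mod_cast hα.le) _) (A.pos v hv)
        have q2 : (ρ * d * (κ₀ / N) : ℝ) ≤ S := by
          rw [← mul_div_assoc, div_le_iff₀ N0, mul_comm (S : ℝ)]
          exact_mod_cast hS
        have q4 : (0 : ℝ) ≤ Y * m := by positivity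
        push_cast
        rw [hR, hη]
        linarith)
      (by
        have q1 : |((h0 + N * S) / N : ℝ)| ≤ S + 1 := by
          have : (h0 : ℝ) ≤ N := by exact_mod_cast hN.le
          rw [abs_of_nonneg (by positivity), div_le_iff₀ N0]
          linarith
        have q2 : ∑ v ∈ T, (|((h0 + N * S) / N : ℝ)| * |D.lg v (D.pw x)| +
            (-((Y - K') * μ v) + (L₀ + 5) * R + 6 * S + 3 + 2 * η * D.lam v)) ≤
            ∑ v ∈ T, (-((Y - K') * μ v) + (((L₀ + 5) * R + 7 * S + 4) + 2 * η * D.lam v)) :=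
          sum_le_sum fun v hv => by
            have := mul_le_mul q1 (A.unit v hv) (abs_nonneg _) (by positivity)
            linarith
        have q3 : ∑ v ∈ T, (((L₀ + 5) * R + 7 * S + 4) + 2 * η * D.lam v) ≤
            ∑ v, (((L₀ + 5) * R + 7 * S + 4) + 2 * η * D.lam v) :=
          sum_le_sum_of_subset_of_nonneg (subset_univ _) fun v _ _ => by
            have p2 := D.lam_nonneg v
            positivity
        rw [sum_add_distrib (f := fun v => -((Y - K') * μ v)), sum_neg_distrib, ← mul_sum] at q2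
        rw [sum_add_distrib (s := univ), ← mul_sum, sum_const, card_univ, nsmul_eq_mul] at q3
        have q4 := mul_le_mul_of_nonneg_left hΛ KY'
        have q6 : ∑ v, D.lam v = D.Lam := rfl
        rw [q6] at q3
        linarith)
    have U := spl Tm (σ₁ := (h0 + N * S + ((2 * i + 1) * ν : ℕ)) / N) (γ := ν / N)
      (fun z hz => by
        rcases (W2 _ (hw z hz).1).2 i with c | c
        · exact .inl (by gcongr)
        · refine .inr ?_
          have : ((2 * i + 2) * ν : ℝ) ≤ w z := by exact_mod_cast c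
          rw [← add_div]
          gcongr ?_ / _
          push_cast
          linarith) V1 (by linarith)
    simpa only [div_le_div_iff_of_pos_right N0, add_le_add_iff_left, Nat.cast_le] using U
  have fin : ∀ i : ℕ, ∀ z ∈ t, w z < 2 * i * ν → coeff z (ω ^ Y * H) = 0 := by
    intro i
    induction i with
    | zero => simp
    | succ i ih =>
      intro z hz c
      by_cases c1 : w z < 2 * i * ν
      · exact ih z hz c1
      have := zp Z (h0 + 2 * i * ν)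
        (t.filter fun z => w z ≤ (2 * i + 1) * ν ∧ 2 * i * ν ≤ w z)
        (fun z => ((coeff z (ω ^ Y * H) : ℤ) : K) * D.pw (F z)) hrel N1 d1 dK ν1
        EN EK (fun z hz => ?_) (fun α hα => ?_) z (mem_filter.2 ⟨hz, ?_, not_lt.1 c1⟩)
      · exact Int.cast_eq_zero.1 ((mul_eq_zero.1 this).resolve_right (D.pw_ne _))
      · obtain ⟨z1, z2, z3⟩ := mem_filter.1 hz
        refine ⟨fun j => (mem_bx.1 (ht z1) j).le, w z - 2 * i * ν, by
          rw [add_mul] at z2; omega, S - s z, ?_⟩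
        push_cast [Nat.cast_sub z3]
        linear_combination (hw z z1).2.2
      · rw [← key α hα i, ← filter_filter, sum_filter]
        refine sum_congr rfl fun z hz => ?_
        split_ifs with c2
        · push_cast
          ring
        · simp [ih z (mem_filter.1 hz).1 (not_le.1 c2)]
      · exact ((W2 _ (hw z hz).1).2 i).resolve_right (not_le.2 (by rwa [mul_add 2] at c))
  refine H0 (MvPolynomial.ext _ _ fun z => ?_)
  by_contra c
  exact c (fin (w z + 1) z (H1 (mem_support_iff.2 c)) (by nlinarith))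

/-- approximation to one -/
def RowGM : Prop :=
  ∀ k u : ℕ, 1 ≤ k → 1 ≤ u → ∃ C Q : ℕ, 1 ≤ C ∧ 1 ≤ Q ∧ ∀ (K V Γ I : Type) [Field K] [CharZero K]
    [Fintype V] [AddCommGroup Γ] (D : Dat K V Γ I) (x : Γ) (T : Finset V) (μ : V → ℝ)
    (Y M q n : ℕ) (Λ : ℝ), D.Apx x T μ Y → D.Col x T μ k q → D.Cov x Q n → q < M ^ k → 1 ≤ Λ →
    Λ ≤ ∑ v ∈ T, μ v → C * Fintype.card V ≤ Λ → D.Lam ≤ u * Λ → D.Ht x ≤ u * Y * Λ →
    Y * Λ ≤ u * D.Ht x → Y ≤ C * M * n

open H96N.GM (errs) in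
open H39.GM (count norel) in
theorem rowGM : RowGM := by
  intro k u hk hu
  choose gZ EZ hZP using H96N.allZ
  obtain ⟨G₀, hG₀⟩ := rowSTR k
    (fun G => ∑ ρ ∈ Finset.range (2 * k + 1), gZ ρ (4 * (64 * u * k * G + 1)))
  obtain ⟨E, hE1, hE⟩ : ∃ E, 1 ≤ E ∧ ∀ ρ ≤ 2 * k, ∀ G ≤ G₀,
      EZ ρ (4 * (64 * u * k * G + 1)) ≤ E ∧ gZ ρ (4 * (64 * u * k * G + 1)) ≤ E := by
    refine ⟨∑ q ∈ Finset.range (2 * k + 1) ×ˢ Finset.range (G₀ + 1),
      (EZ q.1 (4 * (64 * u * k * q.2 + 1)) + gZ q.1 (4 * (64 * u * k * q.2 + 1))) + 1,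
      by omega, fun ρ hρ G hG => ?_⟩
    have := Finset.single_le_sum (s := Finset.range (2 * k + 1) ×ˢ Finset.range (G₀ + 1))
      (f := fun q => EZ q.1 (4 * (64 * u * k * q.2 + 1)) + gZ q.1 (4 * (64 * u * k * q.2 + 1)))
      (fun _ _ => Nat.zero_le _) (a := (ρ, G)) (by simp; omega)
    simp only at this
    omega
  obtain ⟨δ, hδ⟩ : ∃ δ, δ = 64 * u * k * G₀ + 1 := ⟨_, rfl⟩
  obtain ⟨B, hB⟩ : ∃ B, B = 16 * u * E * u := ⟨_, rfl⟩
  obtain ⟨Q, hQ⟩ : ∃ Q, Q = 32 * B * k * δ * G₀ * u + G₀ + 1 := ⟨_, rfl⟩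
  obtain ⟨c₀, hc₀⟩ : ∃ c₀, c₀ = 4 * B * ((64 * u + 9) * (2 * k * δ + 2 * k) + 1) := ⟨_, rfl⟩
  obtain ⟨c₃, hc₃⟩ : ∃ c₃, c₃ = 2 * k * δ * G₀ := ⟨_, rfl⟩
  obtain ⟨c₅, hc₅⟩ : ∃ c₅, c₅ = 2 * k * E * G₀ := ⟨_, rfl⟩
  obtain ⟨C₁, hC₁⟩ : ∃ C₁, C₁ = Q + k + c₀ + (8 * c₃ + 4) + c₅ + 16 * u * E := ⟨_, rfl⟩
  refine ⟨2 * C₁, Q, by omega, by omega, ?_⟩
  intro K V Γ I _ _ _ _ D x T μ Y M q n' Λ hA hcol hcov hM hΛ hΛμ hW hLam hLA hLA'
  by_contra hY
  push Not at hY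
  have hM1 : 1 ≤ M := by
    rcases Nat.eq_zero_or_pos M with h0 | h0
    · rw [h0, zero_pow (by omega)] at hM; omega
    · exact h0
  have hQ1 : 1 ≤ Q := by omega
  obtain ⟨Z, hZ⟩ : ∃ Z, Z = M * n' := ⟨_, rfl⟩
  have hZ1 : 1 ≤ Z := by
    obtain ⟨cv, -⟩ := hcov
    rw [hZ]; exact Nat.mul_pos hM1 (cv 0).pos
  have hY2 : 2 * C₁ * Z < Y := by rwa [hZ, ← mul_assoc]
  have hY3 : 2 * C₁ ≤ 2 * C₁ * Z := Nat.le_mul_of_pos_right _ hZ1
  have hD : 0 < 16 * u * E := by positivity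
  obtain ⟨n, hn1, hnY, hYn⟩ : ∃ n, 1 ≤ n ∧ 16 * u * E * n ≤ Y ∧ Y ≤ 2 * (16 * u * E * n) := by
    have h1 : 1 ≤ Y / (16 * u * E) := (Nat.le_div_iff_mul_le hD).2 (by omega)
    refine ⟨Y / (16 * u * E), h1, Nat.mul_div_le _ _, ?_⟩
    have h2 := Nat.lt_mul_div_succ Y hD
    have h3 := Nat.mul_le_mul_left (16 * u * E) h1
    rw [mul_add] at h2
    omega
  obtain ⟨N, hN⟩ : ∃ N, N = 16 * u * E * n := ⟨_, rfl⟩
  have hN1 : 1 ≤ N := by rw [hN]; exact Nat.mul_pos hD hn1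
  rw [← hN] at hnY hYn
  have hYN : (Y : ℝ) ≤ 2 * N := by exact_mod_cast hYn
  have hNY : (N : ℝ) ≤ Y := by exact_mod_cast hnY
  have key' : ∀ c : ℕ, c ≤ C₁ → c * Z < N := fun c hc => by
    have h1 := Nat.mul_le_mul_right Z hc
    rw [mul_assoc] at hY2
    omega
  obtain ⟨ρ, G, κ, e, ω, hρ, hG, hω0, hωG, hω1, hκ, he, hrel, hnorm⟩ :=
    hG₀ K V Γ I D x T μ Q M N q n' (by omega) hN1 hcol hcov hM
      (by rw [mul_assoc, ← hZ]; exact (key' k (by omega)).le)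
  obtain ⟨δ₁, hδ₁⟩ : ∃ δ₁, δ₁ = 64 * u * k * G + 1 := ⟨_, rfl⟩
  have hδ₁δ : δ₁ ≤ δ := by
    rw [hδ₁, hδ]; exact Nat.add_le_add_right (Nat.mul_le_mul_left _ hG) _
  obtain ⟨hEZ, hgZ⟩ := hE ρ hρ G hG
  rw [← hδ₁] at hEZ hgZ
  have hκ' : ∀ j, |κ j| ≤ ((G₀ * Z : ℕ) : ℤ) := fun j => (hκ j).trans (le_of_eq (by
    rw [hZ]; push_cast; ring))
  have hB0 : (0 : ℝ) < B := by rw [hB]; positivity
  have hNr : (0 : ℝ) < N := by exact_mod_cast hN1
  have hGδ : G < δ₁ := by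
    have : G ≤ 64 * u * k * G := Nat.le_mul_of_pos_left _ (by positivity)
    omega
  have hEn : EZ ρ (4 * δ₁) * n ≤ 4 * u * E * n := by
    refine Nat.mul_le_mul_right _ (hEZ.trans ?_)
    exact Nat.le_mul_of_pos_left _ (by positivity)
  have hKN : N = 4 * (4 * u * E * n) := by rw [hN]; ring
  have hNℓ : 0 < (N : ℝ) * Λ := by positivity
  have hur : (1 : ℝ) ≤ u := by exact_mod_cast hu
  have hEr : (1 : ℝ) ≤ E := by exact_mod_cast hE1
  have hnr : (1 : ℝ) ≤ n := by exact_mod_cast hn1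
  have hA' : D.Apx x T μ N :=
    { hA with
      apx := fun v hv => (hA.apx v hv).trans (Real.exp_le_exp.2 (neg_le_neg
        (mul_le_mul_of_nonneg_right hNY (hA.pos v hv)))) }
  refine core D x T μ N ρ (4 * δ₁) (gZ ρ (4 * δ₁)) (EZ ρ (4 * δ₁)) G (2 * k) N
    (δ₁ * N) (4 * u * E * n) n E (32 * u) (ρ * δ₁ * (G₀ * Z)) (G₀ * Z) κ e ω
    ((G₀ : ℝ) / Q) (3 / 4 * (N * Λ / B)) Λ hA' (hZP _ _) hω0 hωG
    (by exact_mod_cast hω1) (by omega) hnorm hκ'
    (fun j p => by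
      rw [le_div_iff₀ (by exact_mod_cast hQ1), mul_comm]; exact he j p)
    (by positivity) ?_ (Nat.mul_lt_mul_of_pos_right hGδ hN1) ?_ (by omega) hn1 (by omega) hEn
    ?_ hN1 ?_ (le_of_eq (by ring)) ?_ hΛμ ?_ ?_
  · intro v hv hd
    refine hrel v (fun j => (hv j).trans ?_) (norel hκ' hv ?_ hd)
    · rw [hδ₁]
      exact_mod_cast Finset.single_le_sum (s := Finset.range (2 * k + 1))
        (f := fun ρ => gZ ρ (4 * (64 * u * k * G + 1))) (fun _ _ => Nat.zero_le _) (a := ρ)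
        (by simp; omega)
    · calc ρ * gZ ρ (4 * δ₁) * (G₀ * Z) ≤ 2 * k * E * (G₀ * Z) :=
            Nat.mul_le_mul_right _ (Nat.mul_le_mul hρ hgZ)
        _ = c₅ * Z := by rw [hc₅]; ring
        _ < N := key' _ (by omega)
  · rw [hKN]; exact le_of_eq (by ring)
  · rw [hN]
    exact Nat.mul_le_mul_right _ (Nat.mul_le_mul_right _ (by omega))
  · have h1 : 32 * u * (ρ * (G * N)) ≤ δ₁ * N := by
      calc 32 * u * (ρ * (G * N)) ≤ 32 * u * (2 * k * (G * N)) :=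
            Nat.mul_le_mul_left _ (Nat.mul_le_mul_right _ hρ)
        _ = 64 * u * k * G * N := by ring
        _ ≤ δ₁ * N := Nat.mul_le_mul_right _ (by omega)
    have h2 := count (E := E) (n := n) (Nat.mul_lt_mul_of_pos_right hGδ hN1) h1
    rwa [← hN] at h2
  · have hkr : (1 : ℝ) ≤ k := by exact_mod_cast hk
    have h3 : ρ * δ₁ * (G₀ * Z) ≤ c₃ * Z := by
      rw [hc₃, mul_assoc _ G₀]
      exact Nat.mul_le_mul_right _ (Nat.mul_le_mul hρ hδ₁δ)
    have h1 := errs (u := u) (k := k) (ρ := ρ) (δ₁ := δ₁) (δ := δ) (G₀ := G₀) (Q := Q) (B := B)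
      (N := N) (h := 0) (Λ := Λ) (La := D.Lam) (W := Fintype.card V)
      (S := (ρ * δ₁ * (G₀ * Z) : ℕ)) hur hkr (by positivity) (by exact_mod_cast hρ)
      (by positivity) (by exact_mod_cast hδ₁δ) (by positivity) hB0 (by exact_mod_cast hQ1)
      (by exact_mod_cast (by omega : 32 * B * k * δ * G₀ * u ≤ Q)) hNr.le hLam hΛ
      (by positivity) (le_trans (mul_le_mul_of_nonneg_right (by exact_mod_cast (by omega :
        4 * B * ((64 * u + 9) * (2 * k * δ + 2 * k) + 1) ≤ 2 * C₁)) (by positivity)) hW) ?_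
      (by simp)
    · push_cast at h1 ⊢
      linarith
    · have h4 := key' (8 * c₃ + 4) (by omega)
      rw [add_mul, mul_assoc] at h4
      exact_mod_cast (by omega : 8 * (ρ * δ₁ * (G₀ * Z)) + 4 ≤ N)
  · have h1 : (2 : ℝ) * E * n / N = 1 / (8 * u) := by
      rw [hN]; push_cast; field_simp; ring
    have h2 : (N : ℝ) - (4 * u * E * n : ℕ) = 3 / 4 * N := by
      rw [hN]; push_cast; ring
    have h3 : 1 / (8 * u) * D.Ht x ≤ 1 / 4 * (N * Λ) := by
      rw [one_div_mul_eq_div, div_le_iff₀ (by positivity)]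
      have := mul_le_mul_of_nonneg_right hYN (show (0 : ℝ) ≤ u * Λ by positivity)
      linarith
    have h4 : N * Λ / B ≤ 1 / 2 * (N * Λ) := by
      rw [div_le_iff₀ hB0]
      have h5 : (2 : ℝ) ≤ B := by
        have : 0 < u * E * u := by positivity
        exact_mod_cast (by rw [hB, mul_assoc 16, mul_assoc 16]; omega : 2 ≤ B)
      nlinarith
    rw [h1, h2]
    linarith
  · have h1 : (n : ℝ) / N = u / B := by
      rw [hN, hB]; push_cast; field_simp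
    have h2 : N * Λ / B ≤ u / B * D.Ht x := by
      rw [div_mul_eq_mul_div]
      refine div_le_div_of_nonneg_right ?_ hB0.le
      have := mul_le_mul_of_nonneg_right hNY (show (0 : ℝ) ≤ Λ by positivity)
      linarith
    have h3 : 0 < N * Λ / B := by positivity
    rw [h1]
    linarith

end Pool.Agent.MP_542436_nt.SZ
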