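import Pool.Agent.MP_542436_nt.H96N.All

/-! Primes of a number field: bounds that depend on the degree only. -/

set_option autoImplicit false

namespace Pool.Agent.MP_542436_nt.SZ

open NumberField IsDedekindDomain Finset
open Pool.Agent.MP_542436_nt.H96N (Pr lN av av_inl av_inr rowPF)
open Pool.Agent.MP_542436_nt.H96N.DEC (lN_pos N_gt)

variable {L : Type} [Field L] [NumberField L]

/-- the order at a prime -/
noncomputable def od (p : Pr L) (z : L) : ℝ := -Real.log (FinitePlace.mk p z) / lN p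

theorem log_eq (p : Pr L) (z : L) : Real.log (FinitePlace.mk p z) = -(od p z * lN p) := by
  rw [od, div_mul_cancel₀ _ (lN_pos p).ne', neg_neg]

theorem od_int (p : Pr L) (z : L) : ∃ o : ℤ, od p z = o := by
  rcases eq_or_ne z 0 with rfl | hz
  · exact ⟨0, by simp [od]⟩
  obtain ⟨o, ho⟩ := H96N.DEC.ord p hz
  refine ⟨-o, ?_⟩
  rw [od, ho, Real.log_zpow, div_eq_iff (lN_pos p).ne']
  push_cast
  rw [neg_mul]
  rfl

theorem od_mul (p : Pr L) {y z : L} (hy : y ≠ 0) (hz : z ≠ 0) :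
    od p (y * z) = od p y + od p z := by
  rw [od, od, od, map_mul, Real.log_mul (FinitePlace.pos_iff.2 hy).ne'
    (FinitePlace.pos_iff.2 hz).ne']
  ring

theorem od_div (p : Pr L) {y z : L} (hy : y ≠ 0) (hz : z ≠ 0) :
    od p (y / z) = od p y - od p z := by
  rw [od, od, od, map_div₀, Real.log_div (FinitePlace.pos_iff.2 hy).ne'
    (FinitePlace.pos_iff.2 hz).ne']
  ring

theorem one_of_od (p : Pr L) {z : L} (hz : z ≠ 0) (h : |od p z| < 1) :
    FinitePlace.mk p z = 1 := by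
  obtain ⟨o, ho⟩ := od_int p z
  have h1 : |o| < 1 := by rw [ho] at h; exact_mod_cast h
  have h2 : o = 0 := by rwa [Int.abs_lt_one_iff] at h1
  have h3 := log_eq p z
  rw [ho, h2, Int.cast_zero, zero_mul, neg_zero] at h3
  rw [← Real.exp_log (FinitePlace.pos_iff.2 hz), h3, Real.exp_zero]

theorem od_nonneg (p : Pr L) {z : L} (h : FinitePlace.mk p z ≤ 1) : 0 ≤ od p z :=
  div_nonneg (neg_nonneg.2 (Real.log_nonpos (apply_nonneg _ _) h)) (lN_pos p).le

theorem one_le_od (p : Pr L) {z : L} (hz : z ≠ 0) (h : FinitePlace.mk p z < 1) : 1 ≤ od p z := by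
  by_contra h1
  exact h.ne (one_of_od p hz (by rw [abs_of_nonneg (od_nonneg p h.le)]; exact not_le.1 h1))

theorem half_le_lN (p : Pr L) : 1 / 2 ≤ lN p := by
  have h : (2 : ℝ) ≤ (Ideal.absNorm p.asIdeal : ℕ) := by
    exact_mod_cast HeightOneSpectrum.one_lt_absNorm p
  exact le_trans (by linarith [Real.log_two_gt_d9]) (Real.log_le_log two_pos h)

/-- the product formula -/
theorem pf (U : Finset (Pr L)) {z : L} (hz : z ≠ 0) (h : ∀ p ∉ U, FinitePlace.mk p z ≤ 1) :
    ∑ p ∈ U, od p z * lN p ≤ ∑ φ : L →+* ℂ, Real.log ‖φ z‖ := by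
  have h1 := (rowPF L U z).1 hz h
  rw [Fintype.sum_sum_type] at h1
  simp only [av_inl, av_inr, log_eq] at h1
  rw [sum_coe_sort U fun p => -(od p z * lN p), sum_neg_distrib] at h1
  linarith

theorem nat_le_one (p : Pr L) (r : ℕ) : FinitePlace.mk p (r : L) ≤ 1 := by
  simpa using H96N.DEC.int_le p (r : 𝓞 L)

theorem sum_lN {r : ℕ} (hr : r ≠ 0) (U : Finset (Pr L))
    (h : ∀ p ∈ U, FinitePlace.mk p (r : L) < 1) :
    ∑ p ∈ U, lN p ≤ Module.finrank ℚ L * Real.log r := by
  have r0 : (r : L) ≠ 0 := Nat.cast_ne_zero.2 hr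
  refine le_trans (sum_le_sum fun p hp => le_mul_of_one_le_left (lN_pos p).le
    (one_le_od p r0 (h p hp))) ((pf U r0 fun p _ => nat_le_one p r).trans_eq ?_)
  simp [Embeddings.card]

theorem card_norm (m : ℕ) (U : Finset (Pr L)) (h : ∀ p ∈ U, Ideal.absNorm p.asIdeal = m) :
    U.card ≤ Module.finrank ℚ L := by
  rcases U.eq_empty_or_nonempty with rfl | ⟨q, hq⟩
  · simp
  have m1 : 1 < m := h q hq ▸ HeightOneSpectrum.one_lt_absNorm q
  have h1 := sum_lN (r := m) (by omega) U fun p hp => by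
    have := (FinitePlace.norm_lt_one_iff_mem L p (m : 𝓞 L)).2 (h p hp ▸ Ideal.absNorm_mem _)
    simpa [FinitePlace.mk_apply] using this
  rw [sum_congr rfl (g := fun _ => Real.log m) fun p hp => by rw [lN, h p hp], sum_const,
    nsmul_eq_mul] at h1
  exact_mod_cast le_of_mul_le_mul_right h1 (Real.log_pos (by exact_mod_cast m1))

theorem sum_norm (U : Finset (Pr L)) (g : ℕ → ℝ) (hg : ∀ m, 0 ≤ g m) :
    ∑ p ∈ U, g (Ideal.absNorm p.asIdeal) ≤
      Module.finrank ℚ L * ∑ m ∈ U.image fun p => Ideal.absNorm p.asIdeal, g m := by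
  classical
  rw [sum_comp g fun p : Pr L => Ideal.absNorm p.asIdeal, mul_sum]
  refine sum_le_sum fun m _ => ?_
  rw [nsmul_eq_mul]
  exact mul_le_mul_of_nonneg_right
    (by exact_mod_cast card_norm m _ fun p hp => (mem_filter.1 hp).2) (hg m)

/-- few primes of small norm -/
theorem cnt (d : ℕ) (c ε : ℝ) (hε : 0 < ε) : ∃ C : ℝ, 0 ≤ C ∧ ∀ (L : Type) [Field L]
    [NumberField L], Module.finrank ℚ L ≤ d → ∀ S : Finset (Pr L),
      c * S.card ≤ ε * ∑ p ∈ S, lN p + C := by
  classical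
  obtain ⟨B, hB⟩ := exists_nat_ge (Real.exp (c / ε))
  refine ⟨d * (B * |c|), by positivity, fun L _ _ hd S => ?_⟩
  have h1 : ∀ p : Pr L, c ≤ ε * lN p +
      (fun m : ℕ => if m ∈ range B then |c| else 0) (Ideal.absNorm p.asIdeal) := fun p => by
    have h0 : 0 ≤ lN p := (lN_pos p).le
    beta_reduce
    split_ifs with h
    · linarith [le_abs_self c, mul_nonneg hε.le h0]
    · have h2 : Real.exp (c / ε) ≤ (Ideal.absNorm p.asIdeal : ℕ) :=
        hB.trans (Nat.cast_le.2 (le_of_not_gt fun e => h (mem_range.2 e)))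
      have h3 : c / ε ≤ lN p := (Real.le_log_iff_exp_le ((Real.exp_pos _).trans_le h2)).2 h2
      rw [div_le_iff₀ hε] at h3
      linarith
  have h4 := sum_le_sum fun p (_ : p ∈ S) => h1 p
  rw [sum_const, nsmul_eq_mul, sum_add_distrib, ← mul_sum] at h4
  have h5 := sum_norm S (fun m : ℕ => if m ∈ range B then |c| else 0) fun m => by
    split_ifs <;> simp
  have h6 : ∑ m ∈ S.image fun p => Ideal.absNorm p.asIdeal,
      (if m ∈ range B then |c| else 0) ≤ B * |c| := by
    rw [← sum_filter, sum_const, nsmul_eq_mul]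
    refine mul_le_mul_of_nonneg_right ?_ (abs_nonneg c)
    exact_mod_cast (card_le_card fun m hm => (mem_filter.1 hm).2).trans_eq (card_range B)
  have h7 : (Module.finrank ℚ L : ℝ) ≤ d := by exact_mod_cast hd
  have h8 := h5.trans (mul_le_mul h7 h6 (sum_nonneg fun m _ => by split_ifs <;> simp)
    (by positivity))
  linarith

theorem geom {r : ℝ} (h0 : 0 ≤ r) (h : r ≤ 1 / 2) (B : ℕ) :
    ∑ j ∈ range B, r ^ j ≤ Real.exp (2 * r) := by
  have h1 : ∑ j ∈ range B, r ^ j ≤ (1 - r)⁻¹ := by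
    rw [← tsum_geometric_of_lt_one h0 (by linarith)]
    exact (summable_geometric_of_lt_one h0 (by linarith)).sum_le_tsum _ fun _ _ => by positivity
  refine h1.trans (le_trans ?_ (Real.add_one_le_exp _))
  rw [inv_le_iff_one_le_mul₀ (by linarith)]
  nlinarith

/-- few ideals of small norm -/
theorem rankin (d : ℕ) (ε : ℝ) (hε : 0 < ε) : ∃ C : ℝ, 0 ≤ C ∧ ∀ (L : Type) [Field L]
    [NumberField L], Module.finrank ℚ L ≤ d → ∀ y : ℝ,
      ∃ (P : Finset (Pr L)) (F : Finset (P → ℕ)), (F.card : ℝ) ≤ C * Real.exp ((1 + ε) * y) ∧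
        ∀ v : Pr L → ℕ, (∀ U : Finset (Pr L), ∑ p ∈ U, v p * lN p ≤ y) →
          (fun p : P => v p) ∈ F ∧ ∀ p ∉ P, v p = 0 := by
  classical
  have hs : Summable fun m : ℕ => (m : ℝ) ^ (-(1 + ε)) :=
    Real.summable_nat_rpow.2 (by linarith)
  refine ⟨Real.exp (2 * (d * ∑' m : ℕ, (m : ℝ) ^ (-(1 + ε)))), (Real.exp_pos _).le,
    fun L _ _ hd y => ?_⟩
  obtain ⟨X, hX⟩ := exists_nat_ge (Real.exp y)
  obtain ⟨B, hB⟩ := exists_nat_gt (2 * y)
  have hF : {p : Pr L | Ideal.absNorm p.asIdeal ≤ X}.Finite :=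
    (Ideal.finite_setOfPred_absNorm_le (S := 𝓞 L) X).preimage
      (f := fun p : Pr L => p.asIdeal) fun _ _ _ _ h => HeightOneSpectrum.ext h
  set P := hF.toFinset
  refine ⟨P, (Fintype.piFinset fun _ : P => range B).filter
    fun v => ∑ p, v p * lN p.1 ≤ y, ?_, fun v hv => ⟨mem_filter.2 ⟨Fintype.mem_piFinset.2
      fun p => mem_range.2 ?_, ?_⟩, fun p hp => ?_⟩⟩
  · let r : P → ℝ := fun p => Real.exp (-((1 + ε) * lN p.1))
    have r1 : ∀ p, r p = (Ideal.absNorm p.1.asIdeal : ℝ) ^ (-(1 + ε)) := fun p => by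
      refine Eq.trans ?_ (Real.rpow_def_of_pos (zero_lt_one.trans (N_gt p.1)) _).symm
      change Real.exp _ = Real.exp (lN p.1 * _)
      congr 1
      ring
    have r2 : ∀ p, r p ≤ 1 / 2 := fun p => by
      have h : (2 : ℝ) ≤ (Ideal.absNorm p.1.asIdeal : ℕ) := by
        exact_mod_cast HeightOneSpectrum.one_lt_absNorm p.1
      have h2 : Real.log 2 ≤ lN p.1 := Real.log_le_log two_pos h
      rw [one_div, ← Real.exp_log two_pos, ← Real.exp_neg]
      exact Real.exp_le_exp.2 (by nlinarith [lN_pos p.1])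
    calc _ = ∑ _v ∈ (Fintype.piFinset fun _ : P => range B).filter
          fun v => ∑ p, v p * lN p.1 ≤ y, (1 : ℝ) := by simp
      _ ≤ ∑ v ∈ (Fintype.piFinset fun _ : P => range B).filter
          fun v => ∑ p, v p * lN p.1 ≤ y, Real.exp ((1 + ε) * y) * ∏ p, r p ^ v p :=
        sum_le_sum fun v hv => by
          simp only [r, ← Real.exp_nat_mul, ← Real.exp_sum, ← Real.exp_add]
          refine Real.one_le_exp ?_
          have h1 := mul_le_mul_of_nonneg_left (mem_filter.1 hv).2 (by linarith : 0 ≤ 1 + ε)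
          rw [mul_sum] at h1
          rw [sum_congr rfl (g := fun p : P => -((1 + ε) * (v p * lN p.1))) fun p _ => by ring,
            sum_neg_distrib]
          linarith
      _ ≤ ∑ v ∈ Fintype.piFinset fun _ : P => range B,
          Real.exp ((1 + ε) * y) * ∏ p, r p ^ v p :=
        sum_le_sum_of_subset_of_nonneg (filter_subset _ _) fun v _ _ => by positivity
      _ = Real.exp ((1 + ε) * y) * ∏ p, ∑ j ∈ range B, r p ^ j := by
        rw [← mul_sum, prod_univ_sum]
      _ ≤ Real.exp ((1 + ε) * y) * ∏ p, Real.exp (2 * r p) :=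
        mul_le_mul_of_nonneg_left (prod_le_prod (fun p _ => by positivity)
          fun p _ => geom (Real.exp_pos _).le (r2 p) B) (Real.exp_pos _).le
      _ ≤ _ := by
        rw [mul_comm, ← Real.exp_sum, ← mul_sum]
        gcongr
        simp only [r1]
        rw [sum_coe_sort P fun p => (Ideal.absNorm p.asIdeal : ℝ) ^ (-(1 + ε))]
        refine (sum_norm P (fun m => (m : ℝ) ^ (-(1 + ε))) fun m => by positivity).trans ?_
        exact mul_le_mul (by exact_mod_cast hd) (hs.sum_le_tsum _ fun _ _ => by positivity)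
          (by positivity) (by positivity)
  · have h1 := hv {p.1}
    rw [sum_singleton] at h1
    have h2 := mul_le_mul_of_nonneg_left (half_le_lN p.1) (Nat.cast_nonneg (α := ℝ) (v p))
    exact_mod_cast (by linarith : (v p : ℝ) < B)
  · exact (sum_coe_sort P fun p => (v p : ℝ) * lN p).trans_le (hv P)
  · by_contra h0
    have h1 := hv {p}
    rw [sum_singleton] at h1
    have h2 : (1 : ℝ) ≤ v p := by exact_mod_cast Nat.pos_of_ne_zero h0
    have h3 : lN p ≤ y := (le_mul_of_one_le_left (lN_pos p).le h2).trans h1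
    have h4 := ((Real.log_le_iff_le_exp (zero_lt_one.trans (N_gt p))).1 h3).trans hX
    exact hp (hF.mem_toFinset.2 (Nat.cast_le.1 h4))

/-- units with small logarithms are roots of unity -/
theorem kron (d : ℕ) : ∃ (W : ℕ) (c : ℝ), 0 < W ∧ 0 < c ∧ c ≤ 1 ∧ ∀ (L : Type) [Field L]
    [NumberField L], Module.finrank ℚ L ≤ d → ∀ u : L, u ≠ 0 →
      (∀ p : Pr L, FinitePlace.mk p u = 1) → (∀ φ : L →+* ℂ, Real.log ‖φ u‖ ≤ c) → u ^ W = 1 := by
  classical
  obtain ⟨C, hC⟩ := exists_nat_ge ((3 : ℝ) ^ d * 2 ^ d)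
  have hF := Polynomial.bUnion_roots_finite (algebraMap ℤ ℂ) d (Set.finite_Icc (-C : ℤ) C)
  obtain ⟨n, hn⟩ : ∃ n, n = hF.toFinset.card := ⟨_, rfl⟩
  refine ⟨n.factorial, 1 / (n + 1), n.factorial_pos, by positivity, ?_,
    fun L _ _ hd u u0 hu hφ => ?_⟩
  · rw [div_le_one (by positivity)]
    linarith [Nat.cast_nonneg (α := ℝ) n]
  obtain ⟨g, hg⟩ := H96N.DEC.int_of hu
  obtain ⟨φ₀⟩ : Nonempty (L →+* ℂ) := inferInstance
  have mem : ∀ i ∈ range (n + 1), φ₀ (u ^ i) ∈ hF.toFinset := fun i hi => by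
    have hx : IsIntegral ℤ (u ^ i) := IsIntegral.pow (by rw [← hg]; exact g.isIntegral_coe) i
    have hb : ∀ φ : L →+* ℂ, ‖φ (u ^ i)‖ ≤ 3 := fun φ => by
      rw [map_pow, norm_pow, ← Real.exp_log (norm_pos_iff.2 ((map_ne_zero φ).2 u0)),
        ← Real.exp_nat_mul]
      refine le_trans (Real.exp_le_exp.2 ?_) Real.exp_one_lt_three.le
      refine (mul_le_mul_of_nonneg_left (hφ φ) (Nat.cast_nonneg i)).trans ?_
      rw [mul_one_div, div_le_one (by positivity)]
      exact_mod_cast (mem_range.1 hi).le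
    rw [Set.Finite.mem_toFinset]
    simp_rw [Set.mem_iUnion]
    have hm := minpoly.isIntegrallyClosed_eq_field_fractions' ℚ hx
    refine ⟨minpoly ℤ (u ^ i), ⟨?_, fun j => ?_⟩, Polynomial.mem_rootSet.2
      ⟨minpoly.ne_zero hx, ?_⟩⟩
    · rw [← (minpoly.monic hx).natDegree_map (algebraMap ℤ ℚ), ← hm]
      exact (minpoly.natDegree_le _).trans hd
    · rw [Set.mem_Icc, ← abs_le, ← @Int.cast_le ℝ]
      refine (Eq.trans_le ?_ <| Embeddings.coeff_bdd_of_norm_le hb j).trans (le_trans ?_ hC)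
      · rw [hm, Polynomial.coeff_map, eq_intCast, Int.norm_cast_rat, Int.norm_eq_abs, Int.cast_abs]
      · rw [max_eq_left (by norm_num)]
        refine mul_le_mul (pow_le_pow_right₀ (by norm_num) hd) ?_ (by positivity) (by positivity)
        exact_mod_cast (Nat.choose_le_two_pow _ _).trans (Nat.pow_le_pow_right two_pos hd)
    · have := Polynomial.aeval_algHom_apply φ₀.toIntAlgHom (u ^ i) (minpoly ℤ (u ^ i))
      rw [minpoly.aeval, map_zero] at this
      exact this
  obtain ⟨a, ha, b, hb, hab, h⟩ := exists_ne_map_eq_of_card_lt_of_maps_to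
    (by rw [card_range, hn]; exact Nat.lt_succ_self _) mem
  replace h := φ₀.injective h
  wlog hlt : b < a generalizing a b
  · exact this b hb a ha hab.symm h.symm (by omega)
  obtain ⟨e, rfl⟩ := Nat.exists_eq_add_of_lt hlt
  rw [add_assoc, pow_add, mul_eq_left₀ (pow_ne_zero _ u0)] at h
  obtain ⟨f, hf⟩ : e + 1 ∣ n.factorial :=
    Nat.dvd_factorial (by omega) (by have := mem_range.1 ha; omega)
  rw [hf, pow_mul, h, one_pow]

end Pool.Agent.MP_542436_nt.SZ
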