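import Pool.Agent.MP_542436_nt.SZ.C1

/-! The colouring of a line by the theorem of Minkowski. -/

set_option autoImplicit false

namespace Pool.Agent.MP_542436_nt.SZ

open NumberField IsDedekindDomain Finset
open scoped nonZeroDivisors
open Pool.Agent.MP_542436_nt.H96N (Pr lN)
open Pool.Agent.MP_542436_nt.H96N.DEC (lN_pos N_gt int_le)

variable {L : Type} [Field L] [NumberField L]

/-- all elements of a fractional ideal are bounded at a prime -/
def Bd (q : Pr L) (I : FractionalIdeal (𝓞 L)⁰ L) (c : ℝ) : Prop :=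
  ∀ a ∈ I, FinitePlace.mk q a ≤ Real.exp c

theorem Bd.mul {q : Pr L} {I J : FractionalIdeal (𝓞 L)⁰ L} {b c : ℝ} (hI : Bd q I b)
    (hJ : Bd q J c) : Bd q (I * J) (b + c) := fun a ha =>
  FractionalIdeal.mul_induction_on (C := fun a => FinitePlace.mk q a ≤ Real.exp (b + c)) ha
    (fun i hi j hj => by
      rw [map_mul, Real.exp_add]
      exact mul_le_mul (hI i hi) (hJ j hj) (apply_nonneg _ _) (Real.exp_pos _).le)
    fun x y hx hy => (FinitePlace.add_le _ _ _).trans (max_le hx hy)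

theorem bd_one (q : Pr L) : Bd q 1 0 := fun a ha => by
  obtain ⟨g, rfl⟩ := (FractionalIdeal.mem_one_iff _).1 ha
  rw [Real.exp_zero]
  exact int_le q g

theorem Bd.pow {q : Pr L} {I : FractionalIdeal (𝓞 L)⁰ L} {b : ℝ} (hI : Bd q I b) (n : ℕ) :
    Bd q (I ^ n) (n * b) := by
  induction n with
  | zero => simpa using bd_one q
  | succ n ih =>
    rw [pow_succ, Nat.cast_succ, add_one_mul]
    exact ih.mul hI

open scoped Classical in
theorem bd_self (q p : Pr L) : Bd q p.asIdeal (-if q = p then lN p else 0) := fun a ha => by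
  obtain ⟨g, hg, rfl⟩ := (FractionalIdeal.mem_coeIdeal _).1 ha
  split_ifs with h
  · subst h
    simpa using H96N.COLF.le_of_val q 1 ((q.valuation_of_algebraMap (K := L) g).trans_le
      ((q.intValuation_le_pow_iff_mem g 1).2 (by simpa using hg)))
  · simpa using int_le q g

open scoped Classical in
theorem bd_inv (q p : Pr L) :
    Bd q (p.asIdeal : FractionalIdeal (𝓞 L)⁰ L)⁻¹ (if q = p then lN p else 0) := fun a ha => by
  have key : ∀ g ∈ p.asIdeal, FinitePlace.mk q a * FinitePlace.mk q (g : L) ≤ 1 := fun g hg => by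
    have := bd_one q _ ((FractionalIdeal.mem_inv_iff (FractionalIdeal.coeIdeal_ne_zero.2
      p.ne_bot)).1 ha _ (FractionalIdeal.mem_coeIdeal_of_mem _ hg))
    rwa [map_mul, Real.exp_zero] at this
  split_ifs with h
  · subst h
    obtain ⟨g, hg⟩ := q.intValuation_exists_uniformizer
    have h1 := key g (by simpa using (q.intValuation_le_pow_iff_mem g 1).1 (by simp [hg]))
    have h2 : FinitePlace.mk q (g : L) = (H96N.DEC.N q)⁻¹ := by
      have h3 : q.valuation L (g : L) = WithZero.exp (-1 : ℤ) :=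
        (q.valuation_of_algebraMap (K := L) g).trans hg
      rw [FinitePlace.mk_apply, FinitePlace.norm_embedding', h3,
        WithZeroMulInt.toNNReal_neg_apply _ (WithZero.exp_ne_zero (a := (-1 : ℤ)))]
      have h4 : Multiplicative.toAdd (WithZero.unzero (WithZero.exp_ne_zero (a := (-1 : ℤ)))) =
        (-1 : ℤ) := rfl
      rw [h4, zpow_neg_one]
      simp [H96N.DEC.N]
    have h0 := zero_lt_one.trans (N_gt q)
    rw [h2, mul_inv_le_iff₀ h0, one_mul] at h1
    exact h1.trans_eq (Real.exp_log h0).symm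
  · obtain ⟨g, hg, hq⟩ : ∃ g ∈ p.asIdeal, g ∉ q.asIdeal := by
      by_contra c
      push Not at c
      exact h (HeightOneSpectrum.ext (p.isMaximal.eq_of_le q.isPrime.ne_top c)).symm
    have h1 := key g hg
    rw [show FinitePlace.mk q (g : L) = 1 from (FinitePlace.norm_eq_one_iff_notMem L q g).2 hq,
      mul_one] at h1
    simpa using h1

open scoped Classical in
theorem bd_prod (q : Pr L) (S : Finset (Pr L)) (m : Pr L → ℤ) :
    Bd q (∏ p ∈ S, (p.asIdeal : FractionalIdeal (𝓞 L)⁰ L) ^ m p)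
      (-((if q ∈ S then (m q : ℝ) else 0) * lN q)) := by
  have h1 : ∀ p, Bd q ((p.asIdeal : FractionalIdeal (𝓞 L)⁰ L) ^ m p)
      (-(m p * if q = p then lN p else 0)) := fun p => by
    obtain ⟨n, h | h⟩ := (m p).eq_nat_or_neg <;> rw [h]
    · simpa using (bd_self q p).pow n
    · rw [zpow_neg, zpow_natCast, ← inv_pow, Int.cast_neg, neg_mul, neg_neg, Int.cast_natCast]
      exact (bd_inv q p).pow n
  have h2 : Bd q (∏ p ∈ S, (p.asIdeal : FractionalIdeal (𝓞 L)⁰ L) ^ m p)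
      (∑ p ∈ S, -(m p * if q = p then lN p else 0)) := by
    induction S using Finset.induction_on with
    | empty => simpa using bd_one q
    | insert a s ha ih =>
      rw [prod_insert ha, sum_insert ha]
      exact (h1 a).mul ih
  simpa using h2

open scoped Classical in
/-- the theorem of Minkowski with conditions at all places -/
theorem mink (S : Finset (Pr L)) (m : Pr L → ℤ) (f : InfinitePlace L → ℝ)
    (h : ∑ p ∈ S, m p * lN p + Module.finrank ℚ L * Real.log 2 + Real.log |(discr L : ℝ)| / 2 <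
      ∑ w, w.mult * f w) :
    ∃ a : L, a ≠ 0 ∧ (∀ q : Pr L, (if q ∈ S then (m q : ℝ) else 0) ≤ od q a) ∧
      ∀ w : InfinitePlace L, Real.log (w a) ≤ f w := by
  have I0 : ∏ p ∈ S, (p.asIdeal : FractionalIdeal (𝓞 L)⁰ L) ^ m p ≠ 0 :=
    prod_ne_zero_iff.2 fun p _ => zpow_ne_zero _ (FractionalIdeal.coeIdeal_ne_zero.2 p.ne_bot)
  have D0 : (0 : ℝ) < |(discr L : ℝ)| := abs_pos.2 (Int.cast_ne_zero.2 (discr_ne_zero L))
  obtain ⟨a, ha, a0, hw⟩ := mixedEmbedding.exists_ne_zero_mem_ideal_lt L (Units.mk0 _ I0)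
    (f := fun w => ⟨Real.exp (f w), (Real.exp_pos _).le⟩) (by
      have n1 : ((FractionalIdeal.absNorm
          (∏ p ∈ S, (p.asIdeal : FractionalIdeal (𝓞 L)⁰ L) ^ m p) : ℚ) : ℝ) =
          Real.exp (∑ p ∈ S, m p * lN p) := by
        rw [map_prod, Real.exp_sum, Rat.cast_prod]
        refine prod_congr rfl fun p _ => ?_
        rw [map_zpow₀, FractionalIdeal.coeIdeal_absNorm, Rat.cast_zpow, Rat.cast_natCast,
          mul_comm, Real.exp_mul, Real.rpow_intCast, lN,
          Real.exp_log (by exact zero_lt_one.trans (N_gt p))]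
      rw [mixedEmbedding.minkowskiBound,
        mixedEmbedding.volume_fundamentalDomain_fractionalIdealLatticeBasis,
        mixedEmbedding.volume_fundamentalDomain_latticeBasis, mixedEmbedding.finrank,
        mixedEmbedding.convexBodyLT_volume, Units.val_mk0, n1]
      calc _ ≤ ENNReal.ofReal (Real.exp (∑ p ∈ S, m p * lN p)) *
            (1 * ENNReal.ofReal (Real.exp (Real.log |(discr L : ℝ)| / 2))) *
            ENNReal.ofReal (Real.exp (Module.finrank ℚ L * Real.log 2)) := by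
            gcongr
            · exact pow_le_one₀ (by positivity) (by simp)
            · rw [← ENNReal.ofReal_coe_nnreal, Real.coe_sqrt, coe_nnnorm, Int.norm_eq_abs,
                ← Real.log_sqrt D0.le, Real.exp_log (Real.sqrt_pos.2 D0)]
            · rw [Real.exp_nat_mul, Real.exp_log two_pos, ENNReal.ofReal_pow zero_le_two,
                ENNReal.ofReal_ofNat]
        _ < ENNReal.ofReal (Real.exp (∑ w, w.mult * f w)) := by
            rw [one_mul, ← ENNReal.ofReal_mul (Real.exp_pos _).le,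
              ← ENNReal.ofReal_mul (by positivity), ENNReal.ofReal_lt_ofReal_iff (Real.exp_pos _),
              ← Real.exp_add, ← Real.exp_add, Real.exp_lt_exp]
            linarith
        _ ≤ _ := by
            refine le_trans (le_of_eq ?_) (le_mul_of_one_le_left (zero_le)
              (by exact_mod_cast mixedEmbedding.one_le_convexBodyLTFactor L))
            rw [← ENNReal.ofReal_coe_nnreal, Real.exp_sum]
            congr 1
            push_cast
            exact prod_congr rfl fun w _ => Real.exp_nat_mul _ _)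
  refine ⟨a, a0, fun q => ?_, fun w => ?_⟩
  · have h1 := (Real.log_le_iff_le_exp (FinitePlace.pos_iff.2 a0)).2 (bd_prod q S m a ha)
    rw [log_eq, neg_le_neg_iff] at h1
    exact le_of_mul_le_mul_right h1 (lN_pos q)
  · exact (Real.log_le_iff_le_exp (InfinitePlace.pos_iff.2 a0)).2 (hw w).le

/-- the sum of the logarithms of the conjugates -/
noncomputable def nm (z : L) : ℝ := ∑ φ : L →+* ℂ, Real.log ‖φ z‖

/-- the balanced logarithm -/
noncomputable def ar (φ : L →+* ℂ) (z : L) : ℝ := Real.log ‖φ z‖ - nm z / Module.finrank ℚ L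

theorem sum_ar (z : L) : ∑ φ, ar φ z = 0 := by
  have : (Module.finrank ℚ L : ℝ) ≠ 0 := Nat.cast_ne_zero.2 Module.finrank_pos.ne'
  simp only [ar, sum_sub_distrib, sum_const, card_univ, Embeddings.card, nsmul_eq_mul]
  rw [mul_div_cancel₀ _ this, nm, sub_self]

theorem ar_mul (φ : L →+* ℂ) {y z : L} (hy : y ≠ 0) (hz : z ≠ 0) :
    ar φ (y * z) = ar φ y + ar φ z := by
  have : ∀ ψ : L →+* ℂ, Real.log ‖ψ (y * z)‖ = Real.log ‖ψ y‖ + Real.log ‖ψ z‖ := fun ψ => by
    rw [map_mul, norm_mul, Real.log_mul (norm_ne_zero_iff.2 ((map_ne_zero ψ).2 hy))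
      (norm_ne_zero_iff.2 ((map_ne_zero ψ).2 hz))]
  simp only [ar, nm, this, sum_add_distrib]
  ring

theorem ar_div (φ : L →+* ℂ) {y z : L} (hy : y ≠ 0) (hz : z ≠ 0) :
    ar φ (y / z) = ar φ y - ar φ z := by
  rw [eq_sub_iff_add_eq, ← ar_mul φ (div_ne_zero hy hz) hz, div_mul_cancel₀ _ hz]

open scoped Classical in
/-- the element attached to a point of the line -/
theorem point (S : Finset (Pr L)) (δ : L) (t y : ℝ)
    (hy : Module.finrank ℚ L * Real.log 2 + Real.log |(discr L : ℝ)| / 2 < y) (y0 : 0 ≤ y) :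
    ∃ (a : L) (v : Pr L → ℕ), a ≠ 0 ∧
      (∀ q, od q a = (if q ∈ S then (⌊t * od q δ⌋ : ℝ) else 0) + v q) ∧
      (∀ U : Finset (Pr L), ∑ p ∈ U, v p * lN p ≤ y) ∧ ∀ φ, |ar φ a - t * ar φ δ| ≤ y := by
  have n1 : (1 : ℝ) ≤ Module.finrank ℚ L := by exact_mod_cast Module.finrank_pos
  obtain ⟨n, hn⟩ : ∃ n : ℝ, n = Module.finrank ℚ L := ⟨_, rfl⟩
  obtain ⟨μ, hμ⟩ : ∃ μ : ℝ, μ = ∑ p ∈ S, (⌊t * od p δ⌋ : ℤ) * lN p := ⟨_, rfl⟩
  have s0 : ∑ φ : L →+* ℂ, (t * ar φ δ + (y + μ) / n) = y + μ := by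
    rw [sum_add_distrib, ← mul_sum, sum_ar, sum_const, card_univ, Embeddings.card, nsmul_eq_mul,
      ← hn, mul_div_cancel₀ _ (by linarith)]
    ring
  obtain ⟨a, a0, h1, h2⟩ := mink S (fun p => ⌊t * od p δ⌋)
    (fun w => t * (Real.log (w δ) - nm δ / n) + (y + μ) / n) (by
      have := H96N.PF.split (∅ : Finset (Pr L)) δ
        fun s => t * (Real.log s - nm δ / n) + (y + μ) / n
      rw [sum_empty, add_zero, Fintype.sum_sum_type] at this
      simp only [H96N.av_inl, univ_eq_empty, sum_empty, add_zero] at this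
      rw [← this, ← hμ]
      simp only [ar, ← hn] at s0
      linarith)
  have h3 : ∀ φ : L →+* ℂ, Real.log ‖φ a‖ ≤ t * ar φ δ + (y + μ) / n := fun φ => by
    have := h2 (InfinitePlace.mk φ)
    rwa [InfinitePlace.apply, InfinitePlace.apply, hn, ← ar, ← hn] at this
  have h4 : nm a ≤ y + μ := (sum_le_sum fun φ _ => h3 φ).trans_eq s0
  have ex : ∀ q, ∃ k : ℕ, od q a = (if q ∈ S then (⌊t * od q δ⌋ : ℝ) else 0) + k := fun q => by
    obtain ⟨o, ho⟩ := od_int q a
    have := h1 q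
    rw [ho] at this ⊢
    split_ifs at this ⊢
    · obtain ⟨k, hk⟩ := Int.le.dest (Int.cast_le.1 this)
      exact ⟨k, by exact_mod_cast hk.symm⟩
    · obtain ⟨k, hk⟩ := Int.le.dest (Int.cast_nonneg_iff.1 this)
      exact ⟨k, by exact_mod_cast hk.symm⟩
  choose v hv using ex
  have h5 : ∀ U : Finset (Pr L), S ⊆ U → μ + ∑ p ∈ U, v p * lN p ≤ nm a := fun U hU => by
    refine le_trans (le_of_eq ?_) (pf U a0 fun p hp => ?_)
    · simp only [hv, add_mul, sum_add_distrib, ite_mul, zero_mul, sum_ite_mem,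
        inter_eq_right.2 hU, hμ]
    · have := h1 p
      rw [if_neg fun h => hp (hU h)] at this
      rw [← Real.exp_log (FinitePlace.pos_iff.2 a0), log_eq, Real.exp_le_one_iff, neg_nonpos]
      exact mul_nonneg this (lN_pos p).le
  have v0 : ∀ p, 0 ≤ (v p : ℝ) * lN p := fun p => mul_nonneg (Nat.cast_nonneg _) (lN_pos p).le
  have h6 : ∀ φ, ar φ a - t * ar φ δ ≤ y / n := fun φ => by
    have b1 : μ ≤ nm a := by linarith [h5 S subset_rfl, sum_nonneg fun p (_ : p ∈ S) => v0 p]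
    have b2 : μ / n ≤ nm a / n := div_le_div_of_nonneg_right b1 (by linarith)
    have b3 := h3 φ
    rw [add_div] at b3
    rw [ar, ← hn]
    linarith
  have yn : 0 ≤ y / n := div_nonneg y0 (by linarith)
  refine ⟨a, v, a0, hv, fun U => ?_, fun φ => abs_le.2 ⟨?_, (h6 φ).trans ?_⟩⟩
  · have := sum_le_sum_of_subset_of_nonneg (subset_union_right (s₁ := S) (s₂ := U))
      fun p _ _ => v0 p
    linarith [h5 (S ∪ U) subset_union_left]
  · have b1 : ∑ ψ, (y / n - (ar ψ a - t * ar ψ δ)) = y := by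
      rw [sum_sub_distrib, sum_sub_distrib, ← mul_sum, sum_ar, sum_ar, sum_const, card_univ,
        Embeddings.card, nsmul_eq_mul, ← hn, mul_div_cancel₀ _ (by linarith)]
      ring
    have b2 := single_le_sum (f := fun ψ => y / n - (ar ψ a - t * ar ψ δ))
      (fun ψ _ => sub_nonneg.2 (h6 ψ)) (mem_univ φ)
    linarith
  · exact div_le_self y0 (hn ▸ n1)

theorem close {Q a b : ℝ} (h : ⌊Q * a⌋ = ⌊Q * b⌋) (hQ : 0 ≤ Q) : Q * |a - b| ≤ 1 := by
  have := Int.abs_sub_lt_one_of_floor_eq_floor h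
  rw [← mul_sub, abs_mul, abs_of_nonneg hQ] at this
  exact this.le

/-- the colouring -/
theorem cov (d Q : ℕ) (ε : ℝ) (hε : 0 < ε) : ∃ C : ℝ, 0 ≤ C ∧ ∀ (L : Type) [Field L]
    [NumberField L], Module.finrank ℚ L ≤ d → ∀ (S : Finset (Pr L)) (δ : L), ∃ n : ℕ,
      (n : ℝ) ≤ C * |(discr L : ℝ)| ^ (1 / 2 + ε) * Real.exp (ε * ∑ p ∈ S, lN p) ∧
      ∃ col : ℝ → Fin n, ∀ t t', col t = col t' → ∃ γ : L, γ ≠ 0 ∧
        (∀ p ∉ S, FinitePlace.mk p γ = 1) ∧
        (∀ p ∈ S, Q * |od p γ - (t - t') * od p δ| ≤ 1) ∧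
        ∀ φ, Q * |ar φ γ - (t - t') * ar φ δ| ≤ 1 := by
  classical
  obtain ⟨C₁, C1, h₁⟩ := rankin d ε hε
  obtain ⟨C₂, -, h₂⟩ := cnt d (Real.log (Q + 1)) ε hε
  refine ⟨C₁ * Real.exp C₂ * ((2 * Q + 3) * ((d + 1) / ε + 1)) ^ d *
    Real.exp ((1 + 2 * ε) * (d + 1)), by positivity, fun L _ _ hd S δ => ?_⟩
  have D1 : (1 : ℝ) ≤ |(discr L : ℝ)| := by exact_mod_cast Int.one_le_abs (discr_ne_zero L)
  have l0 := Real.log_nonneg D1
  have hd' : (Module.finrank ℚ L : ℝ) ≤ d := by exact_mod_cast hd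
  obtain ⟨y, hy⟩ : ∃ y : ℝ, y = d + 1 + Real.log |(discr L : ℝ)| / 2 := ⟨_, rfl⟩
  have y0 : 0 ≤ y := by rw [hy]; positivity
  have Q0 : (0 : ℝ) ≤ Q := Nat.cast_nonneg _
  obtain ⟨P, F, hF, hP⟩ := h₁ L hd y
  choose a v a0 h1 h2 h3 using fun t => point S δ t y (by
    have := mul_le_mul hd' (show Real.log 2 ≤ 1 by linarith [Real.log_two_lt_d9])
      (Real.log_nonneg one_le_two) (Nat.cast_nonneg d)
    linarith) y0
  let A := F ×ˢ (Fintype.piFinset fun _ : S => Icc (0 : ℤ) Q) ×ˢ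
    Fintype.piFinset fun _ : L →+* ℂ => Icc ⌊-(Q * y)⌋ ⌊Q * y⌋
  let c : ℝ → (P → ℕ) × (S → ℤ) × ((L →+* ℂ) → ℤ) := fun t => (fun p => v t p,
    fun p => ⌊Q * Int.fract (t * od p.1 δ)⌋, fun φ => ⌊Q * (ar φ (a t) - t * ar φ δ)⌋)
  have hc : ∀ t, c t ∈ A := fun t => mem_product.2 ⟨(hP _ (h2 t)).1, mem_product.2
    ⟨Fintype.mem_piFinset.2 fun p => mem_Icc.2 ⟨Int.floor_nonneg.2
      (mul_nonneg Q0 (Int.fract_nonneg _)), Int.floor_le_iff.2 (by
        push_cast
        linarith [mul_le_of_le_one_right Q0 (Int.fract_lt_one (t * od p.1 δ)).le])⟩,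
      Fintype.mem_piFinset.2 fun φ => mem_Icc.2 ⟨Int.floor_le_floor (by
        rw [← mul_neg]
        exact mul_le_mul_of_nonneg_left (abs_le.1 (h3 t φ)).1 Q0),
        Int.floor_le_floor (mul_le_mul_of_nonneg_left (abs_le.1 (h3 t φ)).2 Q0)⟩⟩⟩
  refine ⟨A.card, ?_, fun t => A.equivFin ⟨c t, hc t⟩, fun t t' e => ?_⟩
  · have b1 : ((Icc ⌊-(Q * y)⌋ ⌊Q * y⌋).card : ℝ) ≤
        (2 * Q + 3) * ((d + 1) / ε + 1) * Real.exp (ε * y / (d + 1)) := by
      have c1 : ((Icc ⌊-(Q * y)⌋ ⌊Q * y⌋).card : ℝ) ≤ 2 * Q * y + 2 := by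
        have c2 : ((Icc ⌊-(Q * y)⌋ ⌊Q * y⌋).card : ℤ) = ⌊Q * y⌋ + 1 - ⌊-(Q * y)⌋ :=
          Int.card_Icc_of_le _ _ ((Int.floor_le_floor (show -(Q * y) ≤ Q * y by
            linarith [mul_nonneg Q0 y0])).trans (by omega))
        have c3 : ((Icc ⌊-(Q * y)⌋ ⌊Q * y⌋).card : ℝ) = ⌊Q * y⌋ + 1 - ⌊-(Q * y)⌋ := by
          exact_mod_cast c2
        linarith [Int.floor_le (Q * y), Int.lt_floor_add_one (-(Q * y))]
      have c4 := Real.add_one_le_exp (ε * y / (d + 1))
      have c5 : y = (d + 1) / ε * (ε * y / (d + 1)) := by field_simp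
      have c6 : 0 ≤ ε * y / (d + 1) := by positivity
      have c7 : 0 ≤ ((d : ℝ) + 1) / ε := by positivity
      have c8 : y + 1 ≤ ((d + 1) / ε + 1) * Real.exp (ε * y / (d + 1)) := by
        nlinarith [mul_le_mul_of_nonneg_left c4 c7]
      rw [mul_assoc]
      nlinarith [mul_le_mul_of_nonneg_left c8 (show (0 : ℝ) ≤ 2 * Q + 3 by positivity)]
    have b2 : ((Icc ⌊-(Q * y)⌋ ⌊Q * y⌋).card : ℝ) ^ Module.finrank ℚ L ≤
        ((2 * Q + 3) * ((d + 1) / ε + 1)) ^ d * Real.exp (ε * y) := by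
      have c0 : (1 : ℝ) ≤ (2 * Q + 3) * ((d + 1) / ε + 1) :=
        one_le_mul_of_one_le_of_one_le (by linarith) (le_add_of_nonneg_left (by positivity))
      refine (pow_le_pow_left₀ (Nat.cast_nonneg _) b1 _).trans ?_
      rw [mul_pow, ← Real.exp_nat_mul]
      refine mul_le_mul (pow_le_pow_right₀ c0 hd) (Real.exp_le_exp.2 ?_) (by positivity)
        (by positivity)
      rw [← mul_div_assoc, div_le_iff₀ (by positivity)]
      nlinarith [mul_nonneg hε.le y0]
    have b3 : ((Q : ℝ) + 1) ^ S.card ≤ Real.exp C₂ * Real.exp (ε * ∑ p ∈ S, lN p) := by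
      rw [← Real.exp_log (by positivity : (0 : ℝ) < Q + 1), ← Real.exp_nat_mul, ← Real.exp_add,
        Real.exp_le_exp]
      linarith [h₂ L hd S]
    have b4 : Real.exp ((1 + ε) * y) * Real.exp (ε * y) =
        Real.exp ((1 + 2 * ε) * (d + 1)) * |(discr L : ℝ)| ^ (1 / 2 + ε) := by
      rw [Real.rpow_def_of_pos (by linarith), ← Real.exp_add, ← Real.exp_add, hy]
      congr 1
      ring
    have b5 : (A.card : ℝ) = F.card * ((Q + 1) ^ S.card *
        ((Icc ⌊-(Q * y)⌋ ⌊Q * y⌋).card : ℝ) ^ Module.finrank ℚ L) := by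
      simp only [A, card_product, Fintype.card_piFinset, prod_const, card_univ, Fintype.card_coe,
        Embeddings.card, Int.card_Icc (0 : ℤ)]
      push_cast
      simp
    calc (A.card : ℝ) ≤ C₁ * Real.exp ((1 + ε) * y) *
          (Real.exp C₂ * Real.exp (ε * ∑ p ∈ S, lN p) *
            (((2 * Q + 3) * ((d + 1) / ε + 1)) ^ d * Real.exp (ε * y))) := by
          rw [b5]
          gcongr
      _ = C₁ * Real.exp C₂ * ((2 * Q + 3) * ((d + 1) / ε + 1)) ^ d *
          (Real.exp ((1 + ε) * y) * Real.exp (ε * y)) * Real.exp (ε * ∑ p ∈ S, lN p) := by ring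
      _ = _ := by rw [b4]; ring
  · have e0 : c t = c t' := congrArg Subtype.val (A.equivFin.injective e)
    obtain ⟨e1, e2⟩ := Prod.ext_iff.1 e0
    obtain ⟨e2, e3⟩ := Prod.ext_iff.1 e2
    have e4 : ∀ p, v t p = v t' p := fun p => by
      by_cases hp : p ∈ P
      · exact congrFun e1 ⟨p, hp⟩
      · rw [(hP _ (h2 t)).2 p hp, (hP _ (h2 t')).2 p hp]
    refine ⟨a t / a t', div_ne_zero (a0 t) (a0 t'), fun p hp => ?_, fun p hp => ?_, fun φ => ?_⟩
    · refine one_of_od p (div_ne_zero (a0 t) (a0 t')) ?_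
      rw [od_div p (a0 t) (a0 t'), h1, h1, e4, if_neg hp, if_neg hp]
      simp
    · refine le_of_eq_of_le ?_ (close (congrFun e2 ⟨p, hp⟩).symm Q0)
      rw [od_div p (a0 t) (a0 t'), h1, h1, e4, if_pos hp, if_pos hp, Int.fract, Int.fract]
      congr 2
      ring
    · refine le_of_eq_of_le ?_ (close (congrFun e3 φ) Q0)
      rw [ar_div φ (a0 t) (a0 t')]
      congr 2
      ring

end Pool.Agent.MP_542436_nt.SZ
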