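import Pool.Agent.MP_542436_nt.SZ.B
import Pool.Agent.MP_542436_nt.SZ.C2
import Pool.Agent.MP_542436_nt.H40.BC

/-! The group of units of the small field, seen in the large field. -/

set_option autoImplicit false

namespace Pool.Agent.MP_542436_nt.SZ

open NumberField IsDedekindDomain Finset
open Pool.Agent.MP_542436_nt.H96N (Pr Pl lN av av_inl av_inr rowPF)
open Pool.Agent.MP_542436_nt.H96N.DEC (lN_pos N_gt int_le)

variable {L M : Type} [Field L] [NumberField L] [Field M] [NumberField M]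

theorem bc0 [Algebra L M] (p : Pr L) (P : Pr M) [P.asIdeal.LiesOver p.asIdeal] :
    1 ≤ p.asIdeal.ramificationIdx' P.asIdeal ∧
    p.asIdeal.ramificationIdx' P.asIdeal ≤ Module.finrank ℚ M ∧
    ∀ z, od P (algebraMap L M z) = p.asIdeal.ramificationIdx' P.asIdeal * od p z := by
  have hm := p.isMaximal
  have hP := P.isPrime
  have hf : p.asIdeal.inertiaDeg' P.asIdeal ≠ 0 := Ideal.inertiaDeg'_ne_zero _ _
  refine ⟨Nat.pos_of_ne_zero
    (Ideal.IsDedekindDomain.ramificationIdx'_ne_zero_of_liesOver P.asIdeal p.ne_bot), ?_,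
    fun z => ?_⟩
  · have h2 := Ideal.sum_ramification_inertia (𝓞 M) L M p.ne_bot
    have h3 : Module.finrank L M ≤ Module.finrank ℚ M := by
      rw [← Module.finrank_mul_finrank ℚ L M]
      exact Nat.le_mul_of_pos_left _ Module.finrank_pos
    refine le_trans ?_ (h2.le.trans h3)
    exact (Nat.le_mul_of_pos_right _ (Nat.pos_of_ne_zero hf)).trans (single_le_sum
      (f := fun P => p.asIdeal.ramificationIdx' P * p.asIdeal.inertiaDeg' P)
      (fun _ _ => Nat.zero_le _)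
      ((IsDedekindDomain.mem_primesOverFinset_iff p.ne_bot _).2 ⟨hP, inferInstance⟩))
  · have hN := Ideal.absNorm_eq_pow_inertiaDeg'_of_liesOver P.asIdeal p.asIdeal p.isPrime p.ne_bot
    have e : lN P = (p.asIdeal.inertiaDeg' P.asIdeal : ℝ) * lN p := by
      rw [lN, hN, Nat.cast_pow, Real.log_pow, lN]
    have h1 := congrArg Real.log (H40.BC.pw p P z)
    rw [Real.log_pow, log_eq, log_eq] at h1
    refine mul_right_cancel₀ (lN_pos P).ne' ?_
    push_cast at h1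
    rw [e] at h1 ⊢
    linarith

theorem bc (σ : L →+* M) : ∃ (dn : Pr M → Pr L) (e : Pr M → ℕ), ∀ P, 1 ≤ e P ∧
    e P ≤ Module.finrank ℚ M ∧ ∀ z, od P (σ z) = e P * od (dn P) z := by
  let _ := σ.toAlgebra
  refine ⟨HeightOneSpectrum.under (𝓞 L), fun P =>
    (HeightOneSpectrum.under (𝓞 L) P).asIdeal.ramificationIdx' P.asIdeal, fun P => ?_⟩
  have ov : P.asIdeal.LiesOver (HeightOneSpectrum.under (𝓞 L) P).asIdeal := ⟨rfl⟩
  exact bc0 _ P

theorem od_of_one {p : Pr L} {z : L} (h : FinitePlace.mk p z = 1) : od p z = 0 := by simp [od, h]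

theorem exS (L : Type) [Field L] [NumberField L] {r : ℕ} (hr : r ≠ 0) :
    ∃ S : Finset (Pr L), (∀ p, p ∉ S ↔ FinitePlace.mk p (r : L) = 1) ∧
      ∑ p ∈ S, lN p ≤ Module.finrank ℚ L * Real.log r := by
  have hf : {p : Pr L | FinitePlace.mk p (r : L) ≠ 1}.Finite :=
    (FinitePlace.hasFiniteMulSupport (Nat.cast_ne_zero.2 hr)).preimage (f := FinitePlace.mk)
      fun _ _ _ _ h => FinitePlace.mk_eq_iff.mp h
  exact ⟨hf.toFinset, fun p => by simp, sum_lN hr _ fun p hp =>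
    lt_of_le_of_ne (nat_le_one p r) (hf.mem_toFinset.1 hp)⟩

theorem un_map (σ : L →+* M) {r : ℕ} (hr : r ≠ 0) {S : Finset (Pr L)} {T : Finset (Pr M)}
    (hS : ∀ p, p ∉ S ↔ FinitePlace.mk p (r : L) = 1)
    (hT : ∀ p, p ∉ T ↔ FinitePlace.mk p (r : M) = 1) {z : L} (z0 : z ≠ 0)
    (hz : ∀ p ∉ S, FinitePlace.mk p z = 1) : ∀ P ∉ T, FinitePlace.mk P (σ z) = 1 := fun P hP => by
  obtain ⟨dn, e, h⟩ := bc σ
  obtain ⟨h1, -, h2⟩ := h P
  have h3 := h2 r
  rw [map_natCast, od_of_one ((hT P).1 hP)] at h3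
  have h4 : od (dn P) (r : L) = 0 :=
    (mul_eq_zero.1 h3.symm).resolve_left (Nat.cast_ne_zero.2 (by omega))
  refine one_of_od P ((map_ne_zero σ).2 z0) ?_
  rw [h2, od_of_one (hz _ ((hS _).2 (one_of_od _ (Nat.cast_ne_zero.2 hr) (by simp [h4]))))]
  simp

theorem nm_eq {S : Finset (Pr L)} {u : L} (u0 : u ≠ 0)
    (hu : ∀ p ∉ S, FinitePlace.mk p u = 1) : nm u = ∑ p ∈ S, od p u * lN p := by
  have h1 := pf S u0 fun p hp => (hu p hp).le
  have h2 := pf S (inv_ne_zero u0) fun p hp => by rw [map_inv₀, hu p hp, inv_one]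
  simp only [od, map_inv₀, Real.log_inv, norm_inv, neg_div, neg_mul, sum_neg_distrib,
    neg_neg] at h1 h2 ⊢
  rw [nm]
  linarith

theorem log_pw {K : Type} [Field K] (f : AbsoluteValue K ℝ) {a b : K} (ha : a ≠ 0) (hb : b ≠ 0)
    (c : ℤ) (W : ℕ) :
    Real.log (f ((a * b ^ c) ^ W)) = W * (Real.log (f a) + c * Real.log (f b)) := by
  rw [map_pow, map_mul, map_zpow₀, Real.log_pow,
    Real.log_mul (f.ne_zero ha) (zpow_ne_zero _ (f.ne_zero hb)), Real.log_zpow]

theorem two_bd {W c a a' b b' σ β : ℝ} (hW : 0 ≤ W) (hc : |c| ≤ 1) (ha : |a - σ * a'| ≤ β)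
    (hb : |b - σ * b'| ≤ β) : |W * (a + c * b) - σ * (W * (a' + c * b'))| ≤ 2 * W * β := by
  rw [show W * (a + c * b) - σ * (W * (a' + c * b')) = W * ((a - σ * a') + c * (b - σ * b')) by
    ring, abs_mul, abs_of_nonneg hW, mul_comm 2, mul_assoc]
  refine mul_le_mul_of_nonneg_left ((abs_add_le _ _).trans ?_) hW
  rw [abs_mul]
  linarith [mul_le_mul hc hb (abs_nonneg _) zero_le_one]

/-- units away from `S` -/
def US (S : Finset (Pr L)) : Subgroup Lˣ where
  carrier := {u | ∀ p ∉ S, FinitePlace.mk p (u : L) = 1}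
  mul_mem' ha hb p hp := by rw [Units.val_mul, map_mul, ha p hp, hb p hp, one_mul]
  one_mem' p _ := by simp
  inv_mem' ha p hp := by rw [Units.val_inv_eq_inv_val, map_inv₀, ha p hp, inv_one]

/-- the underlying number -/
def vl {S : Finset (Pr L)} (g : Additive (US S)) : L := ((Additive.toMul g).1 : Lˣ)

theorem vl_ne {S : Finset (Pr L)} (g : Additive (US S)) : vl g ≠ 0 := Units.ne_zero _

theorem vl_add {S : Finset (Pr L)} (f g : Additive (US S)) : vl (f + g) = vl f * vl g := rfl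

theorem vl_one {S : Finset (Pr L)} (g : Additive (US S)) :
    ∀ p ∉ S, FinitePlace.mk p (vl g) = 1 := (Additive.toMul g).2

theorem dat {d W : ℕ} {c₁ Λ : ℝ} (c0 : 0 < c₁) (c1 : c₁ ≤ 1)
    (hW : ∀ u : L, u ≠ 0 → (∀ p : Pr L, FinitePlace.mk p u = 1) →
      (∀ φ : L →+* ℂ, Real.log ‖φ u‖ ≤ c₁) → u ^ W = 1)
    (hd : Module.finrank ℚ M ≤ d) (σ₁ σ₂ : L →+* M) {c : ℤ} (hc : |c| ≤ 1) {r : ℕ} (hr : r ≠ 0)
    {S : Finset (Pr L)} {T : Finset (Pr M)} (hS : ∀ p, p ∉ S ↔ FinitePlace.mk p (r : L) = 1)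
    (hT : ∀ p, p ∉ T ↔ FinitePlace.mk p (r : M) = 1) (hΛ : ∑ p ∈ S, lN p ≤ Λ) :
    ∃ D : Dat M (Pl M T) (Additive (US S)) (S ⊕ (L →+* ℂ)), D.av = av T ∧
      (∀ g, D.pw g = (σ₁ (vl g) * σ₂ (vl g) ^ c) ^ W) ∧
      (D.lam = Sum.elim (fun _ => 2 * W * (1 + Λ)) fun P => lN P.1 / 2) ∧
      ∀ g, D.co g = Sum.elim (fun p => (4 * W * d + 1) * od p.1 (vl g))
        fun φ => ar φ (vl g) / c₁ := by
  classical
  have hc' : |(c : ℝ)| ≤ 1 := by exact_mod_cast hc
  have Λ0 : 0 ≤ Λ := (sum_nonneg fun p _ => (lN_pos p).le).trans hΛ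
  have κ1 : (1 : ℝ) ≤ 4 * W * d + 1 := le_add_of_nonneg_left (by positivity)
  have s0 : ∀ (σ : L →+* M) (g : Additive (US S)), σ (vl g) ≠ 0 := fun σ g =>
    (map_ne_zero σ).2 (vl_ne g)
  have un : ∀ (σ : L →+* M) (g : Additive (US S)), ∀ P ∉ T, FinitePlace.mk P (σ (vl g)) = 1 :=
    fun σ g => un_map σ hr hS hT (vl_ne g) (vl_one g)
  refine ⟨⟨av T, H96N.MID.ring T, fun z hz h0 => (rowPF M T z).1 h0 hz,
    fun g => (σ₁ (vl g) * σ₂ (vl g) ^ c) ^ W,
    fun g => pow_ne_zero _ (mul_ne_zero (s0 _ g) (zpow_ne_zero _ (s0 _ g))), fun f g => ?_,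
    fun g P hP => ?_, AddMonoidHom.mk' (fun g => Sum.elim
      (fun p => (4 * W * d + 1) * od p.1 (vl g)) fun φ => ar φ (vl g) / c₁) fun f g => ?_,
    Sum.elim (fun _ => 2 * W * (1 + Λ)) fun P => lN P.1 / 2, ?_, fun f x σ ε ε0 h => ?_,
    fun g h => ?_⟩, rfl, fun _ => rfl, rfl, fun _ => rfl⟩
  · rw [vl_add, map_mul, map_mul, mul_zpow, ← mul_pow]
    congr 1
    ring
  · rw [map_pow, map_mul, map_zpow₀, un _ g P hP, un _ g P hP]
    simp
  · funext i
    rcases i with p | φ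
    · simp only [Sum.elim_inl, Pi.add_apply, vl_add, od_mul _ (vl_ne f) (vl_ne g), mul_add]
    · simp only [Sum.elim_inr, Pi.add_apply, vl_add, ar_mul _ (vl_ne f) (vl_ne g), add_div]
  · rintro (ψ | P)
    · change (0 : ℝ) ≤ 2 * W * (1 + Λ)
      positivity
    · exact div_nonneg (lN_pos P.1).le zero_le_two
  · have a1 : ∀ p, (4 * W * d + 1) * |od p (vl f) - σ * od p (vl x)| ≤ ε := fun p => by
      by_cases hp : p ∈ S
      · refine le_of_eq_of_le ?_ (h (.inl ⟨p, hp⟩))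
        rw [← abs_of_nonneg (zero_le_one.trans κ1), ← abs_mul, abs_of_nonneg (zero_le_one.trans κ1)]
        congr 1
        simp only [AddMonoidHom.mk'_apply, Sum.elim_inl]
        ring
      · simpa [od_of_one (vl_one f p hp), od_of_one (vl_one x p hp)] using ε0
    have a2 : |nm (vl f) - σ * nm (vl x)| ≤ ε * Λ := by
      rw [nm_eq (vl_ne f) (vl_one f), nm_eq (vl_ne x) (vl_one x), mul_sum, ← sum_sub_distrib]
      refine (abs_sum_le_sum_abs _ _).trans (le_trans ?_ (mul_le_mul_of_nonneg_left hΛ ε0))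
      rw [mul_sum]
      refine sum_le_sum fun p _ => ?_
      rw [← mul_assoc, ← sub_mul, abs_mul, abs_of_pos (lN_pos p)]
      exact mul_le_mul_of_nonneg_right
        ((le_mul_of_one_le_left (abs_nonneg _) κ1).trans (a1 p)) (lN_pos p).le
    have a3 : ∀ φ : L →+* ℂ, |Real.log ‖φ (vl f)‖ - σ * Real.log ‖φ (vl x)‖| ≤ ε * (1 + Λ) :=
      fun φ => by
        have n1 : (1 : ℝ) ≤ Module.finrank ℚ L := by exact_mod_cast Module.finrank_pos
        have b1 : |ar φ (vl f) / c₁ - σ * (ar φ (vl x) / c₁)| ≤ ε := h (.inr φ)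
        rw [← mul_div_assoc, ← sub_div, abs_div, abs_of_pos c0, div_le_iff₀ c0] at b1
        have b2 : |(nm (vl f) - σ * nm (vl x)) / Module.finrank ℚ L| ≤ ε * Λ := by
          rw [abs_div, Nat.abs_cast]
          exact (div_le_self (abs_nonneg _) n1).trans a2
        rw [show Real.log ‖φ (vl f)‖ - σ * Real.log ‖φ (vl x)‖ = (ar φ (vl f) - σ * ar φ (vl x)) +
          (nm (vl f) - σ * nm (vl x)) / Module.finrank ℚ L by rw [ar, ar]; ring]
        linarith [abs_add_le (ar φ (vl f) - σ * ar φ (vl x))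
          ((nm (vl f) - σ * nm (vl x)) / Module.finrank ℚ L), mul_le_of_le_one_right ε0 c1]
    intro v
    rw [log_pw _ (s0 _ f) (s0 _ f), log_pw _ (s0 _ x) (s0 _ x)]
    rcases v with ψ | P
    · exact (two_bd (Nat.cast_nonneg W) hc' (a3 (ψ.comp σ₁)) (a3 (ψ.comp σ₂))).trans_eq
        (by simp only [Sum.elim_inl]; ring)
    · have a4 : ∀ τ : L →+* M, (4 * W * d + 1) * |Real.log (av T (.inr P) (τ (vl f))) -
          σ * Real.log (av T (.inr P) (τ (vl x)))| ≤ d * ε * lN P.1 := fun τ => by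
        obtain ⟨dn, e, h⟩ := bc τ
        obtain ⟨-, h1, h2⟩ := h P.1
        have h3 : (e P.1 : ℝ) ≤ d := by exact_mod_cast h1.trans hd
        rw [av_inr, av_inr, log_eq, log_eq, h2, h2, show -(e P.1 * od (dn P.1) (vl f) * lN P.1) -
          σ * -(e P.1 * od (dn P.1) (vl x) * lN P.1) =
          -(e P.1 * (od (dn P.1) (vl f) - σ * od (dn P.1) (vl x)) * lN P.1) by ring, abs_neg,
          abs_mul, abs_mul, Nat.abs_cast, abs_of_pos (lN_pos P.1), ← mul_assoc, mul_left_comm]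
        exact mul_le_mul_of_nonneg_right (mul_le_mul h3 (a1 _) (by positivity) (by positivity))
          (lN_pos P.1).le
      have κ0 : (0 : ℝ) < 4 * W * d + 1 := by linarith
      refine (two_bd (β := d * ε * lN P.1 / (4 * W * d + 1)) (Nat.cast_nonneg W) hc'
        ((le_div_iff₀' κ0).2 (a4 σ₁)) ((le_div_iff₀' κ0).2 (a4 σ₂))).trans ?_
      rw [← mul_div_assoc, div_le_iff₀ κ0]
      simp only [Sum.elim_inr]
      nlinarith [mul_nonneg ε0 (lN_pos P.1).le]
  · have a1 : ∀ p, FinitePlace.mk p (vl g) = 1 := fun p => by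
      by_cases hp : p ∈ S
      · have b1 : |(4 * W * d + 1) * od p (vl g)| < 1 := h (.inl ⟨p, hp⟩)
        rw [abs_mul, abs_of_nonneg (zero_le_one.trans κ1)] at b1
        exact one_of_od p (vl_ne g) ((le_mul_of_one_le_left (abs_nonneg _) κ1).trans_lt b1)
      · exact vl_one g p hp
    have a2 := hW _ (vl_ne g) a1 fun φ => by
      have b1 : |ar φ (vl g) / c₁| < 1 := h (.inr φ)
      rw [ar, nm_eq (S := ∅) (vl_ne g) fun p _ => a1 p, sum_empty, zero_div, sub_zero] at b1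
      exact ((div_lt_one c0).1 ((le_abs_self _).trans_lt b1)).le
    rw [mul_pow, ← zpow_natCast (_ ^ c), ← zpow_mul, mul_comm c, zpow_mul, zpow_natCast,
      ← map_pow, ← map_pow, a2]
    simp

end Pool.Agent.MP_542436_nt.SZ
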