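import Pool.Agent.MP_542436_nt.SZ.C3
import Pool.Agent.MP_542436_nt.SZ.Spec

/-! The unit equation, uniformly in fields of bounded degree. -/

set_option autoImplicit false

namespace Pool.Agent.MP_542436_nt.SZ

open NumberField IsDedekindDomain Finset
open Pool.Agent.MP_542436_nt.H96N (Pr Pl lN av av_inl av_inr rowPF Sm Def)
open Pool.Agent.MP_542436_nt.H96N.DEC (lN_pos)
open Pool.Agent.MP_542436_nt.H96N.FIN (Dt finCase archCase)

theorem pick {M : Type} [Field M] [NumberField M] {d W : ℕ} (hd : Module.finrank ℚ M ≤ d) {x : M}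
    {T : Finset (Pr M)} {Λ : ℝ} (hx : x - 1 ≠ 0) (h1 : ∀ p ∉ T, FinitePlace.mk p (x - 1) = 1)
    (hΛ : 1 ≤ Λ) (hl : ∑ p ∈ T, lN p ≤ Λ)
    (hX : 4 * d + 8 * d * Λ + 8 * d * W ≤ Height.logHeight₁ x) :
    Dt W (16 * d + 32) x T Λ (Height.logHeight₁ x) := by
  have n1 : (1 : ℝ) ≤ d := by exact_mod_cast Module.finrank_pos.trans_le hd
  have hd' : (Module.finrank ℚ M : ℝ) ≤ d := by exact_mod_cast hd
  have d2 : Def T 0 (x - 1)⁻¹ := fun U hU => (sum_eq_zero fun p hp => by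
    rw [map_inv₀, h1 p (disjoint_left.1 hU hp)]
    simp).le
  obtain ⟨-, p1, p2⟩ := rowPF M T (x - 1)⁻¹
  have p3 := p2 0 d2
  have p4 := Height.logHeight₁_sub_le x 1
  have p5 := Height.logHeight₁_add_le (x - 1) 1
  rw [Height.logHeight₁_inv, Fintype.sum_sum_type] at p1 p3
  simp only [av_inl, av_inr] at p1 p3
  rw [sum_coe_sort T fun p => max (Real.log (FinitePlace.mk p (x - 1)⁻¹)) 0] at p1 p3
  have c1 : (Height.totalWeight M : ℝ) * Real.log 2 ≤ d := by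
    rw [NumberField.totalWeight_eq_finrank]
    exact (mul_le_of_le_one_right (Nat.cast_nonneg _) (by linarith [Real.log_two_lt_d9])).trans hd'
  rw [Height.logHeight₁_one] at p4 p5
  rw [sub_add_cancel] at p5
  have b4 : 8 * Λ ≤ 8 * d * Λ := by nlinarith
  have b5 : (0 : ℝ) ≤ 8 * d * W := by positivity
  have a0 : 0 ≤ ∑ φ : M →+* ℂ, max (Real.log ‖φ (x - 1)⁻¹‖) 0 :=
    sum_nonneg fun _ _ => le_max_right _ _
  by_cases h : Height.logHeight₁ x / 2 ≤ ∑ p ∈ T, max (Real.log (FinitePlace.mk p (x - 1)⁻¹)) 0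
  · exact finCase H96N.rowCOLF hx (by push_cast; linarith) hΛ hl (by linarith) h (by linarith)
  · obtain ⟨φ, -, hφ⟩ := exists_max_image univ
      (fun φ : M →+* ℂ => max (Real.log ‖φ (x - 1)⁻¹‖) 0) univ_nonempty
    have a1 := sum_le_card_nsmul _ _ _ hφ
    rw [card_univ, Embeddings.card, nsmul_eq_mul] at a1
    have a2 := mul_le_mul_of_nonneg_right hd' (le_max_right (Real.log ‖φ (x - 1)⁻¹‖) 0)
    exact archCase H96N.rowCOLA hx n1 (by push_cast; linarith) hΛ (by linarith) (by linarith) φ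
      (by linarith)

theorem rowUNIF : RowUNIF := by
  classical
  intro d ε hε
  obtain ⟨W₀, c₁, W0, c0, c1, hK⟩ := kron d
  obtain ⟨W, hW⟩ : ∃ W, W = 2 * W₀ := ⟨_, rfl⟩
  obtain ⟨u, hu⟩ : ∃ u, u = 16 * d + 32 := ⟨_, rfl⟩
  obtain ⟨η, hη⟩ : ∃ η : ℝ, η = ε / (d + 4) := ⟨_, rfl⟩
  have η0 : 0 < η := by rw [hη]; positivity
  have η1 : η * (d + 4) = ε := by rw [hη]; field_simp
  obtain ⟨k, hk⟩ := exists_nat_ge (4 * (2 * (4 * W * d + 2) + u) / η)
  obtain ⟨G, Q, G1, Q1, hG⟩ := rowGM (k + 1) (4 * W * d + 1 + W * u) (by omega) (by omega)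
  obtain ⟨Q', hQ'⟩ := exists_nat_ge ((Q : ℝ) * (4 * W * d + 1) + Q / c₁)
  obtain ⟨C₁, C1, hC₁⟩ := cov d Q' (η / 4) (by positivity)
  obtain ⟨C', C'0, hC'⟩ := cnt d G 1 one_pos
  obtain ⟨C₀, hC₀⟩ : ∃ C₀, C₀ = C' + d * G + 1 := ⟨_, rfl⟩
  have C0 : 1 ≤ C₀ := hC₀ ▸ le_add_of_nonneg_left (by positivity)
  refine ⟨(4 * d + 8 * d * (η⁻¹ + C₀) + 8 * d * W) + u * G * (2 * (k + 1 : ℕ) ^ 2) * C₁ * (4 / η) *
    Real.exp (η * C₀ / 2), by positivity, ?_⟩
  intro L M _ _ _ _ σ₁ σ₂ c δ x r hL hM hc r0 δ0 hδ x1 hx hxδ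
  obtain ⟨S, hS, hS'⟩ := exS L r0
  obtain ⟨T, hT, hT'⟩ := exS M r0
  have r1 : (1 : ℝ) ≤ r := by exact_mod_cast Nat.pos_of_ne_zero r0
  have lr := Real.log_nonneg r1
  obtain ⟨l, hl⟩ : ∃ l : ℝ, l = d * Real.log r := ⟨_, rfl⟩
  have l0 : 0 ≤ l := by rw [hl]; positivity
  have hM' : (Module.finrank ℚ M : ℝ) ≤ d := by exact_mod_cast hM
  replace hS' : ∑ p ∈ S, lN p ≤ l :=
    hS'.trans (hl ▸ mul_le_mul_of_nonneg_right (by exact_mod_cast hL) lr)
  replace hT' : ∑ p ∈ T, lN p ≤ l := hT'.trans (hl ▸ mul_le_mul_of_nonneg_right hM' lr)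
  obtain ⟨Λ, hΛ⟩ : ∃ Λ, Λ = l + C₀ := ⟨_, rfl⟩
  have Λ1 : 1 ≤ Λ := by linarith
  have D1 : (1 : ℝ) ≤ |(discr L : ℝ)| := by exact_mod_cast Int.one_le_abs (discr_ne_zero L)
  have D2 : 1 ≤ |(discr L : ℝ)| ^ (1 / 2 + ε) := Real.one_le_rpow D1 (by positivity)
  have E1 : Real.exp (η * l) ≤ (r : ℝ) ^ ε := by
    rw [Real.rpow_def_of_pos (by linarith), Real.exp_le_exp, hl, ← η1]
    nlinarith [mul_nonneg η0.le lr]
  have E2 : 1 ≤ Real.exp (η * l) := Real.one_le_exp (by positivity)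
  rw [add_mul, add_mul]
  rcases lt_or_ge (Height.logHeight₁ x) (4 * d + 8 * d * Λ + 8 * d * W) with hX | hX
  · refine le_add_of_le_of_nonneg (hX.le.trans ?_) (by positivity)
    have a1 : l ≤ η⁻¹ * Real.exp (η * l) :=
      (le_inv_mul_iff₀ η0).2 (by linarith [Real.add_one_le_exp (η * l)])
    have a2 : Λ ≤ (η⁻¹ + C₀) * Real.exp (η * l) := by nlinarith
    have a3 := mul_le_mul_of_nonneg_left a2 (show (0 : ℝ) ≤ 8 * d by positivity)
    have a4 := le_mul_of_one_le_right (show (0 : ℝ) ≤ 4 * d + 8 * d * W by positivity) E2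
    calc _ ≤ (4 * d + 8 * d * (η⁻¹ + C₀) + 8 * d * W) * 1 * Real.exp (η * l) := by linarith
      _ ≤ _ := by gcongr
  refine le_add_of_nonneg_of_le (by positivity) ?_
  obtain ⟨T', μ, Y, a1, a2, a3, a4, a5, a6⟩ := pick (W := W) hM (sub_ne_zero.2 x1)
    (fun p hp => hx p ((hT p).1 hp)) Λ1 (by linarith) hX
  rw [← hu] at a4 a5 a6
  obtain ⟨D, D1', D2', D3, D4⟩ := dat (d := d) (W := W) (Λ := Λ) c0 c1
    (fun z z0 h1 h2 => by rw [hW, mul_comm, pow_mul, hK L hL z z0 h1 h2, one_pow]) hM σ₁ σ₂ hc r0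
    hS hT (by linarith)
  have hδ' : ∀ p ∉ S, FinitePlace.mk p δ = 1 := fun p hp => hδ p ((hS p).1 hp)
  let g₀ : Additive (US S) := Additive.ofMul ⟨Units.mk0 δ δ0, hδ'⟩
  have g1 : D.pw g₀ = x ^ W := by
    rw [D2', hW, pow_mul, pow_mul, hxδ]
    rfl
  have xT : ∀ p ∉ T, FinitePlace.mk p x = 1 := fun p hp => by
    have := congrArg (FinitePlace.mk p) hxδ
    rw [map_pow, map_pow, map_mul, map_zpow₀, un_map σ₁ r0 hS hT δ0 hδ' p hp,
      un_map σ₂ r0 hS hT δ0 hδ' p hp, one_zpow, mul_one, one_pow] at this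
    exact (pow_eq_one_iff_of_nonneg (apply_nonneg _ _) two_ne_zero).1 this
  have lg1 : ∀ v z, D.lg v z = Real.log (av T v z) := fun v z => by rw [Dat.lg, D1']
  have Ht1 : D.Ht g₀ = W * Height.logHeight₁ x := by
    obtain ⟨-, p1, p2⟩ := rowPF M T x
    have p3 := p2 0 fun U hU => (sum_eq_zero fun p hp => by
      simp [xT p (disjoint_left.1 hU hp)]).le
    rw [← le_antisymm p1 (by linarith), Dat.Ht, mul_sum]
    refine sum_congr rfl fun v _ => ?_
    rw [lg1, g1, map_pow, Real.log_pow, mul_max_of_nonneg _ _ (Nat.cast_nonneg W), mul_zero]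
  have hLam : D.Lam ≤ (4 * W * d + 1) * Λ := by
    rw [Dat.Lam, D3, Fintype.sum_sum_type]
    simp only [Sum.elim_inl, Sum.elim_inr, sum_const, card_univ, Embeddings.card, nsmul_eq_mul]
    rw [← sum_div, sum_coe_sort T lN]
    have b1 : (Module.finrank ℚ M : ℝ) * (2 * W * (1 + Λ)) ≤ d * (2 * W * (Λ + Λ)) := by gcongr
    linarith
  have A : D.Apx g₀ T' μ Y := ⟨fun v h => (a1 v h).1, fun v h => by
    rw [D1', g1]; exact (a1 v h).2.1, fun v h => by rw [lg1, g1]; exact (a1 v h).2.2⟩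
  obtain ⟨q, hq, col, hcol⟩ := a4 ((k + 1 : ℕ) * Real.exp ((4 * W * d + 2) * Λ))
    (one_le_mul_of_one_le_of_one_le (by simp) (Real.one_le_exp (by positivity)))
  obtain ⟨N, N1, N2⟩ := H96N.MID.count (k := k + 1) (q := q)
    (y := (2 * (4 * W * d + 2) + u) * Λ) (by omega) (by positivity) (hq.trans_eq (by
      rw [mul_pow, mul_assoc, ← Real.exp_nat_mul, ← Real.exp_add]
      congr 2
      push_cast
      ring))
  have sm : ∀ γ : Fin (k + 1) → M, (∀ i, D.Near g₀ (γ i)) →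
      ∀ v ∈ T', Sm ((k + 1 : ℕ) * Real.exp ((4 * W * d + 2) * Λ)) (∑ i, γ i) v := by
    rintro γ hγ (φ | p) h
    · change av T (.inl φ) _ ≤ _
      refine ((av T (.inl φ)).sum_le _ _).trans ((sum_le_card_nsmul _ _
        (Real.exp ((4 * W * d + 2) * Λ)) fun i _ => ?_).trans_eq (by simp))
      obtain ⟨g, τ, h1, h2, h3⟩ := hγ i
      have b1 := (abs_le.1 (D.near zero_le_one h3 (.inl φ))).2
      have b2 : τ * D.lg (.inl φ) (D.pw g₀) ≤ 1 := (le_abs_self _).trans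
        ((abs_mul _ _).trans_le (mul_le_one₀ h2 (abs_nonneg _) (A.unit _ h)))
      rw [h1, ← D1', ← D.exp_lg _ (D.pw_ne g), Real.exp_le_exp]
      linarith [D.lam_le (.inl φ)]
    · refine H96N.MID.sum_le_one p.1 _ fun i => ?_
      obtain ⟨g, τ, h1, -, h3⟩ := hγ i
      have b1 := D.near zero_le_one h3 (.inr p)
      rw [lg1, lg1, g1, av_inr, av_inr, map_pow, a2 p h, one_pow, Real.log_one, mul_zero, sub_zero,
        D3, Sum.elim_inr, log_eq, abs_neg, abs_mul, abs_of_pos (lN_pos p.1)] at b1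
      refine (h1 ▸ one_of_od p.1 (D.pw_ne g) ?_).le
      by_contra b2
      nlinarith [lN_pos p.1, not_lt.1 b2]
  obtain ⟨n, hn, cv, hcv⟩ := hC₁ L hL S δ
  have Q0 : (0 : ℝ) ≤ Q := Nat.cast_nonneg _
  have X0 : 0 ≤ Height.logHeight₁ x := Height.zero_le_logHeight₁ x
  have W1 : (1 : ℝ) ≤ W := by exact_mod_cast (by omega : 1 ≤ W)
  have YΛ : 0 ≤ Y * Λ := by positivity
  have fin := hG M _ _ _ D g₀ T' μ Y N q n Λ A ⟨col, fun γ γ' h e v hv => by
      rw [D1']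
      exact hcol _ _ (fun v hv => ⟨sm γ (fun i => (h i).1) v hv, sm γ' (fun i => (h i).2) v hv⟩)
        e v hv⟩
    ⟨cv, fun t t' e => by
      obtain ⟨γ, γ0, h1, h2, h3⟩ := hcv t t' e
      refine ⟨Additive.ofMul ⟨Units.mk0 γ γ0, h1⟩, ?_⟩
      rintro (p | φ) <;> rw [D4, D4]
      · refine le_trans ?_ (h2 p.1 p.2)
        change Q * |(4 * W * d + 1) * od p.1 γ - (t - t') * ((4 * W * d + 1) * od p.1 δ)| ≤ _
        rw [mul_left_comm (t - t'), ← mul_sub, abs_mul, abs_of_nonneg (by positivity), ← mul_assoc]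
        exact mul_le_mul_of_nonneg_right (by linarith [div_nonneg Q0 c0.le]) (abs_nonneg _)
      · refine le_trans ?_ (h3 φ)
        change Q * |ar φ γ / c₁ - (t - t') * (ar φ δ / c₁)| ≤ _
        rw [← mul_div_assoc, ← sub_div, abs_div, abs_of_pos c0, mul_div_left_comm, mul_comm]
        refine mul_le_mul_of_nonneg_right (le_trans (le_add_of_nonneg_left ?_) hQ') (abs_nonneg _)
        positivity⟩ N1 Λ1 a3
    (by
      have b1 := hC' M hM T
      have b2 := mul_le_mul_of_nonneg_left hM' (Nat.cast_nonneg (α := ℝ) G)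
      rw [Fintype.card_sum, Fintype.card_coe, Embeddings.card]
      push_cast
      linarith)
    (hLam.trans (mul_le_mul_of_nonneg_right (by exact_mod_cast Nat.le_add_right _ _)
      (by linarith)))
    (by
      have b1 := mul_le_mul_of_nonneg_left a5 (zero_le_one.trans W1)
      have b2 : 0 ≤ (4 * W * d + 1) * (Y * Λ) := by positivity
      rw [Ht1]
      push_cast
      linarith)
    (by
      have b1 : Height.logHeight₁ x ≤ W * Height.logHeight₁ x := le_mul_of_one_le_left X0 W1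
      have b2 : (u : ℝ) ≤ (4 * W * d + 1 + W * u : ℕ) := by
        exact_mod_cast (Nat.le_mul_of_pos_left u (by omega : 0 < W)).trans (Nat.le_add_left _ _)
      rw [Ht1]
      exact a6.trans (mul_le_mul b2 b1 X0 (by positivity)))
  have last := H96N.MID.last (G := G) (M := N) (g := n) (h := 1) (D := 0) (W := 1)
    (A := 2 * (k + 1 : ℕ) ^ 2) (B := C₁ * |(discr L : ℝ)| ^ (1 / 2 + ε)) η0 l0
    (Nat.cast_nonneg u) hΛ (by linarith) (by positivity) (by positivity) (by positivity)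
    zero_le_one a5 (by rw [mul_one]; exact_mod_cast fin) (N2.trans (by
      refine mul_le_mul_of_nonneg_left (Real.exp_le_exp.2 ?_) (by positivity)
      rw [div_le_iff₀ η0] at hk
      rw [div_le_div_iff₀ (by positivity) (by positivity)]
      push_cast
      nlinarith [mul_le_mul_of_nonneg_right hk (zero_le_one.trans Λ1)]))
    (hn.trans (by
      have b1 : η / 4 ≤ ε := by nlinarith [mul_nonneg η0.le (Nat.cast_nonneg (α := ℝ) d)]
      gcongr)) (by simp)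
  refine last.trans ?_
  calc _ = u * G * (2 * (k + 1 : ℕ) ^ 2) * C₁ * (4 / η) * Real.exp (η * C₀ / 2) *
        |(discr L : ℝ)| ^ (1 / 2 + ε) * Real.exp (η * l) := by ring
    _ ≤ _ := by gcongr

end Pool.Agent.MP_542436_nt.SZ
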